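import Mathlib

open MeasureTheory Set Filter Topology CategoryTheory
open scoped ENNReal RealInnerProductSpace ContDiff

noncomputable section

namespace Pool.Agent.Helper10.Taut

/-! ### Submanifolds of a Euclidean space `E`, with the induced Riemannian metric -/

section submanifolds

variable {E : Type} [NormedAddCommGroup E] [InnerProductSpace ℝ E]

/-- `N` is an embedded smooth submanifold of `E` of dimension `d`: near each of its points it is
the zero set of a smooth map to `ℝ^m`, `m + d = dim E`, whose derivative is surjective. -/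
def IsSubmanifold (N : Set E) (d : ℕ) : Prop :=
  ∀ x ∈ N, ∃ (m : ℕ) (U : Set E) (f : E → EuclideanSpace ℝ (Fin m)), m + d = Module.finrank ℝ E ∧
    IsOpen U ∧ x ∈ U ∧ ContDiffOn ℝ ∞ f U ∧ (∀ y ∈ U, y ∈ N ↔ f y = 0) ∧
    ∀ y ∈ U, Function.Surjective (fderiv ℝ f y)

/-- The tangent space of `N` at `x`: velocities of curves in `N` through `x`. -/
def tangent (N : Set E) (x : E) : Set E :=
  {v | ∃ c : ℝ → E, (∀ s, c s ∈ N) ∧ c 0 = x ∧ HasDerivAt c v 0}

/-- Geodesics of `N`: smooth curves in `N` whose acceleration is orthogonal to `N`. -/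
def IsGeodesic (N : Set E) (c : ℝ → E) : Prop :=
  ContDiff ℝ ∞ c ∧ (∀ t, c t ∈ N) ∧ ∀ t, ∀ v ∈ tangent N (c t), ⟪deriv (deriv c) t, v⟫ = 0

/-- `N` is a symmetric space: each point `x` of `N` is fixed by a linear isometry of `E` which
preserves `N` and acts as `-1` on the tangent space of `N` at `x`. -/
def IsSymmetric (N : Set E) : Prop :=
  ∀ x ∈ N, ∃ σ : E ≃ₗᵢ[ℝ] E, σ '' N = N ∧ σ x = x ∧ ∀ v ∈ tangent N x, σ v = -v

/-- `N₁` is totally geodesic in `N₀`: the geodesics of `N₁` are geodesics of `N₀`. -/
def IsTotallyGeodesic (N₁ N₀ : Set E) : Prop :=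
  N₁ ⊆ N₀ ∧ ∀ c, IsGeodesic N₁ c → IsGeodesic N₀ c

/-- The normal bundle of `M` in `N`, as a set of pairs (foot point, normal vector). -/
def normalBundle (N M : Set E) : Set (E × E) :=
  {z | z.1 ∈ M ∧ z.2 ∈ tangent N z.1 ∧ ∀ v ∈ tangent M z.1, ⟪z.2, v⟫ = 0}

/-- `p` is a focal point of `M` in `N`, i.e. a critical value of the normal exponential map: there
are a curve `z` in the normal bundle with nonzero velocity `w` at time `0` and geodesics `c s` of
`N` with initial position and velocity `z s` such that `c 0` ends at `p` and the end points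
`c s 1` have velocity zero at `s = 0`. -/
def IsFocal (N M : Set E) (p : E) : Prop :=
  ∃ (z : ℝ → E × E) (c : ℝ → ℝ → E) (w : E × E),
    (∀ s, z s ∈ normalBundle N M) ∧
    (∀ s, IsGeodesic N (c s) ∧ c s 0 = (z s).1 ∧ deriv (c s) 0 = (z s).2) ∧
    c 0 1 = p ∧ HasDerivAt z w 0 ∧ w ≠ 0 ∧ HasDerivAt (fun s => c s 1) 0 0

end submanifolds

/-! ### The path space and the energy -/

/-- The Hilbert space of square integrable `E`-valued functions on `[0,1]`. -/
abbrev L2 (E : Type) [NormedAddCommGroup E] : Type := Lp E 2 (volume : Measure unitInterval)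

/-- The `H¹` path `γ : [0,1] → E` with derivative `g` which ends at `p`, that is,
`γ t = p - ∫ τ in t..1, g τ`. -/
def path {E : Type} [NormedAddCommGroup E] [NormedSpace ℝ E] (p : E) (g : L2 E)
    (t : unitInterval) : E := p - ∫ τ in Ioc t 1, g τ

/-- The space `P(N, M × p)` of `H¹` paths in `N` from `M` to `p`, each path represented by its
derivative; it carries the topology of `L²`. -/
def pathSpace {E : Type} [NormedAddCommGroup E] [NormedSpace ℝ E] (N M : Set E) (p : E) :
    Set (L2 E) :=
  {g | (∀ t, path p g t ∈ N) ∧ path p g 0 ∈ M}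

section energy

variable {E : Type} [NormedAddCommGroup E] [InnerProductSpace ℝ E]

/-- The energy. -/
def energy (g : L2 E) : ℝ := ∫ t, ‖g t‖ ^ 2

/-- `g` is a critical point of the energy on the space `X` of paths: the energy has derivative
zero along every curve in `X` through `g` which is differentiable at `g`. -/
def IsCriticalPoint (X : Set (L2 E)) (g : L2 E) : Prop :=
  g ∈ X ∧ ∀ (c : ℝ → L2 E) (v : L2 E), (∀ s, c s ∈ X) → c 0 = g → HasDerivAt c v 0 →
    HasDerivAt (fun s => energy (c s)) 0 0

/-- The second variation of the energy at `g` in the direction `w` is negative. -/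
def IsNegative (X : Set (L2 E)) (g w : L2 E) : Prop :=
  ∃ c : ℝ → L2 E, ContDiff ℝ ∞ c ∧ (∀ s, c s ∈ X) ∧ c 0 = g ∧ deriv c 0 = w ∧
    deriv (deriv fun s => energy (c s)) 0 < 0

/-- The Morse index of `g`: the largest dimension of a space of directions in which the second
variation of the energy is negative. -/
def index (X : Set (L2 E)) (g : L2 E) : ℕ∞ :=
  ⨆ W : {W : Submodule ℝ (L2 E) // ∀ w ∈ W, w ≠ 0 → IsNegative X g w},
    Cardinal.toENat (Module.rank ℝ W.1)

end energy

/-! ### Tautness -/

/-- The `k`-th Betti number of the topological space `X` with coefficients in the field `F`, the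
dimension of the singular homology. -/
def betti (F : Type) [Field F] (X : Type) [TopologicalSpace X] (k : ℕ) : ℕ∞ :=
  Cardinal.toENat (Module.rank F
    (((AlgebraicTopology.singularHomologyFunctor (ModuleCat.{0} F) k).obj
      (ModuleCat.of F F)).obj (TopCat.of X)))

section taut

variable {E : Type} [NormedAddCommGroup E] [InnerProductSpace ℝ E]

/-- `E_p` is perfect over `F`: for every `k` the number of its critical points of index `k` is the
`k`-th Betti number of `P(N, M × p)`. -/
def IsPerfect (F : Type) [Field F] (N M : Set E) (p : E) : Prop :=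
  ∀ k : ℕ, {g | IsCriticalPoint (pathSpace N M p) g ∧ index (pathSpace N M p) g = k}.encard =
    betti F (pathSpace N M p) k

/-- `M` is taut in `N`: there is a field over which `E_p` is perfect for all `p` in `N` which are
not focal points of `M`. -/
def IsTaut (N M : Set E) : Prop :=
  ∃ (F : Type) (_ : Field F), ∀ p ∈ N, ¬ IsFocal N M p → IsPerfect F N M p

/-- `N₀` is a compact connected symmetric space of dimension `d₀`, `N₁` is a compact connected
totally geodesic submanifold of `N₀` of dimension `d₁`, and `M` is a compact connected submanifold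
of `N₁` of dimension `d` which is taut in `N₁` but not taut in `N₀`. -/
def IsCounterexample (N₀ N₁ M : Set E) (d₀ d₁ d : ℕ) : Prop :=
  (IsCompact N₀ ∧ IsConnected N₀ ∧ IsSubmanifold N₀ d₀ ∧ IsSymmetric N₀) ∧
  (IsCompact N₁ ∧ IsConnected N₁ ∧ IsSubmanifold N₁ d₁ ∧ IsTotallyGeodesic N₁ N₀) ∧
  (IsCompact M ∧ IsConnected M ∧ IsSubmanifold M d ∧ M ⊆ N₁) ∧
  IsTaut N₁ M ∧ ¬ IsTaut N₀ M

end taut

/-! ### The example -/

/-- Euclidean three-space. -/
abbrev V3 := EuclideanSpace ℝ (Fin 3)

/-- The Euclidean product of two copies of Euclidean three-space. -/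
abbrev V6 := WithLp 2 (V3 × V3)

/-- The product of two round unit two-spheres. -/
def sphereProd : Set V6 := {x | ‖x.fst‖ = 1 ∧ ‖x.snd‖ = 1}

/-- The flat torus, product of the two equators. -/
def flatTorus : Set V6 := {x | (‖x.fst‖ = 1 ∧ x.fst 2 = 0) ∧ ‖x.snd‖ = 1 ∧ x.snd 2 = 0}

/-- The diagonal circle of the flat torus. -/
def diagCircle : Set V6 := {x | x.fst = x.snd ∧ ‖x.fst‖ = 1 ∧ x.fst 2 = 0}

end Pool.Agent.Helper10.Taut
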