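import Pool.Agent.Helper10.Taut.Focal

open MeasureTheory Set Filter Topology
open scoped ENNReal NNReal RealInnerProductSpace ContDiff

set_option linter.unusedSectionVars false

noncomputable section

namespace Pool.Agent.Helper10.Taut

lemma inner6 (x y : V6) : ⟪x, y⟫ = ⟪x.fst, y.fst⟫ + ⟪x.snd, y.snd⟫ := WithLp.prod_inner_apply x y

/-- The rotation of both components. -/
def rotP : V6 →L[ℝ] V6 :=
  pairL.comp ((rotJ.comp (WithLp.fstL 2 ℝ V3 V3)).prod (rotJ.comp (WithLp.sndL 2 ℝ V3 V3)))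

lemma rotP_apply (x : V6) : rotP x = pairL (rotJ x.fst, rotJ x.snd) := rfl

/-- A projection onto the plane of the circle. -/
def projP : V6 →L[ℝ] V6 :=
  pairL.comp (((-(1 / 2 : ℝ)) • rotJ.comp (rotJ.comp (WithLp.fstL 2 ℝ V3 V3 +
    WithLp.sndL 2 ℝ V3 V3))).prod ((-(1 / 2 : ℝ)) • rotJ.comp (rotJ.comp
    (WithLp.fstL 2 ℝ V3 V3 + WithLp.sndL 2 ℝ V3 V3))))

lemma projP_apply (x : V6) : projP x =
    pairL ((-(1 / 2 : ℝ)) • rotJ (rotJ (x.fst + x.snd)), (-(1 / 2 : ℝ)) • rotJ (rotJ (x.fst + x.snd))) := rfl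

lemma projP_of_mem {x : V6} (hx : x ∈ diagCircle) : projP x = x := by
  rw [projP_apply]
  have h2 := hx.2.2
  have h1 : (-(1 / 2 : ℝ)) • rotJ (rotJ (x.fst + x.snd)) = x.fst := by
    rw [← hx.1]
    ext i; fin_cases i
    · simp; ring
    · simp; ring
    · simp [h2]
  rw [h1]
  conv_lhs => rw [show (x.fst, x.fst) = (x.fst, x.snd) by rw [hx.1]]
  exact pairL_eq x

lemma of_projP_eq {w : V6} (hw : projP w = w) : w.fst = w.snd ∧ w.fst 2 = 0 := by
  rw [projP_apply] at hw
  have h1 := congrArg (fun x : V6 => x.fst) hw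
  have h2 := congrArg (fun x : V6 => x.snd) hw
  simp only [pairL_fst, pairL_snd] at h1 h2
  refine ⟨h1.symm.trans h2, ?_⟩
  have := congrArg (fun x : V3 => x 2) h1
  simp at this
  exact this.symm

/-- The linear form dual to the rotation field. -/
def angForm : V6 →L[ℝ] (V6 →L[ℝ] ℝ) := (1 / 2 : ℝ) • (innerSL ℝ).comp rotP

lemma angForm_apply (x w : V6) : angForm x w = 1 / 2 * ⟪rotP x, w⟫ := rfl

lemma tangential {x w : V6} (hx : x ∈ diagCircle) (hw : projP w = w) (h0 : ⟪x, w⟫ = 0) :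
    w = angForm x w • rotP x := by
  obtain ⟨h1, h2⟩ := of_projP_eq hw
  have he : x.fst ∈ equator := ⟨hx.2.1, hx.2.2⟩
  rw [inner6, ← hx.1, ← h1] at h0
  have h3 : ⟪w.fst, x.fst⟫ = 0 := by
    rw [real_inner_comm]; linarith
  have h4 := decomp he w.fst
  rw [h3, h2, zero_smul, zero_smul, zero_add, add_zero] at h4
  rw [angForm_apply, rotP_apply, inner6, pairL_fst, pairL_snd, ← hx.1, ← h1,
    real_inner_comm]
  have h5 : 1 / 2 * (⟪w.fst, rotJ x.fst⟫ + ⟪w.fst, rotJ x.fst⟫) = ⟪w.fst, rotJ x.fst⟫ := by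
    ring
  dsimp only
  rw [h5, ← map_smul, Prod.smul_mk, ← h4]
  conv_rhs => rw [show (w.fst, w.fst) = (w.fst, w.snd) by rw [h1]]
  exact (pairL_eq w).symm

lemma norm_sq_of_mem {x : V6} (hx : x ∈ diagCircle) : ‖x‖ ^ 2 = 2 := by
  rw [WithLp.prod_norm_sq_eq_of_L2, ← hx.1, hx.2.1]; norm_num

lemma rotP_rotP {x : V6} (hx : x ∈ diagCircle) : rotP (rotP x) = -x := by
  have he : x.fst ∈ equator := ⟨hx.2.1, hx.2.2⟩
  have h := (frame he).2.2.2.2.2.2.2.2.2
  rw [rotP_apply, rotP_apply, pairL_fst, pairL_snd, ← hx.1, h]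
  have : (-x.fst, -x.fst) = -(x.fst, x.snd) := by rw [← hx.1]; rfl
  rw [this, map_neg, pairL_eq]

/-! ### Lifting of paths in the circle -/

/-- The angular velocity of a path. -/
def angVel (p : V6) (g : L2 V6) : L2 ℝ :=
  appL ((⟨angForm, angForm.continuous⟩ : C(V6, V6 →L[ℝ] ℝ)).comp (evL (p, g))) g

lemma continuous_angVel (p : V6) : Continuous (angVel p) := by
  unfold angVel
  have h1 : Continuous fun g : L2 V6 =>
      (appL ((⟨angForm, angForm.continuous⟩ : C(V6, V6 →L[ℝ] ℝ)).comp (evL (p, g))) :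
        L2 V6 →L[ℝ] L2 ℝ) :=
    appL.continuous.comp ((ContinuousMap.continuous_postcomp _).comp
      (evL.continuous.comp (Continuous.prodMk_right p)))
  exact h1.clm_apply continuous_id

lemma angVel_ae (p : V6) (g : L2 V6) : ∀ᵐ τ, angVel p g τ = angForm (path p g τ) (g τ) :=
  appL_ae _ _

lemma zero_of_path_const {E : Type} [NormedAddCommGroup E] [NormedSpace ℝ E] [CompleteSpace E]
    {p q : E} {g : L2 E} (h : ∀ t, path p g t = q) : g = 0 := by
  have hz : ∀ t, path q (0 : L2 E) t = q := by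
    intro t
    have h1 : path (q + 0) (0 + 0 : L2 E) t = path q (0 : L2 E) t + path 0 (0 : L2 E) t :=
      path_add _ _ _ _ _
    have h2 : path ((0 : ℝ) • (0 : E)) ((0 : ℝ) • (0 : L2 E)) t = (0 : ℝ) • path 0 (0 : L2 E) t :=
      path_smul _ _ _ _
    unfold path
    have h3 : ∫ τ in Ioc t 1, (0 : L2 E) τ = ∫ τ in Ioc t 1, (0 : E) := by
      apply integral_congr_ae
      exact ae_restrict_of_ae (Lp.coeFn_zero E 2 volume)
    rw [h3]; simp
  exact (path_injective (p := p) (p' := q) (g := g) (g' := 0) fun t => by rw [h, hz]).2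

lemma path_zero {E : Type} [NormedAddCommGroup E] [NormedSpace ℝ E] [CompleteSpace E]
    (q : E) (t : unitInterval) : path q (0 : L2 E) t = q := by
  unfold path
  have h3 : ∫ τ in Ioc t 1, (0 : L2 E) τ = ∫ τ in Ioc t 1, (0 : E) := by
    apply integral_congr_ae
    exact ae_restrict_of_ae (Lp.coeFn_zero E 2 volume)
  rw [h3]; simp

lemma velocity_ae {p : V6} {g : L2 V6} (hg : ∀ t, path p g t ∈ diagCircle) :
    ∀ᵐ τ, g τ = angForm (path p g τ) (g τ) • rotP (path p g τ) := by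
  have hp : p ∈ diagCircle := by simpa [path_one] using hg 1
  have h1 : lin projP g = g := by
    refine (path_injective (p := p) (p' := p) fun t => ?_).2
    have := path_lin projP p g t
    rw [projP_of_mem hp, projP_of_mem (hg t)] at this
    exact this
  have h2 := lin_ae projP g
  rw [h1] at h2
  have hF : ContDiff ℝ 1 fun x : V6 => ‖x‖ ^ 2 := contDiff_id.norm_sq ℝ
  have h3 : (comp (fun x : V6 => ‖x‖ ^ 2) hF (p, g)).2 = 0 := by
    refine zero_of_path_const (p := (comp (fun x : V6 => ‖x‖ ^ 2) hF (p, g)).1) (q := 2)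
      fun t => ?_
    rw [path_comp]
    exact norm_sq_of_mem (hg t)
  have h4 := comp_ae (fun x : V6 => ‖x‖ ^ 2) hF p g
  rw [h3] at h4
  filter_upwards [h2, h4, Lp.coeFn_zero ℝ 2 (volume : Measure unitInterval)] with τ h2 h4 h5
  refine tangential (hg τ) h2.symm ?_
  rw [h5] at h4
  have h6 : HasFDerivAt (fun x : V6 => ‖x‖ ^ 2) (2 • innerSL ℝ (path p g τ)) (path p g τ) :=
    (hasStrictFDerivAt_norm_sq (path p g τ)).hasFDerivAt
  rw [h6.fderiv] at h4
  have h7 : (0 : ℝ) = 2 • ⟪path p g τ, g τ⟫ := h4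
  rw [two_smul] at h7
  linarith

/-- The parametrisation of the circle starting at `p`. -/
def circ (p : V6) (φ : ℝ) : V6 := Real.cos φ • p + Real.sin φ • rotP p

lemma contDiff_circ (p : V6) : ContDiff ℝ 1 (circ p) := by
  unfold circ
  exact (Real.contDiff_cos.smul contDiff_const).add (Real.contDiff_sin.smul contDiff_const)

lemma circ_mem {p : V6} (hp : p ∈ diagCircle) (φ : ℝ) : circ p φ ∈ diagCircle := by
  have h := rotate_mem_equator ⟨hp.2.1, hp.2.2⟩ φ
  have e1 : (circ p φ).fst = Real.cos φ • p.fst + Real.sin φ • rotJ p.fst := rfl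
  have e2 : (circ p φ).snd = Real.cos φ • p.snd + Real.sin φ • rotJ p.snd := rfl
  refine ⟨?_, ?_, ?_⟩
  · rw [e1, e2, hp.1]
  · rw [e1]; exact h.1
  · rw [e1]; exact h.2

/-- The inverse rotation of a point by an angle. -/
def unrot (z : V6 × ℝ) : V6 := Real.cos z.2 • z.1 - Real.sin z.2 • rotP z.1

lemma contDiff_unrot : ContDiff ℝ 1 unrot := by
  unfold unrot
  exact ((Real.contDiff_cos.comp contDiff_snd).smul contDiff_fst).sub
    ((Real.contDiff_sin.comp contDiff_snd).smul (rotP.contDiff.comp contDiff_fst))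

lemma fderiv_unrot (z w : V6 × ℝ) : fderiv ℝ unrot z w =
    Real.cos z.2 • w.1 + (-Real.sin z.2 * w.2) • z.1 -
      (Real.sin z.2 • rotP w.1 + (Real.cos z.2 * w.2) • rotP z.1) := by
  have h1 : HasFDerivAt (fun z : V6 × ℝ => z.1) (ContinuousLinearMap.fst ℝ V6 ℝ) z :=
    hasFDerivAt_fst
  have h2 : HasFDerivAt (fun z : V6 × ℝ => z.2) (ContinuousLinearMap.snd ℝ V6 ℝ) z :=
    hasFDerivAt_snd
  have h3 := (h2.cos.smul h1).sub (h2.sin.smul (rotP.hasFDerivAt.comp z h1))
  have h5 : HasFDerivAt unrot _ z := h3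
  rw [h5.fderiv]
  rfl

lemma unrot_fderiv_zero {x w : V6} (hx : x ∈ diagCircle) (φ : ℝ)
    (hw : w = angForm x w • rotP x) : fderiv ℝ unrot (x, φ) (w, angForm x w) = 0 := by
  rw [fderiv_unrot]
  set ψ := angForm x w
  dsimp only
  rw [hw, map_smul, rotP_rotP hx]
  module

lemma circ_unrot {p x : V6} (hx : x ∈ diagCircle) {φ : ℝ} (h : unrot (x, φ) = p) :
    circ p φ = x := by
  unfold circ
  rw [← h]
  unfold unrot
  rw [map_sub, map_smul, map_smul, rotP_rotP hx]
  have h5 := Real.sin_sq_add_cos_sq φ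
  have h6 : Real.cos φ • (Real.cos φ • x - Real.sin φ • rotP x) +
    Real.sin φ • (Real.cos φ • rotP x - Real.sin φ • -x) =
    (Real.sin φ ^ 2 + Real.cos φ ^ 2) • x := by module
  dsimp only
  rw [h6, h5, one_smul]

/-- Pairing of square integrable functions. -/
def pairL2 (g : L2 V6) (ψ : L2 ℝ) : L2 (V6 × ℝ) :=
  lin (ContinuousLinearMap.inl ℝ V6 ℝ) g + lin (ContinuousLinearMap.inr ℝ V6 ℝ) ψ

lemma pairL2_ae (g : L2 V6) (ψ : L2 ℝ) : ∀ᵐ τ, pairL2 g ψ τ = (g τ, ψ τ) := by
  filter_upwards [Lp.coeFn_add (lin (ContinuousLinearMap.inl ℝ V6 ℝ) g)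
    (lin (ContinuousLinearMap.inr ℝ V6 ℝ) ψ), lin_ae (ContinuousLinearMap.inl ℝ V6 ℝ) g,
    lin_ae (ContinuousLinearMap.inr ℝ V6 ℝ) ψ] with τ h1 h2 h3
  unfold pairL2
  rw [h1, Pi.add_apply, h2, h3]
  simp

lemma path_pairL2 (p : V6) (r : ℝ) (g : L2 V6) (ψ : L2 ℝ) (t : unitInterval) :
    path (p, r) (pairL2 g ψ) t = (path p g t, path r ψ t) := by
  have h1 := path_lin (ContinuousLinearMap.inl ℝ V6 ℝ) p g t
  have h2 := path_lin (ContinuousLinearMap.inr ℝ V6 ℝ) r ψ t
  have h3 := path_add (ContinuousLinearMap.inl ℝ V6 ℝ p) (ContinuousLinearMap.inr ℝ V6 ℝ r)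
    (lin (ContinuousLinearMap.inl ℝ V6 ℝ) g) (lin (ContinuousLinearMap.inr ℝ V6 ℝ) ψ) t
  rw [h1, h2] at h3
  simp at h3
  exact h3

/-- A path in the circle is recovered from its angular velocity. -/
lemma lift_path {p : V6} {g : L2 V6} (hg : ∀ t, path p g t ∈ diagCircle) (t : unitInterval) :
    circ p (path 0 (angVel p g) t) = path p g t := by
  have hu : ∀ t, path (comp unrot contDiff_unrot ((p, 0), pairL2 g (angVel p g))).1
      (comp unrot contDiff_unrot ((p, 0), pairL2 g (angVel p g))).2 t =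
      unrot (path p g t, path 0 (angVel p g) t) := by
    intro t
    rw [path_comp, path_pairL2]
  have h0 : (comp unrot contDiff_unrot ((p, 0), pairL2 g (angVel p g))).2 = 0 := by
    rw [Lp.eq_zero_iff_ae_eq_zero]
    filter_upwards [comp_ae unrot contDiff_unrot (p, 0) (pairL2 g (angVel p g)),
      pairL2_ae g (angVel p g), angVel_ae p g, velocity_ae hg] with τ h1 h2 h3 h4
    rw [h1, h2, path_pairL2, h3]
    exact unrot_fderiv_zero (hg τ) _ h4
  apply circ_unrot (hg t)
  rw [← hu t, h0, path_zero]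
  simp [comp, unrot]

/-- The circle path with given angular velocity. -/
def circPath (p : V6) (ψ : L2 ℝ) : L2 V6 := (comp (circ p) (contDiff_circ p) (0, ψ)).2

lemma circ_zero (p : V6) : circ p 0 = p := by simp [circ]

lemma path_circPath (p : V6) (ψ : L2 ℝ) (t : unitInterval) :
    path p (circPath p ψ) t = circ p (path 0 ψ t) := by
  have h := path_comp (circ p) (contDiff_circ p) 0 ψ t
  have h1 : (comp (circ p) (contDiff_circ p) (0, ψ)).1 = p := circ_zero p
  rw [h1] at h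
  exact h

lemma continuous_circPath (p : V6) : Continuous (circPath p) :=
  continuous_snd.comp ((continuous_comp _ _).comp (Continuous.prodMk_right 0))

lemma circPath_angVel {p : V6} {g : L2 V6} (hg : ∀ t, path p g t ∈ diagCircle) :
    circPath p (angVel p g) = g := by
  refine (path_injective (p := p) (p' := p) fun t => ?_).2
  rw [path_circPath, lift_path hg]

lemma circPath_mem {p : V6} (hp : p ∈ diagCircle) (ψ : L2 ℝ) :
    circPath p ψ ∈ pathSpace diagCircle diagCircle p :=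
  ⟨fun t => by rw [path_circPath]; exact circ_mem hp _,
    by rw [path_circPath]; exact circ_mem hp _⟩

lemma contractible_circle {p : V6} (hp : p ∈ diagCircle) :
    ContractibleSpace (pathSpace diagCircle diagCircle p) := by
  rw [contractible_iff_id_nullhomotopic]
  let r : C(L2 ℝ, pathSpace diagCircle diagCircle p) :=
    ⟨fun ψ => ⟨circPath p ψ, circPath_mem hp ψ⟩, (continuous_circPath p).subtype_mk _⟩
  let i : C(pathSpace diagCircle diagCircle p, L2 ℝ) :=
    ⟨fun g => angVel p g.1, (continuous_angVel p).comp continuous_subtype_val⟩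
  have h1 : r.comp ((ContinuousMap.id (L2 ℝ)).comp i) = ContinuousMap.id _ := by
    ext1 g
    apply Subtype.ext
    exact circPath_angVel g.2.1
  rw [← h1]
  exact ((id_nullhomotopic (L2 ℝ)).comp_left i).comp_right r

/-! ### The energy on the circle -/

lemma hasDerivAt_circ (p : V6) (φ : ℝ) :
    HasDerivAt (circ p) ((-Real.sin φ) • p + Real.cos φ • rotP p) φ :=
  ((Real.hasDerivAt_cos φ).smul_const p).add ((Real.hasDerivAt_sin φ).smul_const (rotP p))

lemma fderiv_circ (p : V6) (φ w : ℝ) :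
    fderiv ℝ (circ p) φ w = w • ((-Real.sin φ) • p + Real.cos φ • rotP p) := by
  rw [(hasDerivAt_circ p φ).hasFDerivAt.fderiv]
  simp

lemma norm_circ' {p : V6} (hp : p ∈ diagCircle) (φ : ℝ) :
    ‖(-Real.sin φ) • p + Real.cos φ • rotP p‖ ^ 2 = 2 := by
  have he : p.fst ∈ equator := ⟨hp.2.1, hp.2.2⟩
  obtain ⟨f1, f2, -, f4, f5, -⟩ := frame he
  have h1 : ⟪p, rotP p⟫ = 0 := by
    rw [inner6, rotP_apply, pairL_fst, pairL_snd, ← hp.1]; dsimp only; rw [f4]; norm_num
  have h2 : ‖rotP p‖ ^ 2 = 2 := by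
    rw [← real_inner_self_eq_norm_sq, inner6, rotP_apply, pairL_fst, pairL_snd, ← hp.1]
    dsimp only; rw [f2]; norm_num
  rw [norm_add_sq_real, norm_smul, norm_smul, inner_smul_left, inner_smul_right, h1, mul_pow,
    mul_pow, h2, norm_sq_of_mem hp]
  simp only [Real.norm_eq_abs, sq_abs]
  have := Real.sin_sq_add_cos_sq φ
  simp
  linear_combination 2 * this

lemma energy_circPath {p : V6} (hp : p ∈ diagCircle) (ψ : L2 ℝ) :
    energy (circPath p ψ) = 2 * ‖ψ‖ ^ 2 := by
  have h1 : energy (circPath p ψ) = ∫ t, 2 * ‖ψ t‖ ^ 2 := by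
    unfold energy
    apply integral_congr_ae
    filter_upwards [comp_ae (circ p) (contDiff_circ p) 0 ψ] with τ h1
    have h2 : circPath p ψ τ = fderiv ℝ (circ p) (path 0 ψ τ) (ψ τ) := h1
    rw [h2, fderiv_circ, norm_smul, mul_pow, norm_circ' hp]
    ring
  rw [h1, integral_const_mul]
  have h2 := energy_eq ψ
  unfold energy at h2
  rw [h2]

lemma quad_bound {f f' : ℝ → ℝ} (hf : ∀ x, HasDerivAt f (f' x) x)
    (hL : ∀ x y, |f' x - f' y| ≤ |x - y|) (a b : ℝ) :
    |f b - f a - f' a * (b - a)| ≤ (b - a) ^ 2 := by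
  have h1 := Convex.norm_image_sub_le_of_norm_hasDerivWithin_le (s := uIcc a b)
    (f := fun x => f x - f' a * x) (f' := fun x => f' x - f' a) (C := |b - a|) (x := a) (y := b)
    (fun x _ => by
      have h := (hf x).sub ((hasDerivAt_id x).const_mul (f' a))
      rw [mul_one] at h
      exact h.hasDerivWithinAt)
    (fun x hx => by
      rw [Real.norm_eq_abs]
      refine (hL x a).trans ?_
      have := abs_sub_left_of_mem_uIcc hx
      exact this) (convex_uIcc a b) left_mem_uIcc right_mem_uIcc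
  have e : f b - f a - f' a * (b - a) = f b - f' a * b - (f a - f' a * a) := by ring
  rw [e]
  rw [Real.norm_eq_abs, Real.norm_eq_abs, ← sq, sq_abs] at h1
  exact h1

lemma hasDerivAt_comp_line {f f' : ℝ → ℝ} (hf : ∀ x, HasDerivAt f (f' x) x)
    (hL : ∀ x y, |f' x - f' y| ≤ |x - y|) (hfc : Continuous f) (hfc' : Continuous f')
    (φ : C(unitInterval, ℝ)) :
    HasDerivAt (fun s : ℝ => (⟨f, hfc⟩ : C(ℝ, ℝ)).comp ((1 - s) • φ))
      (-(φ * (⟨f', hfc'⟩ : C(ℝ, ℝ)).comp φ)) 0 := by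
  rw [hasDerivAt_iff_isLittleO]
  have h2 : (fun s : ℝ => s ^ 2 * ‖φ‖ ^ 2) =o[𝓝 0] fun s : ℝ => s - 0 := by
    have h3 : HasDerivAt (fun s : ℝ => s ^ 2 * ‖φ‖ ^ 2) (((2 : ℕ) : ℝ) * 0 ^ (2 - 1) * ‖φ‖ ^ 2) 0 :=
      (hasDerivAt_pow 2 (0 : ℝ)).mul_const _
    rw [hasDerivAt_iff_isLittleO] at h3
    simpa using h3
  refine Asymptotics.IsBigO.trans_isLittleO ?_ h2
  apply Asymptotics.IsBigO.of_bound 1
  filter_upwards with s
  rw [one_mul, ContinuousMap.norm_le _ (by positivity)]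
  intro t
  rw [Real.norm_eq_abs (s ^ 2 * ‖φ‖ ^ 2), abs_of_nonneg (by positivity)]
  have h4 := quad_bound hf hL (φ t) ((1 - s) * φ t)
  have h5 : ‖φ t‖ ≤ ‖φ‖ := φ.norm_coe_le_norm t
  have e : ‖((⟨f, hfc⟩ : C(ℝ, ℝ)).comp ((1 - s) • φ) - (⟨f, hfc⟩ : C(ℝ, ℝ)).comp ((1 - (0 : ℝ)) • φ) -
      (s - 0) • -(φ * (⟨f', hfc'⟩ : C(ℝ, ℝ)).comp φ) : C(unitInterval, ℝ)) t‖ =
      |f ((1 - s) * φ t) - f (φ t) - f' (φ t) * ((1 - s) * φ t - φ t)| := by
    rw [Real.norm_eq_abs]
    congr 1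
    simp
    ring
  rw [e]
  refine h4.trans ?_
  have h6 : ((1 - s) * φ t - φ t) ^ 2 = s ^ 2 * ‖φ t‖ ^ 2 := by
    rw [Real.norm_eq_abs, sq_abs]; ring
  rw [h6]
  gcongr

section general
variable {E : Type} [NormedAddCommGroup E] [NormedSpace ℝ E]

/-- Multiplication of a continuous function by a fixed vector, as a family of linear maps. -/
def famL (P : E) : C(unitInterval, ℝ) →L[ℝ] C(unitInterval, ℝ →L[ℝ] E) :=
  ContinuousLinearMap.compLeftContinuous ℝ unitInterval
    (ContinuousLinearMap.toSpanSingleton ℝ (ContinuousLinearMap.toSpanSingleton ℝ P))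

lemma famL_apply (P : E) (h : C(unitInterval, ℝ)) (t : unitInterval) (w : ℝ) :
    famL P h t w = w • h t • P := by
  have : famL P h t = (h t) • ContinuousLinearMap.toSpanSingleton ℝ P := rfl
  rw [this]
  simp [smul_smul, mul_comm]

lemma abstract_deriv {X Y Z W : Type} [NormedAddCommGroup X] [NormedSpace ℝ X]
    [NormedAddCommGroup Y] [NormedSpace ℝ Y] [NormedAddCommGroup Z] [NormedSpace ℝ Z]
    [NormedAddCommGroup W] [NormedSpace ℝ W] (L M : X →L[ℝ] Y) (B : Y →L[ℝ] Z →L[ℝ] W) (z : Z)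
    (x y : ℝ → X) (x' y' : X) (hx : HasDerivAt x x' 0) (hy : HasDerivAt y y' 0) :
    ∃ v, HasDerivAt (fun s : ℝ => (1 - s) • B (L (x s) + M (y s)) z) v 0 := by
  have h1 := L.hasFDerivAt.comp_hasDerivAt (0 : ℝ) hx
  have h2 := M.hasFDerivAt.comp_hasDerivAt (0 : ℝ) hy
  have h4 := B.hasFDerivAt.comp_hasDerivAt (0 : ℝ) (h1.add h2)
  have h5 := h4.clm_apply (hasDerivAt_const (0 : ℝ) z)
  exact ⟨_, ((hasDerivAt_id (0 : ℝ)).const_sub 1).smul h5⟩

/-- The parametrisation of an ellipse. -/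
def ell (p q : E) (φ : ℝ) : E := Real.cos φ • p + Real.sin φ • q

lemma contDiff_ell (p q : E) : ContDiff ℝ 1 (ell p q) := by
  unfold ell
  exact (Real.contDiff_cos.smul contDiff_const).add (Real.contDiff_sin.smul contDiff_const)

lemma hasDerivAt_ell (p q : E) (φ : ℝ) :
    HasDerivAt (ell p q) ((-Real.sin φ) • p + Real.cos φ • q) φ :=
  ((Real.hasDerivAt_cos φ).smul_const p).add ((Real.hasDerivAt_sin φ).smul_const q)

lemma fderiv_ell (p q : E) (φ w : ℝ) :
    fderiv ℝ (ell p q) φ w = w • ((-Real.sin φ) • p + Real.cos φ • q) := by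
  rw [(hasDerivAt_ell p q φ).hasFDerivAt.fderiv]
  simp

lemma hasDerivAt_ellPath (p q : E) (ψ : L2 ℝ) :
    ∃ v, HasDerivAt (fun s : ℝ => (comp (ell p q) (contDiff_ell p q) (0, (1 - s) • ψ)).2) v 0 := by
  set φ : C(unitInterval, ℝ) := evL (0, ψ) with hφ
  have h1 := hasDerivAt_comp_line (f := Real.cos) (f' := fun x => -Real.sin x)
    Real.hasDerivAt_cos (fun x y => by
      rw [show -Real.sin x - -Real.sin y = -(Real.sin x - Real.sin y) by ring, abs_neg]
      exact Real.abs_sin_sub_sin_le x y) Real.continuous_cos Real.continuous_sin.neg φ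
  have h2 := hasDerivAt_comp_line (f := fun x => -Real.sin x) (f' := fun x => -Real.cos x)
    (fun x => (Real.hasDerivAt_sin x).neg) (fun x y => by
      rw [show -Real.cos x - -Real.cos y = -(Real.cos x - Real.cos y) by ring, abs_neg]
      exact Real.abs_cos_sub_cos_le x y) Real.continuous_sin.neg Real.continuous_cos.neg φ
  obtain ⟨v, hv⟩ := abstract_deriv (X := C(unitInterval, ℝ)) (Y := C(unitInterval, ℝ →L[ℝ] E))
    (famL p) (famL q) (appL (E := ℝ) (E' := E)) ψ _ _ _ _ h2 h1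
  refine ⟨v, hv.congr_of_eventuallyEq ?_⟩
  filter_upwards with s
  have e1 : (comp (ell p q) (contDiff_ell p q) (0, (1 - s) • ψ)).2 =
      appL (dMap (ell p q) (contDiff_ell p q) (evL (0, (1 - s) • ψ))) ((1 - s) • ψ) := rfl
  have e2 : evL ((0 : ℝ), (1 - s) • ψ) = (1 - s) • φ := by
    rw [hφ, ← map_smul, Prod.smul_mk, smul_zero]
  rw [e1, e2, map_smul]
  have e3 : dMap (ell p q) (contDiff_ell p q) ((1 - s) • φ) =
      famL p ((⟨fun x => -Real.sin x, Real.continuous_sin.neg⟩ : C(ℝ, ℝ)).comp ((1 - s) • φ)) +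
      famL q ((⟨Real.cos, Real.continuous_cos⟩ : C(ℝ, ℝ)).comp ((1 - s) • φ)) := by
    apply ContinuousMap.ext
    intro t
    ext1
    have e4 : dMap (ell p q) (contDiff_ell p q) ((1 - s) • φ) t =
      fderiv ℝ (ell p q) (((1 - s) • φ) t) := rfl
    rw [e4, fderiv_ell, ContinuousMap.add_apply, add_apply, famL_apply,
      famL_apply, one_smul, one_smul, one_smul]
    rfl
  rw [e3]

end general

lemma hasDerivAt_circPath (p : V6) (ψ : L2 ℝ) :
    ∃ v, HasDerivAt (fun s : ℝ => circPath p ((1 - s) • ψ)) v 0 :=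
  hasDerivAt_ellPath p (rotP p) ψ

lemma isCriticalPoint_circle {p : V6} (hp : p ∈ diagCircle) (g : L2 V6) :
    IsCriticalPoint (pathSpace diagCircle diagCircle p) g ↔ g = 0 := by
  constructor
  · rintro ⟨hg, hc⟩
    set ψ := angVel p g with hψ
    obtain ⟨v, hv⟩ := hasDerivAt_circPath p ψ
    have h0 : circPath p ((1 - (0 : ℝ)) • ψ) = g := by
      rw [sub_zero, one_smul]; exact circPath_angVel hg.1
    have h1 := hc (fun s : ℝ => circPath p ((1 - s) • ψ)) v (fun s => circPath_mem hp _) h0 hv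
    have h2 : (fun s : ℝ => energy (circPath p ((1 - s) • ψ))) =
        fun s : ℝ => (1 - s) ^ 2 * (2 * ‖ψ‖ ^ 2) := by
      funext s
      rw [energy_circPath hp, norm_smul, mul_pow, Real.norm_eq_abs, sq_abs]; ring
    rw [h2] at h1
    have h3 : HasDerivAt (fun s : ℝ => (1 - s) ^ 2 * (2 * ‖ψ‖ ^ 2))
        (((2 : ℕ) : ℝ) * (1 - 0) ^ (2 - 1) * (-1) * (2 * ‖ψ‖ ^ 2)) 0 :=
      (((hasDerivAt_id (0 : ℝ)).const_sub 1).pow 2).mul_const _
    have h4 := h1.unique h3
    norm_num at h4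
    rw [← h0, sub_zero, one_smul, h4]
    refine zero_of_path_const (p := p) (q := p) fun t => ?_
    rw [path_circPath, path_zero, circ_zero]
  · rintro rfl
    apply isCriticalPoint_of_min
    · refine ⟨fun t => ?_, ?_⟩
      · rw [path_zero]; exact hp
      · rw [path_zero]; exact hp
    · filter_upwards with h _
      rw [energy_eq, energy_eq, norm_zero, zero_pow two_ne_zero]
      positivity

lemma index_circle {p : V6} : index (pathSpace diagCircle diagCircle p) 0 = 0 := by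
  apply index_of_min
  filter_upwards with h _
  rw [energy_eq, energy_eq, norm_zero, zero_pow two_ne_zero]
  positivity

/-- The circle is taut in itself. -/
lemma isPerfect_circle (F : Type) [Field F] {p : V6} (hp : p ∈ diagCircle) :
    IsPerfect F diagCircle diagCircle p := by
  intro k
  have hcon := contractible_circle hp
  rcases eq_or_ne k 0 with rfl | hk
  · have h1 : {g | IsCriticalPoint (pathSpace diagCircle diagCircle p) g ∧
        index (pathSpace diagCircle diagCircle p) g = (0 : ℕ)} = {0} := by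
      ext g
      simp only [mem_ofPred_eq, mem_singleton_iff]
      constructor
      · rintro ⟨h, -⟩
        exact (isCriticalPoint_circle hp g).mp h
      · rintro rfl
        exact ⟨(isCriticalPoint_circle hp 0).mpr rfl, index_circle⟩
    rw [h1, encard_singleton, betti_zero]
  · have h1 : {g | IsCriticalPoint (pathSpace diagCircle diagCircle p) g ∧
        index (pathSpace diagCircle diagCircle p) g = k} = ∅ := by
      ext g
      simp only [mem_ofPred_eq, mem_empty_iff_false, iff_false]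
      rintro ⟨h, h'⟩
      rw [(isCriticalPoint_circle hp g).mp h, index_circle] at h'
      exact hk (by exact_mod_cast h'.symm)
    rw [h1, encard_empty, betti_pos F _ k hk]

lemma isTaut_circle : IsTaut diagCircle diagCircle :=
  ⟨ℚ, inferInstance, fun _ hp _ => isPerfect_circle ℚ hp⟩

end Pool.Agent.Helper10.Taut
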