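import Pool.Agent.Helper10.Taut.NotTaut

open MeasureTheory Set Filter Topology
open scoped ENNReal NNReal RealInnerProductSpace ContDiff

set_option linter.unusedSectionVars false

noncomputable section

namespace Pool.Agent.Helper10.Taut

lemma continuous_fst6 : Continuous fun x : V6 => x.fst := (WithLp.fstL 2 ℝ V3 V3).continuous
lemma continuous_snd6 : Continuous fun x : V6 => x.snd := (WithLp.sndL 2 ℝ V3 V3).continuous

lemma isCompact_sphereProd : IsCompact sphereProd := by
  have h : sphereProd = pairL '' (Metric.sphere 0 1 ×ˢ Metric.sphere 0 1) := by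
    ext x
    constructor
    · rintro ⟨h1, h2⟩
      exact ⟨(x.fst, x.snd), ⟨by simpa using h1, by simpa using h2⟩, pairL_eq x⟩
    · rintro ⟨⟨a, b⟩, ⟨h1, h2⟩, rfl⟩
      exact ⟨by simpa using h1, by simpa using h2⟩
  rw [h]
  exact ((isCompact_sphere _ _).prod (isCompact_sphere _ _)).image pairL.continuous

lemma isConnected_sphereProd : IsConnected sphereProd := by
  have h : sphereProd = pairL '' (Metric.sphere 0 1 ×ˢ Metric.sphere 0 1) := by
    ext x
    constructor
    · rintro ⟨h1, h2⟩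
      exact ⟨(x.fst, x.snd), ⟨by simpa using h1, by simpa using h2⟩, pairL_eq x⟩
    · rintro ⟨⟨a, b⟩, ⟨h1, h2⟩, rfl⟩
      exact ⟨by simpa using h1, by simpa using h2⟩
  have hs : IsConnected (Metric.sphere (0 : V3) 1) := isConnected_sphere
    (by exact_mod_cast Module.lt_rank_of_lt_finrank (show 1 < Module.finrank ℝ V3 by simp)) _ zero_le_one
  rw [h]
  exact (hs.prod hs).image _ pairL.continuous.continuousOn

lemma flatTorus_eq : flatTorus = range fun z : ℝ × ℝ => pairL (pt z.1, pt z.2) := by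
  ext x
  constructor
  · rintro ⟨h1, h2⟩
    obtain ⟨θ, hθ⟩ := exists_pt h1
    obtain ⟨φ, hφ⟩ := exists_pt h2
    exact ⟨(θ, φ), by dsimp only; rw [← hθ, ← hφ]; exact pairL_eq x⟩
  · rintro ⟨⟨θ, φ⟩, rfl⟩
    exact ⟨pt_mem _, pt_mem _⟩

lemma diagCircle_eq : diagCircle = range fun θ : ℝ => pairL (pt θ, pt θ) := by
  ext x
  constructor
  · rintro ⟨h0, h1⟩
    obtain ⟨θ, hθ⟩ := exists_pt (m := x.fst) h1
    refine ⟨θ, ?_⟩
    dsimp only
    rw [← hθ]
    conv_lhs => rw [show (x.fst, x.fst) = (x.fst, x.snd) by rw [h0]]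
    exact pairL_eq x
  · rintro ⟨θ, rfl⟩
    exact ⟨rfl, pt_mem _⟩

lemma isConnected_flatTorus : IsConnected flatTorus := by
  rw [flatTorus_eq]
  apply isConnected_range
  exact pairL.continuous.comp ((continuous_pt.comp continuous_fst).prodMk
    (continuous_pt.comp continuous_snd))

lemma isConnected_diagCircle : IsConnected diagCircle := by
  rw [diagCircle_eq]
  apply isConnected_range
  exact pairL.continuous.comp (continuous_pt.prodMk continuous_pt)

lemma isCompact_of_closed {N : Set V6} (h : IsClosed N) (hN : N ⊆ sphereProd) : IsCompact N :=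
  isCompact_sphereProd.of_isClosed_subset h hN

lemma flatTorus_subset : flatTorus ⊆ sphereProd := fun _ hx => ⟨hx.1.1, hx.2.1⟩

lemma diagCircle_subset : diagCircle ⊆ flatTorus := fun x hx =>
  ⟨hx.2, by rw [← hx.1]; exact hx.2⟩

lemma continuous_coord (i : Fin 3) : Continuous fun x : V3 => x i :=
  (EuclideanSpace.proj i : V3 →L[ℝ] ℝ).continuous

lemma isCompact_flatTorus : IsCompact flatTorus := by
  refine isCompact_of_closed ?_ flatTorus_subset
  have h1 : IsClosed {x : V6 | ‖x.fst‖ = 1} := isClosed_eq continuous_fst6.norm continuous_const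
  have h2 : IsClosed {x : V6 | x.fst 2 = 0} :=
    isClosed_eq ((continuous_coord 2).comp continuous_fst6) continuous_const
  have h3 : IsClosed {x : V6 | ‖x.snd‖ = 1} := isClosed_eq continuous_snd6.norm continuous_const
  have h4 : IsClosed {x : V6 | x.snd 2 = 0} :=
    isClosed_eq ((continuous_coord 2).comp continuous_snd6) continuous_const
  exact (h1.inter h2).inter (h3.inter h4)

lemma isCompact_diagCircle : IsCompact diagCircle := by
  refine isCompact_of_closed ?_ (diagCircle_subset.trans flatTorus_subset)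
  have h0 : IsClosed {x : V6 | x.fst = x.snd} := isClosed_eq continuous_fst6 continuous_snd6
  have h1 : IsClosed {x : V6 | ‖x.fst‖ = 1} := isClosed_eq continuous_fst6.norm continuous_const
  have h2 : IsClosed {x : V6 | x.fst 2 = 0} :=
    isClosed_eq ((continuous_coord 2).comp continuous_fst6) continuous_const
  exact h0.inter (h1.inter h2)

/-! ### Symmetry -/

/-- The product of two linear isometries. -/
def prodIso (e f : V3 ≃ₗᵢ[ℝ] V3) : V6 ≃ₗᵢ[ℝ] V6 where
  toLinearEquiv :=
    { toFun := fun x => pairL (e x.fst, f x.snd)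
      invFun := fun x => pairL (e.symm x.fst, f.symm x.snd)
      map_add' := by
        intro x y
        rw [← map_add, Prod.mk_add_mk, ← map_add, ← map_add]; rfl
      map_smul' := by
        intro c x
        rw [RingHom.id_apply, ← map_smul, Prod.smul_mk, ← map_smul, ← map_smul]; rfl
      left_inv := by
        intro x
        simp only [pairL_fst, pairL_snd, LinearIsometryEquiv.symm_apply_apply]
        exact pairL_eq x
      right_inv := by
        intro x
        simp only [pairL_fst, pairL_snd, LinearIsometryEquiv.apply_symm_apply]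
        exact pairL_eq x }
  norm_map' := by
    intro x
    have h : ‖pairL (e x.fst, f x.snd)‖ ^ 2 = ‖x‖ ^ 2 := by
      rw [WithLp.prod_norm_sq_eq_of_L2, WithLp.prod_norm_sq_eq_of_L2, pairL_fst, pairL_snd]
      dsimp only
      rw [e.norm_map, f.norm_map]
    exact (sq_eq_sq₀ (norm_nonneg _) (norm_nonneg _)).mp h

lemma prodIso_apply (e f : V3 ≃ₗᵢ[ℝ] V3) (x : V6) : prodIso e f x = pairL (e x.fst, f x.snd) := rfl

lemma isSymmetric_sphereProd : IsSymmetric sphereProd := by
  intro x hx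
  have hr : ∀ (y v : V3), ⟪y, v⟫ = 0 → (ℝ ∙ y).reflection v = -v := by
    intro y v hv
    apply Submodule.reflection_mem_subspace_orthogonalComplement_eq_neg
    rw [Submodule.mem_orthogonal_singleton_iff_inner_right]
    exact hv
  have hr' : ∀ y : V3, (ℝ ∙ y).reflection y = y := fun y =>
    Submodule.reflection_mem_subspace_eq_self (Submodule.mem_span_singleton_self y)
  refine ⟨prodIso (ℝ ∙ x.fst).reflection (ℝ ∙ x.snd).reflection, ?_, ?_, ?_⟩
  · have hsub : ∀ y ∈ sphereProd, prodIso (ℝ ∙ x.fst).reflection (ℝ ∙ x.snd).reflection y ∈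
        sphereProd := by
      intro y hy
      rw [prodIso_apply]
      refine ⟨?_, ?_⟩
      · rw [pairL_fst]; dsimp only; rw [LinearIsometryEquiv.norm_map]; exact hy.1
      · rw [pairL_snd]; dsimp only; rw [LinearIsometryEquiv.norm_map]; exact hy.2
    apply subset_antisymm
    · rintro _ ⟨y, hy, rfl⟩
      exact hsub y hy
    · intro y hy
      refine ⟨_, hsub y hy, ?_⟩
      rw [prodIso_apply, prodIso_apply, pairL_fst, pairL_snd]
      dsimp only
      rw [Submodule.reflection_reflection, Submodule.reflection_reflection]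
      exact pairL_eq y
  · rw [prodIso_apply, hr', hr']
    exact pairL_eq x
  · intro v hv
    obtain ⟨h1, h2⟩ := (tangent_sphereProd hx v).mp hv
    rw [prodIso_apply, hr _ _ h1, hr _ _ h2]
    have : (-v.fst, -v.snd) = -(v.fst, v.snd) := rfl
    rw [this, map_neg, pairL_eq]

/-! ### Totally geodesic submanifolds -/

lemma geod_aux {c : ℝ → V6} (hc : ContDiff ℝ ∞ c) (hT : ∀ t, c t ∈ flatTorus)
    (h1 : ∀ t, ⟪(deriv (deriv c) t).fst, rotJ (c t).fst⟫ = 0)
    (h2 : ∀ t, ⟪(deriv (deriv c) t).snd, rotJ (c t).snd⟫ = 0) : IsGeodesic sphereProd c := by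
  refine ⟨hc, fun t => flatTorus_subset (hT t), fun t v hv => ?_⟩
  obtain ⟨hv1, hv2⟩ := (tangent_sphereProd (flatTorus_subset (hT t)) v).mp hv
  have hc' : ContDiff ℝ ∞ (deriv c) := ((contDiff_infty_iff_deriv).mp hc).2
  have hd : ∀ t, HasDerivAt c (deriv c t) t := fun t =>
    ((hc.differentiable (by simp)) t).hasDerivAt
  have hd' : ∀ t, HasDerivAt (deriv c) (deriv (deriv c) t) t := fun t =>
    ((hc'.differentiable (by simp)) t).hasDerivAt
  have z1 : ∀ t, (deriv c t).fst 2 = 0 := by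
    intro t
    have h3 := hasDerivAt_coord (hasDerivAt_fst (hd t)) 2
    have h4 : (fun s => (c s).fst 2) = fun _ => (0 : ℝ) := funext fun s => (hT s).1.2
    rw [h4] at h3
    exact h3.unique (hasDerivAt_const t 0)
  have z2 : (deriv (deriv c) t).fst 2 = 0 := by
    have h3 := hasDerivAt_coord (hasDerivAt_fst (hd' t)) 2
    have h4 : (fun s => (deriv c s).fst 2) = fun _ => (0 : ℝ) := funext z1
    rw [h4] at h3
    exact h3.unique (hasDerivAt_const t 0)
  have y1 : ∀ t, (deriv c t).snd 2 = 0 := by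
    intro t
    have h3 := hasDerivAt_coord (hasDerivAt_snd (hd t)) 2
    have h4 : (fun s => (c s).snd 2) = fun _ => (0 : ℝ) := funext fun s => (hT s).2.2
    rw [h4] at h3
    exact h3.unique (hasDerivAt_const t 0)
  have y2 : (deriv (deriv c) t).snd 2 = 0 := by
    have h3 := hasDerivAt_coord (hasDerivAt_snd (hd' t)) 2
    have h4 : (fun s => (deriv c s).snd 2) = fun _ => (0 : ℝ) := funext y1
    rw [h4] at h3
    exact h3.unique (hasDerivAt_const t 0)
  have e1 := decomp (x := (c t).fst) (hT t).1 (deriv (deriv c) t).fst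
  have e2 := decomp (x := (c t).snd) (hT t).2 (deriv (deriv c) t).snd
  rw [h1 t, z2, zero_smul, zero_smul, add_zero, add_zero] at e1
  rw [h2 t, y2, zero_smul, zero_smul, add_zero, add_zero] at e2
  rw [inner6, e1, e2, inner_smul_left, inner_smul_left, hv1, hv2]
  simp

lemma hasDerivAt_rotate' (x : V3) :
    HasDerivAt (fun s : ℝ => Real.cos s • x + Real.sin s • rotJ x) (rotJ x) 0 := hasDerivAt_rotate x

lemma isTotallyGeodesic_flatTorus : IsTotallyGeodesic flatTorus sphereProd := by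
  refine ⟨flatTorus_subset, fun c hc => ?_⟩
  obtain ⟨h1, h2, h3⟩ := hc
  refine geod_aux h1 h2 (fun t => ?_) (fun t => ?_)
  · have h4 := h3 t (pairL (rotJ (c t).fst, 0)) ⟨fun s => pairL (Real.cos s • (c t).fst +
      Real.sin s • rotJ (c t).fst, (c t).snd), fun s => ⟨rotate_mem_equator (h2 t).1 s, (h2 t).2⟩, by
        simp only [Real.cos_zero, Real.sin_zero, one_smul, zero_smul, add_zero]; exact pairL_eq _,
        hasDerivAt_pair (hasDerivAt_rotate _) (hasDerivAt_const _ _)⟩
    rw [inner6, pairL_fst, pairL_snd] at h4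
    simpa only [inner_zero_right, add_zero] using h4
  · have h4 := h3 t (pairL (0, rotJ (c t).snd)) ⟨fun s => pairL ((c t).fst, Real.cos s • (c t).snd +
      Real.sin s • rotJ (c t).snd), fun s => ⟨(h2 t).1, rotate_mem_equator (h2 t).2 s⟩, by
        simp only [Real.cos_zero, Real.sin_zero, one_smul, zero_smul, add_zero]; exact pairL_eq _,
        hasDerivAt_pair (hasDerivAt_const _ _) (hasDerivAt_rotate _)⟩
    rw [inner6, pairL_fst, pairL_snd] at h4
    simpa only [inner_zero_right, zero_add] using h4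

lemma isTotallyGeodesic_diagCircle : IsTotallyGeodesic diagCircle sphereProd := by
  refine ⟨diagCircle_subset.trans flatTorus_subset, fun c hc => ?_⟩
  obtain ⟨h1, h2, h3⟩ := hc
  have hc' : ContDiff ℝ ∞ (deriv c) := ((contDiff_infty_iff_deriv).mp h1).2
  have hd : ∀ t, HasDerivAt c (deriv c t) t := fun t =>
    ((h1.differentiable (by simp)) t).hasDerivAt
  have hd' : ∀ t, HasDerivAt (deriv c) (deriv (deriv c) t) t := fun t =>
    ((hc'.differentiable (by simp)) t).hasDerivAt
  have e1 : ∀ t, (deriv c t).fst = (deriv c t).snd := by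
    intro t
    have h4 := hasDerivAt_fst (hd t)
    have h5 : (fun s => (c s).fst) = fun s => (c s).snd := funext fun s => (h2 s).1
    rw [h5] at h4
    exact h4.unique (hasDerivAt_snd (hd t))
  have e2 : ∀ t, (deriv (deriv c) t).fst = (deriv (deriv c) t).snd := by
    intro t
    have h4 := hasDerivAt_fst (hd' t)
    have h5 : (fun s => (deriv c s).fst) = fun s => (deriv c s).snd := funext e1
    rw [h5] at h4
    exact h4.unique (hasDerivAt_snd (hd' t))
  have key : ∀ t, ⟪(deriv (deriv c) t).fst, rotJ (c t).fst⟫ = 0 := by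
    intro t
    have h4 := h3 t _ (rot_mem_tangent (h2 t))
    rw [inner6, pairL_fst, pairL_snd, ← e2] at h4
    dsimp only at h4
    linarith
  refine geod_aux h1 (fun t => diagCircle_subset (h2 t)) key (fun t => ?_)
  rw [← e2, ← (h2 t).1]
  exact key t

/-! ### Submanifolds -/

lemma isSubmanifold_of {N U : Set V6} {m d : ℕ} (hmd : m + d = 6) (hU : IsOpen U) (hNU : N ⊆ U)
    (f : V6 → EuclideanSpace ℝ (Fin m)) (hf : ContDiff ℝ ∞ f) (h0 : ∀ y ∈ U, y ∈ N ↔ f y = 0)
    (hs : ∀ y ∈ U, ∀ v : EuclideanSpace ℝ (Fin m), ∃ w : V6,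
      ∀ i, HasDerivAt (fun t : ℝ => f (y + t • w) i) (v i) 0) : IsSubmanifold N d := by
  have hfr : Module.finrank ℝ V6 = 6 := by
    have e := (WithLp.prodContinuousLinearEquiv 2 ℝ V3 V3).toLinearEquiv.finrank_eq
    rw [e]; simp
  intro x hx
  refine ⟨m, U, f, by rw [hfr, hmd], hU, hNU hx, hf.contDiffOn, h0, fun y hy v => ?_⟩
  obtain ⟨w, hw⟩ := hs y hy v
  refine ⟨w, ?_⟩
  have h1 : HasFDerivAt f (fderiv ℝ f y) y := ((hf.differentiable (by simp)) y).hasFDerivAt
  have h2 : HasDerivAt (fun t : ℝ => y + t • w) w 0 := by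
    have h := ((hasDerivAt_id (0 : ℝ)).smul_const w).const_add y
    rw [one_smul] at h
    exact h
  have h3 : HasDerivAt (fun t : ℝ => f (y + t • w)) (fderiv ℝ f y w) 0 := by
    have h4 : HasFDerivAt f (fderiv ℝ f y) (y + (0 : ℝ) • w) := by simpa using h1
    exact h4.comp_hasDerivAt 0 h2
  ext i
  have h5 : HasDerivAt (fun t : ℝ => f (y + t • w) i) (fderiv ℝ f y w i) 0 :=
    (EuclideanSpace.proj i : EuclideanSpace ℝ (Fin m) →L[ℝ] ℝ).hasFDerivAt.comp_hasDerivAt 0 h3
  exact h5.unique (hw i)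

lemma hasDerivAt_aff (a α : ℝ) : HasDerivAt (fun t : ℝ => a + t * α) α 0 := by
  have h := ((hasDerivAt_id (0 : ℝ)).mul_const α).const_add a
  rw [one_mul] at h
  exact h

lemma hasDerivAt_sq2 (a α b β : ℝ) :
    HasDerivAt (fun t : ℝ => (a + t * α) ^ 2 + (b + t * β) ^ 2 - 1) (2 * a * α + 2 * b * β) 0 := by
  have h := (((hasDerivAt_aff a α).pow 2).add ((hasDerivAt_aff b β).pow 2)).sub_const 1
  have e : ((2 : ℕ) : ℝ) * (a + 0 * α) ^ (2 - 1) * α + ((2 : ℕ) : ℝ) * (b + 0 * β) ^ (2 - 1) * β =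
    2 * a * α + 2 * b * β := by norm_num
  rw [e] at h
  exact h

lemma hasDerivAt_sq3 (a α b β c γ : ℝ) :
    HasDerivAt (fun t : ℝ => (a + t * α) ^ 2 + (b + t * β) ^ 2 + (c + t * γ) ^ 2 - 1)
      (2 * a * α + 2 * b * β + 2 * c * γ) 0 := by
  have h := ((((hasDerivAt_aff a α).pow 2).add ((hasDerivAt_aff b β).pow 2)).add
    ((hasDerivAt_aff c γ).pow 2)).sub_const 1
  have e : ((2 : ℕ) : ℝ) * (a + 0 * α) ^ (2 - 1) * α + ((2 : ℕ) : ℝ) * (b + 0 * β) ^ (2 - 1) * β +
    ((2 : ℕ) : ℝ) * (c + 0 * γ) ^ (2 - 1) * γ = 2 * a * α + 2 * b * β + 2 * c * γ := by norm_num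
  rw [e] at h
  exact h

lemma contDiff_c1 (i : Fin 3) : ContDiff ℝ ∞ fun x : V6 => x.fst i :=
  ((EuclideanSpace.proj i : V3 →L[ℝ] ℝ).comp (WithLp.fstL 2 ℝ V3 V3)).contDiff

lemma contDiff_c2 (i : Fin 3) : ContDiff ℝ ∞ fun x : V6 => x.snd i :=
  ((EuclideanSpace.proj i : V3 →L[ℝ] ℝ).comp (WithLp.sndL 2 ℝ V3 V3)).contDiff

lemma sphere_iff (x : V3) : ‖x‖ = 1 ↔ x 0 ^ 2 + x 1 ^ 2 + x 2 ^ 2 - 1 = 0 := by
  rw [← normsq3]
  constructor
  · intro h; rw [h]; norm_num
  · intro h
    have h3 : ‖x‖ ^ 2 = 1 ^ 2 := by linarith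
    exact (sq_eq_sq₀ (norm_nonneg _) zero_le_one).mp h3

lemma isSubmanifold_sphereProd : IsSubmanifold sphereProd 4 := by
  refine isSubmanifold_of (m := 2) (U := {x | x.fst 0 ^ 2 + x.fst 1 ^ 2 + x.fst 2 ^ 2 ≠ 0 ∧
    x.snd 0 ^ 2 + x.snd 1 ^ 2 + x.snd 2 ^ 2 ≠ 0}) (by norm_num) ?_ ?_
    (fun x => !₂[x.fst 0 ^ 2 + x.fst 1 ^ 2 + x.fst 2 ^ 2 - 1,
      x.snd 0 ^ 2 + x.snd 1 ^ 2 + x.snd 2 ^ 2 - 1]) ?_ ?_ ?_
  · refine IsOpen.inter (isOpen_ne_fun ?_ continuous_const) (isOpen_ne_fun ?_ continuous_const)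
    · exact ((((contDiff_c1 0).continuous.pow 2).add ((contDiff_c1 1).continuous.pow 2)).add
        ((contDiff_c1 2).continuous.pow 2))
    · exact ((((contDiff_c2 0).continuous.pow 2).add ((contDiff_c2 1).continuous.pow 2)).add
        ((contDiff_c2 2).continuous.pow 2))
  · rintro x ⟨h1, h2⟩
    rw [sphere_iff] at h1 h2
    constructor
    · intro h; rw [h] at h1; norm_num at h1
    · intro h; rw [h] at h2; norm_num at h2
  · rw [contDiff_euclidean]
    intro i
    fin_cases i
    · exact ((((contDiff_c1 0).pow 2).add ((contDiff_c1 1).pow 2)).add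
        ((contDiff_c1 2).pow 2)).sub contDiff_const
    · exact ((((contDiff_c2 0).pow 2).add ((contDiff_c2 1).pow 2)).add
        ((contDiff_c2 2).pow 2)).sub contDiff_const
  · intro y _
    have e : y ∈ sphereProd ↔ ‖y.fst‖ = 1 ∧ ‖y.snd‖ = 1 := Iff.rfl
    rw [e, sphere_iff, sphere_iff]
    constructor
    · rintro ⟨h1, h2⟩
      rw [h1, h2]
      ext i; fin_cases i <;> simp
    · intro h
      refine ⟨?_, ?_⟩
      · have := congrArg (fun v : EuclideanSpace ℝ (Fin 2) => v 0) h
        simpa using this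
      · have := congrArg (fun v : EuclideanSpace ℝ (Fin 2) => v 1) h
        simpa using this
  · rintro y ⟨h1, h2⟩ v
    set A := y.fst 0 ^ 2 + y.fst 1 ^ 2 + y.fst 2 ^ 2 with hA
    set B := y.snd 0 ^ 2 + y.snd 1 ^ 2 + y.snd 2 ^ 2 with hB
    refine ⟨pairL ((v 0 / (2 * A)) • y.fst, (v 1 / (2 * B)) • y.snd), fun i => ?_⟩
    fin_cases i
    · have h := hasDerivAt_sq3 (y.fst 0) ((v 0 / (2 * A)) * y.fst 0) (y.fst 1)
        ((v 0 / (2 * A)) * y.fst 1) (y.fst 2) ((v 0 / (2 * A)) * y.fst 2)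
      have e : 2 * y.fst 0 * ((v 0 / (2 * A)) * y.fst 0) +
        2 * y.fst 1 * ((v 0 / (2 * A)) * y.fst 1) + 2 * y.fst 2 * ((v 0 / (2 * A)) * y.fst 2) =
        v 0 := by
        have : v 0 / (2 * A) * (2 * A) = v 0 := div_mul_cancel₀ _ (by simpa using h1)
        rw [hA] at this ⊢
        linear_combination this
      rw [e] at h
      exact h
    · have h := hasDerivAt_sq3 (y.snd 0) ((v 1 / (2 * B)) * y.snd 0) (y.snd 1)
        ((v 1 / (2 * B)) * y.snd 1) (y.snd 2) ((v 1 / (2 * B)) * y.snd 2)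
      have e : 2 * y.snd 0 * ((v 1 / (2 * B)) * y.snd 0) +
        2 * y.snd 1 * ((v 1 / (2 * B)) * y.snd 1) + 2 * y.snd 2 * ((v 1 / (2 * B)) * y.snd 2) =
        v 1 := by
        have : v 1 / (2 * B) * (2 * B) = v 1 := div_mul_cancel₀ _ (by simpa using h2)
        rw [hB] at this ⊢
        linear_combination this
      rw [e] at h
      exact h

lemma equator_iff' (x : V3) : x ∈ equator ↔ x 0 ^ 2 + x 1 ^ 2 - 1 = 0 ∧ x 2 = 0 := by
  rw [equator_iff, sub_eq_zero]

lemma isSubmanifold_flatTorus : IsSubmanifold flatTorus 2 := by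
  refine isSubmanifold_of (m := 4) (U := {x | x.fst 0 ^ 2 + x.fst 1 ^ 2 ≠ 0 ∧
    x.snd 0 ^ 2 + x.snd 1 ^ 2 ≠ 0}) (by norm_num) ?_ ?_
    (fun x => !₂[x.fst 0 ^ 2 + x.fst 1 ^ 2 - 1, x.fst 2, x.snd 0 ^ 2 + x.snd 1 ^ 2 - 1,
      x.snd 2]) ?_ ?_ ?_
  · refine IsOpen.inter (isOpen_ne_fun ?_ continuous_const) (isOpen_ne_fun ?_ continuous_const)
    · exact ((contDiff_c1 0).continuous.pow 2).add ((contDiff_c1 1).continuous.pow 2)
    · exact ((contDiff_c2 0).continuous.pow 2).add ((contDiff_c2 1).continuous.pow 2)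
  · rintro x ⟨h1, h2⟩
    have h1' := ((equator_iff x.fst).mp h1).1
    have h2' := ((equator_iff x.snd).mp h2).1
    constructor
    · intro h; rw [h] at h1'; norm_num at h1'
    · intro h; rw [h] at h2'; norm_num at h2'
  · rw [contDiff_euclidean]
    intro i
    fin_cases i
    · exact (((contDiff_c1 0).pow 2).add ((contDiff_c1 1).pow 2)).sub contDiff_const
    · exact contDiff_c1 2
    · exact (((contDiff_c2 0).pow 2).add ((contDiff_c2 1).pow 2)).sub contDiff_const
    · exact contDiff_c2 2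
  · intro y _
    have e : y ∈ flatTorus ↔ y.fst ∈ equator ∧ y.snd ∈ equator := Iff.rfl
    rw [e, equator_iff', equator_iff']
    constructor
    · rintro ⟨⟨h1, h1'⟩, h2, h2'⟩
      rw [h1, h2, h1', h2']
      ext i; fin_cases i <;> simp
    · intro h
      refine ⟨⟨?_, ?_⟩, ?_, ?_⟩
      · have := congrArg (fun v : EuclideanSpace ℝ (Fin 4) => v 0) h
        simpa using this
      · have := congrArg (fun v : EuclideanSpace ℝ (Fin 4) => v 1) h
        simpa using this
      · have := congrArg (fun v : EuclideanSpace ℝ (Fin 4) => v 2) h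
        simpa using this
      · have := congrArg (fun v : EuclideanSpace ℝ (Fin 4) => v 3) h
        simpa using this
  · rintro y ⟨h1, h2⟩ v
    set A := y.fst 0 ^ 2 + y.fst 1 ^ 2 with hA
    set B := y.snd 0 ^ 2 + y.snd 1 ^ 2 with hB
    refine ⟨pairL (!₂[(v 0 / (2 * A)) * y.fst 0, (v 0 / (2 * A)) * y.fst 1, v 1],
      !₂[(v 2 / (2 * B)) * y.snd 0, (v 2 / (2 * B)) * y.snd 1, v 3]), fun i => ?_⟩
    fin_cases i
    · have h := hasDerivAt_sq2 (y.fst 0) ((v 0 / (2 * A)) * y.fst 0) (y.fst 1)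
        ((v 0 / (2 * A)) * y.fst 1)
      have e : 2 * y.fst 0 * ((v 0 / (2 * A)) * y.fst 0) +
        2 * y.fst 1 * ((v 0 / (2 * A)) * y.fst 1) = v 0 := by
        have : v 0 / (2 * A) * (2 * A) = v 0 := div_mul_cancel₀ _ (by simpa using h1)
        rw [hA] at this ⊢
        linear_combination this
      rw [e] at h
      exact h
    · exact hasDerivAt_aff (y.fst 2) (v 1)
    · have h := hasDerivAt_sq2 (y.snd 0) ((v 2 / (2 * B)) * y.snd 0) (y.snd 1)
        ((v 2 / (2 * B)) * y.snd 1)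
      have e : 2 * y.snd 0 * ((v 2 / (2 * B)) * y.snd 0) +
        2 * y.snd 1 * ((v 2 / (2 * B)) * y.snd 1) = v 2 := by
        have : v 2 / (2 * B) * (2 * B) = v 2 := div_mul_cancel₀ _ (by simpa using h2)
        rw [hB] at this ⊢
        linear_combination this
      rw [e] at h
      exact h
    · exact hasDerivAt_aff (y.snd 2) (v 3)

lemma isSubmanifold_diagCircle : IsSubmanifold diagCircle 1 := by
  refine isSubmanifold_of (m := 5) (U := {x | x.fst 0 ^ 2 + x.fst 1 ^ 2 ≠ 0}) (by norm_num) ?_ ?_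
    (fun x => !₂[x.fst 0 - x.snd 0, x.fst 1 - x.snd 1, x.fst 2 - x.snd 2,
      x.fst 0 ^ 2 + x.fst 1 ^ 2 - 1, x.fst 2]) ?_ ?_ ?_
  · refine isOpen_ne_fun ?_ continuous_const
    exact ((contDiff_c1 0).continuous.pow 2).add ((contDiff_c1 1).continuous.pow 2)
  · rintro x ⟨-, h1⟩
    have h1' := ((equator_iff x.fst).mp h1).1
    intro h; rw [h] at h1'; norm_num at h1'
  · rw [contDiff_euclidean]
    intro i
    fin_cases i
    · exact (contDiff_c1 0).sub (contDiff_c2 0)
    · exact (contDiff_c1 1).sub (contDiff_c2 1)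
    · exact (contDiff_c1 2).sub (contDiff_c2 2)
    · exact (((contDiff_c1 0).pow 2).add ((contDiff_c1 1).pow 2)).sub contDiff_const
    · exact contDiff_c1 2
  · intro y _
    have e : y ∈ diagCircle ↔ y.fst = y.snd ∧ y.fst ∈ equator := Iff.rfl
    rw [e, equator_iff']
    constructor
    · rintro ⟨h0, h1, h1'⟩
      rw [h0] at h1 h1' ⊢
      rw [h1, h1']
      ext i; fin_cases i <;> simp
    · intro h
      refine ⟨?_, ?_, ?_⟩
      · ext i; fin_cases i
        · have := congrArg (fun v : EuclideanSpace ℝ (Fin 5) => v 0) h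
          simpa [sub_eq_zero] using this
        · have := congrArg (fun v : EuclideanSpace ℝ (Fin 5) => v 1) h
          simpa [sub_eq_zero] using this
        · have := congrArg (fun v : EuclideanSpace ℝ (Fin 5) => v 2) h
          simpa [sub_eq_zero] using this
      · have := congrArg (fun v : EuclideanSpace ℝ (Fin 5) => v 3) h
        simpa using this
      · have := congrArg (fun v : EuclideanSpace ℝ (Fin 5) => v 4) h
        simpa using this
  · rintro y h1 v
    set A := y.fst 0 ^ 2 + y.fst 1 ^ 2 with hA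
    refine ⟨pairL (!₂[(v 3 / (2 * A)) * y.fst 0, (v 3 / (2 * A)) * y.fst 1, v 4],
      !₂[(v 3 / (2 * A)) * y.fst 0 - v 0, (v 3 / (2 * A)) * y.fst 1 - v 1, v 4 - v 2]),
      fun i => ?_⟩
    have hsub : ∀ a α b β : ℝ, HasDerivAt (fun t : ℝ => (a + t * α) - (b + t * β)) (α - β) 0 :=
      fun a α b β => (hasDerivAt_aff a α).sub (hasDerivAt_aff b β)
    fin_cases i
    · have h := hsub (y.fst 0) ((v 3 / (2 * A)) * y.fst 0) (y.snd 0)
        ((v 3 / (2 * A)) * y.fst 0 - v 0)
      rw [show (v 3 / (2 * A)) * y.fst 0 - ((v 3 / (2 * A)) * y.fst 0 - v 0) = v 0 by ring] at h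
      exact h
    · have h := hsub (y.fst 1) ((v 3 / (2 * A)) * y.fst 1) (y.snd 1)
        ((v 3 / (2 * A)) * y.fst 1 - v 1)
      rw [show (v 3 / (2 * A)) * y.fst 1 - ((v 3 / (2 * A)) * y.fst 1 - v 1) = v 1 by ring] at h
      exact h
    · have h := hsub (y.fst 2) (v 4) (y.snd 2) (v 4 - v 2)
      rw [show v 4 - (v 4 - v 2) = v 2 by ring] at h
      exact h
    · have h := hasDerivAt_sq2 (y.fst 0) ((v 3 / (2 * A)) * y.fst 0) (y.fst 1)
        ((v 3 / (2 * A)) * y.fst 1)
      have e : 2 * y.fst 0 * ((v 3 / (2 * A)) * y.fst 0) +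
        2 * y.fst 1 * ((v 3 / (2 * A)) * y.fst 1) = v 3 := by
        have : v 3 / (2 * A) * (2 * A) = v 3 := div_mul_cancel₀ _ (by simpa using h1)
        rw [hA] at this ⊢
        linear_combination this
      rw [e] at h
      exact h
    · exact hasDerivAt_aff (y.fst 2) (v 4)

end Pool.Agent.Helper10.Taut
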