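import Pool.Agent.Helper10.Taut.Geom

open MeasureTheory Set Filter Topology
open scoped ENNReal NNReal RealInnerProductSpace ContDiff

set_option linter.unusedSectionVars false

noncomputable section

namespace Pool.Agent.Helper10.Taut

lemma decomp {x : V3} (hx : x ∈ equator) (u : V3) :
    u = ⟪u, x⟫ • x + ⟪u, rotJ x⟫ • rotJ x + (u 2) • npole := by
  rw [equator_iff] at hx
  obtain ⟨h1, h2⟩ := hx
  ext i
  rw [inner3, inner3]
  fin_cases i
  · simp [npole, h2]
    linear_combination (-u 0) * h1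
  · simp [npole, h2]
    linear_combination (-u 1) * h1
  · simp [npole, h2]

lemma frame {x : V3} (hx : x ∈ equator) : ⟪x, x⟫ = 1 ∧ ⟪rotJ x, rotJ x⟫ = 1 ∧ ⟪npole, npole⟫ = 1 ∧
    ⟪x, rotJ x⟫ = 0 ∧ ⟪rotJ x, x⟫ = 0 ∧ ⟪x, npole⟫ = 0 ∧ ⟪npole, x⟫ = 0 ∧ ⟪rotJ x, npole⟫ = 0 ∧
    ⟪npole, rotJ x⟫ = 0 ∧ rotJ (rotJ x) = -x := by
  rw [equator_iff] at hx
  obtain ⟨h1, h2⟩ := hx
  refine ⟨?_, ?_, ?_, ?_, ?_, ?_, ?_, ?_, ?_, ?_⟩
  · rw [inner3, h2]; linarith
  · rw [inner3]; simp; linarith
  · rw [inner3]; simp [npole]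
  · rw [inner3]; simp; ring
  · rw [inner3]; simp; ring
  · rw [inner3]; simp [npole, h2]
  · rw [inner3]; simp [npole, h2]
  · rw [inner3]; simp [npole]
  · rw [inner3]; simp [npole]
  · ext i; fin_cases i <;> simp [h2]

lemma hasDerivAt_coord {x : ℝ → V3} {a : V3} {s : ℝ} (h : HasDerivAt x a s) (i : Fin 3) :
    HasDerivAt (fun s => x s i) (a i) s :=
  (EuclideanSpace.proj i : V3 →L[ℝ] ℝ).hasFDerivAt.comp_hasDerivAt s h

/-- Derivative of `f • u` at a zero of `u`, for continuous `f`. -/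
lemma hasDerivAt_smul_zero {f : ℝ → ℝ} {u : ℝ → V3} {b : V3} (hf : ContinuousAt f 0)
    (hu : HasDerivAt u b 0) (h0 : u 0 = 0) : HasDerivAt (fun s => f s • u s) (f 0 • b) 0 := by
  rw [hasDerivAt_iff_tendsto_slope] at hu ⊢
  have h1 : Tendsto f (𝓝[≠] 0) (𝓝 (f 0)) := hf.mono_left nhdsWithin_le_nhds
  have h2 := h1.smul hu
  refine h2.congr fun s => ?_
  simp only [slope_def_module, h0, sub_zero, smul_zero]
  rw [smul_comm]

/-- Derivative of `cos ‖u‖` at a zero of `u`. -/
lemma hasDerivAt_cos_norm_zero {u : ℝ → V3} {b : V3} (hu : HasDerivAt u b 0) (h0 : u 0 = 0) :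
    HasDerivAt (fun s => Real.cos ‖u s‖) 0 0 := by
  have h1 : HasDerivAt (fun s => ‖u s‖ ^ 2) 0 0 := by
    have := hu.norm_sq
    rw [h0, inner_zero_left, mul_zero] at this
    exact this
  rw [hasDerivAt_iff_isLittleO] at h1 ⊢
  simp only [h0, norm_zero, Real.cos_zero, sub_zero, smul_zero] at h1 ⊢
  refine Asymptotics.IsBigO.trans_isLittleO ?_ h1
  apply Asymptotics.IsBigO.of_bound 1
  filter_upwards with s
  rw [one_mul, Real.norm_eq_abs, Real.norm_eq_abs]
  have h2 := Real.one_sub_sq_div_two_le_cos (x := ‖u s‖)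
  have h3 := Real.cos_le_one ‖u s‖
  rw [abs_sub_comm, abs_of_nonneg (by linarith)]
  norm_num
  nlinarith [sq_nonneg ‖u s‖]

/-- Analysis of one spherical factor. -/
lemma single_focal {x u : ℝ → V3} {a b : V3} (hx : ∀ s, x s ∈ equator)
    (hxa : HasDerivAt x a 0) (hub : HasDerivAt u b 0) (hxu : ∀ s, ⟪u s, x s⟫ = 0)
    (he : HasDerivAt (fun s => Real.cos ‖u s‖ • x s + Real.sinc ‖u s‖ • u s) 0 0)
    {p : V3} (hp : Real.cos ‖u 0‖ • x 0 + Real.sinc ‖u 0‖ • u 0 = p) (hp2 : p 2 = 0)
    {κ y μ κ' y' : ℝ} (hκ : κ = ⟪u 0, rotJ (x 0)⟫) (hy : y = u 0 2)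
    (hμ : a = μ • rotJ (x 0)) (hb : b = (-(κ * μ)) • x 0 + κ' • rotJ (x 0) + y' • npole) :
    (y = 0 ∧ y' = 0 ∧ μ + κ' = 0 ∧ p = Real.cos κ • x 0 + Real.sin κ • rotJ (x 0)) ∨
    ((p = x 0 ∨ p = -x 0) ∧ (y = 0 → Real.sin κ = 0) ∧ κ ^ 2 + y ^ 2 ≠ 0 ∧
      (κ ^ 2 + y ^ 2) * μ + (κ * κ' + y * y') * κ = 0 ∧ (κ * κ' + y * y') * y = 0) := by
  obtain ⟨f1, f2, f3, f4, f5, f6, f7, f8, f9, f10⟩ := frame (hx 0)
  have hu0 : u 0 = κ • rotJ (x 0) + y • npole := by
    have := decomp (hx 0) (u 0)
    rw [hxu 0, ← hκ, ← hy, zero_smul, zero_add] at this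
    exact this
  have hr2 : ‖u 0‖ ^ 2 = κ ^ 2 + y ^ 2 := by
    rw [← real_inner_self_eq_norm_sq, hu0]
    simp only [inner_add_left, inner_add_right, inner_smul_left, inner_smul_right, f2, f3, f8, f9]
    simp; ring
  rcases eq_or_ne (u 0) 0 with h0 | h0
  · left
    have hk0 : κ = 0 := by rw [hκ, h0]; simp
    have hy0 : y = 0 := by rw [hy, h0]; simp
    have h1 : HasDerivAt (fun s => Real.cos ‖u s‖ • x s + Real.sinc ‖u s‖ • u s)
        ((Real.cos ‖u 0‖ • a + (0 : ℝ) • x 0) + Real.sinc ‖u 0‖ • b) 0 := by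
      refine ((hasDerivAt_cos_norm_zero hub h0).smul hxa).add ?_
      exact hasDerivAt_smul_zero (f := fun s => Real.sinc ‖u s‖)
        (Real.continuous_sinc.continuousAt.comp hub.continuousAt.norm) hub h0
    have h2 := h1.unique he
    rw [h0] at h2
    simp only [norm_zero, Real.cos_zero, Real.sinc_zero, one_smul, zero_smul, add_zero] at h2
    rw [hμ, hb, hk0] at h2
    have h3 : (μ + κ') • rotJ (x 0) + y' • npole = 0 := by
      rw [← h2]; module
    have e1 : μ + κ' = 0 := by
      have := congrArg (fun v => ⟪v, rotJ (x 0)⟫) h3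
      simp only [inner_add_left, inner_smul_left, f2, f9, inner_zero_left] at this
      simpa using this
    have e2 : y' = 0 := by
      have := congrArg (fun v => ⟪v, npole⟫) h3
      simp only [inner_add_left, inner_smul_left, f3, f8, inner_zero_left] at this
      simpa using this
    refine ⟨hy0, e2, e1, ?_⟩
    rw [← hp, h0, hk0]
    simp
  · have hr : ‖u 0‖ ≠ 0 := norm_ne_zero_iff.mpr h0
    set r := ‖u 0‖ with hrdef
    set q := κ * κ' + y * y' with hq
    have hub' : ⟪u 0, b⟫ = q := by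
      rw [hu0, hb]
      simp only [inner_add_left, inner_add_right, inner_smul_left, inner_smul_right, f2, f3, f8,
        f9, f5, f7]
      simp; ring
    have hnorm : HasDerivAt (fun s => ‖u s‖) (q / r) 0 := by
      have h1 : HasDerivAt (fun s => Real.sqrt (‖u s‖ ^ 2)) _ 0 :=
        hub.norm_sq.sqrt (by positivity)
      have h2 : (fun s => Real.sqrt (‖u s‖ ^ 2)) = fun s => ‖u s‖ := by
        funext s; exact Real.sqrt_sq (norm_nonneg _)
      rw [h2, Real.sqrt_sq (norm_nonneg _), hub'] at h1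
      convert h1 using 1
      rw [← hrdef]; field_simp
    have hsinc : HasDerivAt Real.sinc ((Real.cos r * r - Real.sin r) / r ^ 2) r := by
      have h1 := (Real.hasDerivAt_sin r).div (hasDerivAt_id r) hr
      have h2 : (fun z => Real.sin z / z) =ᶠ[𝓝 r] Real.sinc := by
        filter_upwards [isOpen_ne.mem_nhds hr] with z hz
        rw [Real.sinc_of_ne_zero hz]
      have h3 := h1.congr_of_eventuallyEq (f₁ := Real.sinc) h2.symm
      simpa using h3
    have hC : HasDerivAt (fun s => Real.cos ‖u s‖) (-Real.sin r * (q / r)) 0 := hnorm.cos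
    have hS : HasDerivAt (fun s => Real.sinc ‖u s‖)
        ((Real.cos r * r - Real.sin r) / r ^ 2 * (q / r)) 0 :=
      HasDerivAt.comp (h₂ := Real.sinc) (h := fun s => ‖u s‖) (0 : ℝ) hsinc hnorm
    have h1 := ((hC.smul hxa).add (hS.smul hub)).unique he
    rw [← hrdef] at h1
    rw [Real.sinc_of_ne_zero hr] at h1 hp
    have E1 := congrArg (fun v => ⟪v, x 0⟫) h1
    have E2 := congrArg (fun v => ⟪v, rotJ (x 0)⟫) h1
    have E3 := congrArg (fun v => ⟪v, npole⟫) h1
    have E4 := congrArg (fun v => ⟪v, npole⟫) hp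
    rw [hμ, hb, hu0] at E1 E2 E3
    rw [hu0] at E4
    simp only [inner_add_left, inner_smul_left, f1, f2, f3, f4, f5, f6, f7, f8, f9,
      inner_zero_left] at E1 E2 E3 E4
    simp only [conj_trivial, mul_zero, mul_one, zero_add, add_zero] at E1 E2 E3 E4
    have hp3 : ⟪p, npole⟫ = 0 := by
      rw [inner3, hp2]; simp [npole]
    rw [hp3] at E4
    have hq' : ∀ A : ℝ, A * (q / r) = A * q / r := fun A => by ring
    have hrκ : y = 0 → κ = r ∨ κ = -r := by
      intro hy0
      rw [hy0] at hr2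
      have h5 : (κ - r) * (κ + r) = 0 := by linear_combination -hr2
      rcases mul_eq_zero.mp h5 with h | h
      · left; linarith
      · right; linarith
    by_cases hs : Real.sin r = 0
    · right
      have hc : Real.cos r ^ 2 = 1 := by
        have := Real.sin_sq_add_cos_sq r
        rw [hs] at this; linarith
      have hc0 : Real.cos r ≠ 0 := by
        intro h; rw [h] at hc; norm_num at hc
      refine ⟨?_, ?_, ?_, ?_, ?_⟩
      · rw [hs] at hp
        simp only [zero_div, zero_smul, add_zero] at hp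
        have hc' : Real.cos r = 1 ∨ Real.cos r = -1 := by
          have h5 : (Real.cos r - 1) * (Real.cos r + 1) = 0 := by linear_combination hc
          rcases mul_eq_zero.mp h5 with h | h
          · left; linarith
          · right; linarith
        rcases hc' with h | h
        · left; rw [← hp, h, one_smul]
        · right; rw [← hp, h, neg_smul, one_smul]
      · intro hy0
        rcases hrκ hy0 with h | h
        · rw [h, hs]
        · rw [h, Real.sin_neg, hs, neg_zero]
      · rw [← hr2]; positivity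
      · rw [← hr2]
        rw [hs] at E2
        have h5 : Real.cos r * (r ^ 2 * μ + q * κ) = 0 := by
          have h6 : r ^ 2 * (Real.cos r * μ + (0 / r * κ' +
            (Real.cos r * r - 0) / r ^ 2 * (q / r) * κ)) = 0 := by rw [E2, mul_zero]
          rw [← h6]; field_simp; ring
        rcases mul_eq_zero.mp h5 with h | h
        · exact absurd h hc0
        · exact h
      · rw [hs] at E3
        have h5 : Real.cos r * (q * y) = 0 := by
          have h6 : r ^ 2 * (0 / r * y' + (Real.cos r * r - 0) / r ^ 2 * (q / r) * y) = 0 := by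
            rw [E3, mul_zero]
          rw [← h6]; field_simp; ring
        rcases mul_eq_zero.mp h5 with h | h
        · exact absurd h hc0
        · exact h
    · left
      have hsr : Real.sin r / r ≠ 0 := div_ne_zero hs hr
      have hy0 : y = 0 := (mul_eq_zero.mp E4).resolve_left hsr
      have hκ0 : κ ≠ 0 := by
        intro h
        rw [h, hy0] at hr2
        apply hr
        nlinarith
      have hy'0 : y' = 0 := by
        rw [hy0, mul_zero, add_zero] at E3
        exact (mul_eq_zero.mp E3).resolve_left hsr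
      have h5 : Real.sin r / r * (κ * (μ + κ')) = 0 := by
        have h6 : -(-Real.sin r * (q / r) + Real.sin r / r * -(κ * μ)) = 0 := by rw [E1, neg_zero]
        rw [← h6, hq, hy0]; field_simp; ring
      have h7 : μ + κ' = 0 :=
        (mul_eq_zero.mp ((mul_eq_zero.mp h5).resolve_left hsr)).resolve_left hκ0
      refine ⟨hy0, hy'0, h7, ?_⟩
      rw [← hp, hu0, hy0, zero_smul, add_zero, smul_smul]
      rcases hrκ hy0 with h | h
      · rw [h, div_mul_cancel₀ _ hr]
      · rw [h, Real.cos_neg, Real.sin_neg]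
        congr 2
        field_simp

lemma geodesic_fst {c : ℝ → V6} (hc : IsGeodesic sphereProd c) :
    (c 1).fst = Real.cos ‖(deriv c 0).fst‖ • (c 0).fst +
      Real.sinc ‖(deriv c 0).fst‖ • (deriv c 0).fst := by
  obtain ⟨h1, h2, h3⟩ := hc
  have hc' : ContDiff ℝ ∞ (deriv c) := ((contDiff_infty_iff_deriv).mp h1).2
  have hd : ∀ t, HasDerivAt (fun t => (c t).fst) (deriv c t).fst t := fun t =>
    hasDerivAt_fst ((h1.differentiable (by simp)) t).hasDerivAt
  have hd' : ∀ t, HasDerivAt (fun t => (deriv c t).fst) (deriv (deriv c) t).fst t := fun t =>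
    hasDerivAt_fst ((hc'.differentiable (by simp)) t).hasDerivAt
  have e1 : deriv (fun t => (c t).fst) = fun t => (deriv c t).fst := funext fun t => (hd t).deriv
  have e2 : deriv (fun t => (deriv c t).fst) = fun t => (deriv (deriv c) t).fst :=
    funext fun t => (hd' t).deriv
  have hs : ContDiff ℝ ∞ (fun t => (c t).fst) := (WithLp.fstL 2 ℝ V3 V3).contDiff.comp h1
  have key := geodesic_formula hs (fun t => (h2 t).1) (by
    intro t v hv
    rw [e1, e2]
    have h4 := h3 t (pairL (v, 0)) ((tangent_sphereProd (h2 t) _).mpr (by simpa using hv))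
    rw [WithLp.prod_inner_apply] at h4
    simpa using h4)
  rw [e1] at key
  exact key

lemma geodesic_snd {c : ℝ → V6} (hc : IsGeodesic sphereProd c) :
    (c 1).snd = Real.cos ‖(deriv c 0).snd‖ • (c 0).snd +
      Real.sinc ‖(deriv c 0).snd‖ • (deriv c 0).snd := by
  obtain ⟨h1, h2, h3⟩ := hc
  have hc' : ContDiff ℝ ∞ (deriv c) := ((contDiff_infty_iff_deriv).mp h1).2
  have hd : ∀ t, HasDerivAt (fun t => (c t).snd) (deriv c t).snd t := fun t =>
    hasDerivAt_snd ((h1.differentiable (by simp)) t).hasDerivAt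
  have hd' : ∀ t, HasDerivAt (fun t => (deriv c t).snd) (deriv (deriv c) t).snd t := fun t =>
    hasDerivAt_snd ((hc'.differentiable (by simp)) t).hasDerivAt
  have e1 : deriv (fun t => (c t).snd) = fun t => (deriv c t).snd := funext fun t => (hd t).deriv
  have e2 : deriv (fun t => (deriv c t).snd) = fun t => (deriv (deriv c) t).snd :=
    funext fun t => (hd' t).deriv
  have hs : ContDiff ℝ ∞ (fun t => (c t).snd) := (WithLp.sndL 2 ℝ V3 V3).contDiff.comp h1
  have key := geodesic_formula hs (fun t => (h2 t).2) (by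
    intro t v hv
    rw [e1, e2]
    have h4 := h3 t (pairL (0, v)) ((tangent_sphereProd (h2 t) _).mpr (by simpa using hv))
    rw [WithLp.prod_inner_apply] at h4
    simpa using h4)
  rw [e1] at key
  exact key

lemma rotate_mem_equator {x : V3} (hx : x ∈ equator) (s : ℝ) :
    Real.cos s • x + Real.sin s • rotJ x ∈ equator := by
  rw [equator_iff] at hx ⊢
  obtain ⟨h1, h2⟩ := hx
  have := Real.sin_sq_add_cos_sq s
  constructor
  · simp
    linear_combination (Real.sin s ^ 2 + Real.cos s ^ 2) * h1 + this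
  · simp [h2]

lemma hasDerivAt_rotate (x : V3) :
    HasDerivAt (fun s : ℝ => Real.cos s • x + Real.sin s • rotJ x) (rotJ x) 0 := by
  have h := ((Real.hasDerivAt_cos 0).smul_const x).add ((Real.hasDerivAt_sin 0).smul_const (rotJ x))
  have e : (-Real.sin 0) • x + Real.cos 0 • rotJ x = rotJ x := by simp
  rw [e] at h
  exact h

lemma rot_mem_tangent {x : V6} (hx : x ∈ diagCircle) :
    pairL (rotJ x.fst, rotJ x.fst) ∈ tangent diagCircle x := by
  refine ⟨fun s => pairL (Real.cos s • x.fst + Real.sin s • rotJ x.fst,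
    Real.cos s • x.fst + Real.sin s • rotJ x.fst), ?_, ?_, ?_⟩
  · intro s
    have h := rotate_mem_equator ⟨hx.2.1, hx.2.2⟩ s
    exact ⟨rfl, h.1, h.2⟩
  · simp only [Real.cos_zero, Real.sin_zero, one_smul, zero_smul, add_zero]
    conv_lhs => rw [show (x.fst, x.fst) = (x.fst, x.snd) by rw [hx.1]]
    exact pairL_eq x
  · exact hasDerivAt_pair (hasDerivAt_rotate _) (hasDerivAt_rotate _)

/-- The focal analysis for the product of two spheres: if the two components of `p` are neither
equal nor opposite then `p` is not a focal point of the diagonal equator. -/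
lemma not_isFocal {p : V6} (hp1 : p.fst 2 = 0) (hp2 : p.snd 2 = 0) (hne : p.snd ≠ p.fst)
    (hne' : p.snd ≠ -p.fst) : ¬ IsFocal sphereProd diagCircle p := by
  rintro ⟨z, c, w, hz, hc, hp, hw, hw0, he⟩
  set x : ℝ → V3 := fun s => (z s).1.fst with hxdef
  set u : ℝ → V3 := fun s => (z s).2.fst with hudef
  set v : ℝ → V3 := fun s => (z s).2.snd with hvdef
  have hzM : ∀ s, (z s).1 ∈ diagCircle := fun s => (hz s).1
  have hzS : ∀ s, (z s).1 ∈ sphereProd := fun s => ⟨(hzM s).2.1, by rw [← (hzM s).1]; exact (hzM s).2.1⟩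
  have hxs : ∀ s, (z s).1.snd = x s := fun s => ((hzM s).1).symm
  have hx : ∀ s, x s ∈ equator := fun s => ⟨(hzM s).2.1, (hzM s).2.2⟩
  have hux : ∀ s, ⟪u s, x s⟫ = 0 := fun s => by
    have := ((tangent_sphereProd (hzS s) _).mp (hz s).2.1).1
    rw [real_inner_comm]; exact this
  have hvx : ∀ s, ⟪v s, x s⟫ = 0 := fun s => by
    have := ((tangent_sphereProd (hzS s) _).mp (hz s).2.1).2
    rw [hxs s] at this
    rw [real_inner_comm]; exact this
  have huv : ∀ s, ⟪u s, rotJ (x s)⟫ + ⟪v s, rotJ (x s)⟫ = 0 := by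
    intro s
    have h := (hz s).2.2 _ (rot_mem_tangent (hzM s))
    rw [WithLp.prod_inner_apply] at h
    exact h
  -- velocities
  have hz1 : HasDerivAt (fun s => (z s).1) w.1 0 := hw.fst
  have hz2 : HasDerivAt (fun s => (z s).2) w.2 0 := hw.snd
  have hxa : HasDerivAt x w.1.fst 0 := hasDerivAt_fst hz1
  have hub : HasDerivAt u w.2.fst 0 := hasDerivAt_fst hz2
  have hvb : HasDerivAt v w.2.snd 0 := hasDerivAt_snd hz2
  have hxa' : w.1.snd = w.1.fst := by
    have h1 := hasDerivAt_snd hz1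
    have h2 : (fun s => (z s).1.snd) = x := funext hxs
    rw [h2] at h1
    exact h1.unique hxa
  obtain ⟨f1, f2, f3, f4, f5, f6, f7, f8, f9, f10⟩ := frame (hx 0)
  set μ := ⟪w.1.fst, rotJ (x 0)⟫ with hμdef
  have ha : w.1.fst = μ • rotJ (x 0) := by
    have h1 := decomp (hx 0) w.1.fst
    have h2 : ⟪w.1.fst, x 0⟫ = 0 := by
      rw [real_inner_comm]
      exact inner_of_sphere (fun s => (hx s).1) hxa
    have h3 : w.1.fst 2 = 0 := by
      have h4 := hasDerivAt_coord hxa 2
      have h5 : (fun s => x s 2) = fun _ => (0 : ℝ) := funext fun s => (hx s).2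
      rw [h5] at h4
      exact h4.unique (hasDerivAt_const 0 0)
    rw [h2, h3, zero_smul, zero_smul, zero_add, add_zero] at h1
    exact h1
  have hJa : rotJ w.1.fst = -μ • x 0 := by
    rw [ha, map_smul, f10]; simp
  have key : ∀ (g : ℝ → V3) (b : V3), HasDerivAt g b 0 → (∀ s, ⟪g s, x s⟫ = 0) →
      b = (-(⟪g 0, rotJ (x 0)⟫ * μ)) • x 0 + ⟪b, rotJ (x 0)⟫ • rotJ (x 0) + (b 2) • npole := by
    intro g b hg hgx
    have h1 := decomp (hx 0) b
    have h2 : ⟪b, x 0⟫ = -(⟪g 0, rotJ (x 0)⟫ * μ) := by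
      have h3 := hg.inner ℝ hxa
      have h4 : (fun s => ⟪g s, x s⟫) = fun _ => (0 : ℝ) := funext hgx
      rw [h4] at h3
      have h5 := h3.unique (hasDerivAt_const 0 0)
      rw [ha, inner_smul_right] at h5
      linarith
    rw [h2] at h1
    exact h1
  have hb1 := key u _ hub hux
  have hb2 := key v _ hvb hvx
  set κ := ⟪u 0, rotJ (x 0)⟫ with hκ
  set κ₂ := ⟪v 0, rotJ (x 0)⟫ with hκ₂
  set κ' := ⟪w.2.fst, rotJ (x 0)⟫ with hκ'
  set κ₂' := ⟪w.2.snd, rotJ (x 0)⟫ with hκ₂'
  have hkk : κ + κ₂ = 0 := huv 0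
  have hkk' : κ' + κ₂' = 0 := by
    have hJ : HasDerivAt (fun s => rotJ (x s)) (rotJ w.1.fst) 0 :=
      rotJ.hasFDerivAt.comp_hasDerivAt 0 hxa
    have h3 := (hub.inner ℝ hJ).add (hvb.inner ℝ hJ)
    have h4 : (fun s => ⟪u s, rotJ (x s)⟫) + (fun s => ⟪v s, rotJ (x s)⟫) = fun _ => (0 : ℝ) :=
      funext huv
    rw [h4] at h3
    have h5 := h3.unique (hasDerivAt_const 0 0)
    rw [hJa, inner_smul_right, inner_smul_right, hux, hvx] at h5
    linarith
  -- end points
  have he1 : HasDerivAt (fun s => Real.cos ‖u s‖ • x s + Real.sinc ‖u s‖ • u s) 0 0 := by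
    have h1 := hasDerivAt_fst he
    have h2 : (fun s => (c s 1).fst) =
        fun s => Real.cos ‖u s‖ • x s + Real.sinc ‖u s‖ • u s := by
      funext s
      rw [geodesic_fst (hc s).1, (hc s).2.1, (hc s).2.2]
    rw [h2] at h1
    exact h1
  have he2 : HasDerivAt (fun s => Real.cos ‖v s‖ • x s + Real.sinc ‖v s‖ • v s) 0 0 := by
    have h1 := hasDerivAt_snd he
    have h2 : (fun s => (c s 1).snd) =
        fun s => Real.cos ‖v s‖ • x s + Real.sinc ‖v s‖ • v s := by
      funext s
      rw [geodesic_snd (hc s).1, (hc s).2.1, (hc s).2.2, hxs s]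
    rw [h2] at h1
    exact h1
  have hq1 : Real.cos ‖u 0‖ • x 0 + Real.sinc ‖u 0‖ • u 0 = p.fst := by
    rw [← hp, geodesic_fst (hc 0).1, (hc 0).2.1, (hc 0).2.2]
  have hq2 : Real.cos ‖v 0‖ • x 0 + Real.sinc ‖v 0‖ • v 0 = p.snd := by
    rw [← hp, geodesic_snd (hc 0).1, (hc 0).2.1, (hc 0).2.2, hxs 0]
  have A1 := single_focal hx hxa hub hux he1 hq1 hp1 hκ rfl ha hb1
  have A2 := single_focal hx hxa hvb hvx he2 hq2 hp2 hκ₂ rfl ha hb2
  have hk2 : κ₂ = -κ := by linarith
  have hk2' : κ₂' = -κ' := by linarith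
  -- the conclusion from vanishing of all the scalars
  have fin : μ = 0 → κ' = 0 → w.2.fst 2 = 0 → w.2.snd 2 = 0 → False := by
    intro e1 e2 e3 e4
    apply hw0
    have g1 : w.1.fst = 0 := by rw [ha, e1, zero_smul]
    have g2 : w.2.fst = 0 := by rw [hb1, e1, e2, e3]; simp
    have g3 : w.2.snd = 0 := by rw [hb2, hk2', e1, e2, e4]; simp
    have k1 : w.1 = 0 := by
      rw [← pairL_eq w.1, hxa', g1]; exact map_zero pairL
    have k2 : w.2 = 0 := by
      rw [← pairL_eq w.2, g2, g3]; exact map_zero pairL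
    exact Prod.ext k1 k2
  have hcs : ∀ t : ℝ, Real.sin t = 0 → Real.cos t = 1 ∨ Real.cos t = -1 := by
    intro t ht
    have h5 := Real.sin_sq_add_cos_sq t
    rw [ht] at h5
    have h6 : (Real.cos t - 1) * (Real.cos t + 1) = 0 := by linear_combination h5
    rcases mul_eq_zero.mp h6 with h | h
    · left; linarith
    · right; linarith
  have contra : (p.fst = x 0 ∨ p.fst = -x 0) → (p.snd = x 0 ∨ p.snd = -x 0) → False := by
    rintro (h | h) (h' | h')
    · exact hne (by rw [h, h'])
    · exact hne' (by rw [h, h'])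
    · exact hne' (by rw [h, h', neg_neg])
    · exact hne (by rw [h, h'])
  rcases A1 with ⟨a1, a2, a3, a4⟩ | ⟨b1, b2, b3, b4, b5⟩
  · rcases A2 with ⟨a1', a2', a3', a4'⟩ | ⟨b1', b2', b3', b4', b5'⟩
    · exact fin (by linarith) (by linarith) a2 a2'
    · by_cases hy : v 0 2 = 0
      · have h1 := b2' hy
        have h2 : Real.sin κ = 0 := by
          rw [show κ = -κ₂ by linarith, Real.sin_neg, h1, neg_zero]
        refine contra ?_ b1'
        rw [a4, h2]
        rcases hcs κ h2 with h | h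
        · left; rw [h]; simp
        · right; rw [h]; simp
      · have h1 := (mul_eq_zero.mp b5').resolve_right hy
        rw [h1, zero_mul, add_zero] at b4'
        have h2 := (mul_eq_zero.mp b4').resolve_left b3'
        have h3 : κ' = 0 := by linarith
        have h4 : κ₂' = 0 := by linarith
        rw [h4, mul_zero, zero_add] at h1
        exact fin h2 h3 a2 ((mul_eq_zero.mp h1).resolve_left hy)
  · rcases A2 with ⟨a1', a2', a3', a4'⟩ | ⟨b1', b2', b3', b4', b5'⟩
    · by_cases hy : u 0 2 = 0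
      · have h1 := b2 hy
        have h2 : Real.sin κ₂ = 0 := by
          rw [hk2, Real.sin_neg, h1, neg_zero]
        refine contra b1 ?_
        rw [a4', h2]
        rcases hcs κ₂ h2 with h | h
        · left; rw [h]; simp
        · right; rw [h]; simp
      · have h1 := (mul_eq_zero.mp b5).resolve_right hy
        rw [h1, zero_mul, add_zero] at b4
        have h2 := (mul_eq_zero.mp b4).resolve_left b3
        have h3 : κ' = 0 := by linarith
        rw [h3, mul_zero, zero_add] at h1
        exact fin h2 h3 ((mul_eq_zero.mp h1).resolve_left hy) a2'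
    · exact contra b1 b1'

end Pool.Agent.Helper10.Taut
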