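import Pool.Agent.Helper10.Taut.Defs

open MeasureTheory Set Filter Topology
open scoped ENNReal NNReal RealInnerProductSpace ContDiff

set_option linter.unusedSectionVars false

noncomputable section

namespace Pool.Agent.Helper10.Taut

section
variable {V : Type} [NormedAddCommGroup V] [InnerProductSpace ℝ V] [FiniteDimensional ℝ V]

lemma geodesic_ode {c : ℝ → V} (hc : ContDiff ℝ ∞ c) (h1 : ∀ t, ‖c t‖ = 1)
    (h2 : ∀ t v, ⟪c t, v⟫ = 0 → ⟪deriv (deriv c) t, v⟫ = 0) (t : ℝ) :
    deriv (deriv c) t = -(‖deriv c 0‖ ^ 2) • c t := by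
  have hd : ∀ t, HasDerivAt c (deriv c t) t := fun t =>
    ((hc.differentiable (by simp)) t).hasDerivAt
  have hc' : ContDiff ℝ ∞ (deriv c) := by
    have := (contDiff_infty_iff_deriv).mp hc
    exact this.2
  have hd' : ∀ t, HasDerivAt (deriv c) (deriv (deriv c) t) t := fun t =>
    ((hc'.differentiable (by simp)) t).hasDerivAt
  have hcc : ∀ t, ⟪c t, c t⟫ = 1 := fun t => by
    rw [real_inner_self_eq_norm_sq, h1]; norm_num
  have e1 : ∀ t, ⟪c t, deriv c t⟫ = 0 := by
    intro t
    have h3 := (hd t).inner ℝ (hd t)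
    have h4 : (fun t => ⟪c t, c t⟫) = fun _ => (1 : ℝ) := funext hcc
    rw [h4] at h3
    have h5 := h3.unique (hasDerivAt_const t (1 : ℝ))
    rw [real_inner_comm (c t) (deriv c t)] at h5
    linarith
  have e2 : ∀ t, ⟪c t, deriv (deriv c) t⟫ = -‖deriv c t‖ ^ 2 := by
    intro t
    have h3 := (hd t).inner ℝ (hd' t)
    have h4 : (fun t => ⟪c t, deriv c t⟫) = fun _ => (0 : ℝ) := funext e1
    rw [h4] at h3
    have h5 := h3.unique (hasDerivAt_const t (0 : ℝ))
    rw [real_inner_self_eq_norm_sq] at h5
    linarith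
  have e3 : ∀ t, deriv (deriv c) t = ⟪c t, deriv (deriv c) t⟫ • c t := by
    intro t
    have h3 : ⟪c t, deriv (deriv c) t - ⟪c t, deriv (deriv c) t⟫ • c t⟫ = 0 := by
      rw [inner_sub_right, inner_smul_right, hcc]; ring
    have h4 := h2 t _ h3
    have h5 : ⟪deriv (deriv c) t - ⟪c t, deriv (deriv c) t⟫ • c t,
        deriv (deriv c) t - ⟪c t, deriv (deriv c) t⟫ • c t⟫ = 0 := by
      rw [inner_sub_left, h4, inner_smul_left, h3]; simp
    exact sub_eq_zero.mp (inner_self_eq_zero.mp h5)
  have e4 : ∀ t, ‖deriv c t‖ ^ 2 = ‖deriv c 0‖ ^ 2 := by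
    intro t
    have h3 : ∀ t, HasDerivAt (fun t => ⟪deriv c t, deriv c t⟫) 0 t := by
      intro t
      have h3 := (hd' t).inner ℝ (hd' t)
      have h4 : ⟪deriv c t, deriv (deriv c) t⟫ = 0 := by
        rw [e3 t, inner_smul_right, real_inner_comm (c t) (deriv c t), e1, mul_zero]
      rw [real_inner_comm (deriv c t) (deriv (deriv c) t), h4, add_zero] at h3
      exact h3
    have h4 := is_const_of_deriv_eq_zero (fun t => (h3 t).differentiableAt)
      (fun t => (h3 t).deriv) t 0
    simpa only [real_inner_self_eq_norm_sq] using h4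
  rw [e3 t, e2 t, e4 t]

lemma geodesic_formula {c : ℝ → V} (hc : ContDiff ℝ ∞ c) (h1 : ∀ t, ‖c t‖ = 1)
    (h2 : ∀ t v, ⟪c t, v⟫ = 0 → ⟪deriv (deriv c) t, v⟫ = 0) :
    c 1 = Real.cos ‖deriv c 0‖ • c 0 + Real.sinc ‖deriv c 0‖ • deriv c 0 := by
  have hode := geodesic_ode hc h1 h2
  have hd : ∀ t, HasDerivAt c (deriv c t) t := fun t =>
    ((hc.differentiable (by simp)) t).hasDerivAt
  have hc' : ContDiff ℝ ∞ (deriv c) := ((contDiff_infty_iff_deriv).mp hc).2
  have hd' : ∀ t, HasDerivAt (deriv c) (deriv (deriv c) t) t := fun t =>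
    ((hc'.differentiable (by simp)) t).hasDerivAt
  set r := ‖deriv c 0‖ with hr
  rcases eq_or_ne r 0 with h0 | h0
  · rw [h0] at hode ⊢
    have hz : deriv c 0 = 0 := norm_eq_zero.mp h0
    have hz' : ∀ t, deriv c t = 0 := by
      intro t
      have := is_const_of_deriv_eq_zero (fun t => (hd' t).differentiableAt)
        (fun t => by rw [hode t]; simp) t 0
      rw [this, hz]
    have h3 := is_const_of_deriv_eq_zero (fun t => (hd t).differentiableAt) hz' 1 0
    rw [h3, hz]
    simp
  · have hcos : ∀ t, HasDerivAt (fun t => Real.cos (r * t)) (-Real.sin (r * t) * r) t := by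
      intro t
      have := ((hasDerivAt_id' t).const_mul r).cos
      rwa [mul_one] at this
    have hsin : ∀ t, HasDerivAt (fun t => Real.sin (r * t)) (Real.cos (r * t) * r) t := by
      intro t
      have := ((hasDerivAt_id' t).const_mul r).sin
      rwa [mul_one] at this
    have f1 : ∀ t, Real.cos (r * t) • c t - (Real.sin (r * t) / r) • deriv c t = c 0 := by
      intro t
      have h3 : ∀ t, HasDerivAt (fun t => Real.cos (r * t) • c t -
          (Real.sin (r * t) / r) • deriv c t) 0 t := by
        intro t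
        have h4 := ((hcos t).smul (hd t)).sub (((hsin t).div_const r).smul (hd' t))
        have e1 : Real.sin (r * t) / r * -r ^ 2 = -Real.sin (r * t) * r := by field_simp
        have e2 : Real.cos (r * t) * r / r = Real.cos (r * t) := by field_simp
        rw [hode t, smul_smul, e1, e2] at h4
        have h5 : Real.cos (r * t) • deriv c t + (-Real.sin (r * t) * r) • c t -
          ((-Real.sin (r * t) * r) • c t + Real.cos (r * t) • deriv c t) = 0 := by abel
        rw [h5] at h4
        exact h4
      have h4 := is_const_of_deriv_eq_zero (fun t => (h3 t).differentiableAt)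
        (fun t => (h3 t).deriv) t 0
      rw [h4]; simp
    have f2 : ∀ t, (r * Real.sin (r * t)) • c t + Real.cos (r * t) • deriv c t = deriv c 0 := by
      intro t
      have h3 : ∀ t, HasDerivAt (fun t => (r * Real.sin (r * t)) • c t +
          Real.cos (r * t) • deriv c t) 0 t := by
        intro t
        have h4 := (((hsin t).const_mul r).smul (hd t)).add ((hcos t).smul (hd' t))
        rw [hode t, smul_smul] at h4
        have h5 : (r * Real.sin (r * t)) • deriv c t + (r * (Real.cos (r * t) * r)) • c t +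
          ((Real.cos (r * t) * -r ^ 2) • c t + (-Real.sin (r * t) * r) • deriv c t) = 0 := by
          module
        rw [h5] at h4
        exact h4
      have h4 := is_const_of_deriv_eq_zero (fun t => (h3 t).differentiableAt)
        (fun t => (h3 t).deriv) t 0
      rw [h4]; simp
    have g1 := f1 1
    have g2 := f2 1
    rw [mul_one] at g1 g2
    rw [Real.sinc_of_ne_zero h0, ← g1, ← g2]
    have h5 := Real.sin_sq_add_cos_sq r
    rw [smul_sub, smul_add, smul_smul, smul_smul, smul_smul, smul_smul]
    have e1 : Real.sin r / r * (r * Real.sin r) = Real.sin r ^ 2 := by field_simp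
    have e2 : Real.cos r * (Real.sin r / r) = Real.sin r / r * Real.cos r := by ring
    rw [e1, e2]
    have e3 : (Real.cos r * Real.cos r) • c 1 + Real.sin r ^ 2 • c 1 = c 1 := by
      rw [← add_smul, ← sq, add_comm, h5, one_smul]
    calc c 1 = (Real.cos r * Real.cos r) • c 1 + Real.sin r ^ 2 • c 1 := e3.symm
      _ = _ := by abel
end

end Pool.Agent.Helper10.Taut
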