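import Pool.Agent.Helper10.Taut.Geod

open MeasureTheory Set Filter Topology
open scoped ENNReal NNReal RealInnerProductSpace ContDiff

set_option linter.unusedSectionVars false

noncomputable section

namespace Pool.Agent.Helper10.Taut

instance instContinuousSMulV6 : ContinuousSMul ℝ V6 := IsBoundedSMul.continuousSMul

/-- The equator of the unit two-sphere. -/
def equator : Set V3 := {x | ‖x‖ = 1 ∧ x 2 = 0}

/-- The rotation by a right angle, composed with the projection to the horizontal plane. -/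
def rotJ : V3 →L[ℝ] V3 :=
  LinearMap.toContinuousLinearMap
    { toFun := fun x => !₂[-x 1, x 0, 0]
      map_add' := by
        intro x y; ext i; fin_cases i <;> simp; ring
      map_smul' := by
        intro c x; ext i; fin_cases i <;> simp }

@[simp] lemma rotJ_apply (x : V3) : rotJ x = !₂[-x 1, x 0, 0] := rfl

lemma inner3 (x y : V3) : ⟪x, y⟫ = x 0 * y 0 + x 1 * y 1 + x 2 * y 2 := by
  rw [PiLp.inner_apply, Fin.sum_univ_three]
  simp [mul_comm]

lemma normsq3 (x : V3) : ‖x‖ ^ 2 = x 0 ^ 2 + x 1 ^ 2 + x 2 ^ 2 := by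
  rw [← real_inner_self_eq_norm_sq, inner3]; ring

lemma equator_iff (x : V3) : x ∈ equator ↔ x 0 ^ 2 + x 1 ^ 2 = 1 ∧ x 2 = 0 := by
  unfold equator
  constructor
  · rintro ⟨h1, h2⟩
    refine ⟨?_, h2⟩
    have := normsq3 x
    rw [h1, h2] at this
    linarith
  · rintro ⟨h1, h2⟩
    refine ⟨?_, h2⟩
    have := normsq3 x
    rw [h2] at this
    have h3 : ‖x‖ ^ 2 = 1 ^ 2 := by rw [this]; linarith
    exact (sq_eq_sq₀ (norm_nonneg _) zero_le_one).mp h3

/-- The north pole. -/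
def npole : V3 := !₂[0, 0, 1]

/-- A rational parametrisation of the curve on the sphere through `x` with velocity `v`. -/
def ratCurve {V : Type} [NormedAddCommGroup V] [InnerProductSpace ℝ V] (x v : V) (s : ℝ) : V :=
  (1 + s ^ 2 * (‖v‖ ^ 2 / 4))⁻¹ • ((1 - s ^ 2 * (‖v‖ ^ 2 / 4)) • x + s • v)

lemma ratCurve_zero {V : Type} [NormedAddCommGroup V] [InnerProductSpace ℝ V] (x v : V) :
    ratCurve x v 0 = x := by simp [ratCurve]

lemma norm_ratCurve {V : Type} [NormedAddCommGroup V] [InnerProductSpace ℝ V] {x v : V}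
    (hx : ‖x‖ = 1) (hv : ⟪x, v⟫ = 0) (s : ℝ) : ‖ratCurve x v s‖ = 1 := by
  have h : ‖(1 - s ^ 2 * (‖v‖ ^ 2 / 4)) • x + s • v‖ ^ 2 = (1 + s ^ 2 * (‖v‖ ^ 2 / 4)) ^ 2 := by
    rw [norm_add_sq_real, norm_smul, norm_smul, inner_smul_left, inner_smul_right, hv, hx]
    simp only [Real.norm_eq_abs, mul_pow, sq_abs]
    ring
  have h2 : ‖(1 - s ^ 2 * (‖v‖ ^ 2 / 4)) • x + s • v‖ = 1 + s ^ 2 * (‖v‖ ^ 2 / 4) := by
    rw [← sq_eq_sq₀ (norm_nonneg _) (by positivity)]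
    exact h
  unfold ratCurve
  rw [norm_smul, h2, norm_inv, Real.norm_eq_abs, abs_of_pos (by positivity)]
  exact inv_mul_cancel₀ (by positivity)

lemma hasDerivAt_ratCurve {V : Type} [NormedAddCommGroup V] [InnerProductSpace ℝ V] (x v : V) :
    HasDerivAt (ratCurve x v) v 0 := by
  have h1 : HasDerivAt (fun s : ℝ => s ^ 2 * (‖v‖ ^ 2 / 4)) 0 0 := by
    have := (hasDerivAt_pow 2 (0 : ℝ)).mul_const (‖v‖ ^ 2 / 4)
    simpa using this
  have h2 : HasDerivAt (fun s : ℝ => (1 + s ^ 2 * (‖v‖ ^ 2 / 4))⁻¹) 0 0 := by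
    have h := (h1.const_add 1).inv (by simp)
    have e : -0 / (1 + (0 : ℝ) ^ 2 * (‖v‖ ^ 2 / 4)) ^ 2 = 0 := by simp
    rw [e] at h
    exact h
  have h3 : HasDerivAt (fun s : ℝ => (1 - s ^ 2 * (‖v‖ ^ 2 / 4)) • x + s • v) v 0 := by
    have h := ((h1.const_sub 1).smul_const x).add ((hasDerivAt_id (0 : ℝ)).smul_const v)
    have e : (-(0 : ℝ)) • x + (1 : ℝ) • v = v := by simp
    rw [e] at h
    exact h
  have h := h2.smul h3
  have e : (1 + (0 : ℝ) ^ 2 * (‖v‖ ^ 2 / 4))⁻¹ • v +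
    (0 : ℝ) • ((1 - (0 : ℝ) ^ 2 * (‖v‖ ^ 2 / 4)) • x + (0 : ℝ) • v) = v := by simp
  rw [e] at h
  exact h

lemma hasDerivAt_fst {c : ℝ → V6} {v : V6} {s : ℝ} (h : HasDerivAt c v s) :
    HasDerivAt (fun s => (c s).fst) v.fst s :=
  (WithLp.fstL 2 ℝ V3 V3).hasFDerivAt.comp_hasDerivAt s h

lemma hasDerivAt_snd {c : ℝ → V6} {v : V6} {s : ℝ} (h : HasDerivAt c v s) :
    HasDerivAt (fun s => (c s).snd) v.snd s :=
  (WithLp.sndL 2 ℝ V3 V3).hasFDerivAt.comp_hasDerivAt s h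

/-- Pairing as a continuous linear map. -/
def pairL : V3 × V3 →L[ℝ] V6 := (WithLp.prodContinuousLinearEquiv 2 ℝ V3 V3).symm

@[simp] lemma pairL_fst (x : V3 × V3) : (pairL x).fst = x.1 := rfl
@[simp] lemma pairL_snd (x : V3 × V3) : (pairL x).snd = x.2 := rfl

lemma pairL_eq (x : V6) : pairL (x.fst, x.snd) = x := rfl

lemma hasDerivAt_pair {c d : ℝ → V3} {v w : V3} {s : ℝ} (hc : HasDerivAt c v s)
    (hd : HasDerivAt d w s) : HasDerivAt (fun s => pairL (c s, d s)) (pairL (v, w)) s :=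
  pairL.hasFDerivAt.comp_hasDerivAt s (hc.prodMk hd)

lemma inner_of_sphere {V : Type} [NormedAddCommGroup V] [InnerProductSpace ℝ V] {c : ℝ → V}
    {v : V} (hc : ∀ s, ‖c s‖ = 1) (h : HasDerivAt c v 0) : ⟪c 0, v⟫ = 0 := by
  have h3 := h.inner ℝ h
  have h4 : (fun t => ⟪c t, c t⟫) = fun _ => (1 : ℝ) := by
    funext t; rw [real_inner_self_eq_norm_sq, hc]; norm_num
  rw [h4] at h3
  have h5 := h3.unique (hasDerivAt_const 0 (1 : ℝ))
  rw [real_inner_comm (c 0) v] at h5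
  linarith

lemma tangent_sphereProd {x : V6} (hx : x ∈ sphereProd) (v : V6) :
    v ∈ tangent sphereProd x ↔ ⟪x.fst, v.fst⟫ = 0 ∧ ⟪x.snd, v.snd⟫ = 0 := by
  constructor
  · rintro ⟨c, hc, h0, hv⟩
    have h1 := inner_of_sphere (fun s => (hc s).1) (hasDerivAt_fst hv)
    have h2 := inner_of_sphere (fun s => (hc s).2) (hasDerivAt_snd hv)
    rw [h0] at h1 h2
    exact ⟨h1, h2⟩
  · rintro ⟨h1, h2⟩
    refine ⟨fun s => pairL (ratCurve x.fst v.fst s, ratCurve x.snd v.snd s), ?_, ?_, ?_⟩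
    · intro s
      exact ⟨norm_ratCurve hx.1 h1 s, norm_ratCurve hx.2 h2 s⟩
    · simp only [ratCurve_zero]; rfl
    · exact hasDerivAt_pair (hasDerivAt_ratCurve _ _) (hasDerivAt_ratCurve _ _)

end Pool.Agent.Helper10.Taut
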