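import Pool.Agent.Helper10.Taut.Base

open MeasureTheory Set Filter Topology
open scoped ENNReal

set_option linter.unusedSectionVars false

noncomputable section

namespace Pool.Agent.Helper10.Taut

variable {E E' E'' : Type} [NormedAddCommGroup E] [NormedAddCommGroup E'] [NormedAddCommGroup E'']

section
variable [NormedSpace ℝ E]

lemma L2.integrable (g : L2 E) : Integrable (fun τ => g τ) (volume : Measure unitInterval) :=
  (Lp.memLp g).integrable (by norm_num)

lemma L2.memLp_one_le (g : L2 E) : ∫ τ, ‖g τ‖ ≤ ‖g‖ := by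
  have h1 : eLpNorm (fun τ => g τ) 1 (volume : Measure unitInterval) ≤
      eLpNorm (fun τ => g τ) 2 (volume : Measure unitInterval) :=
    eLpNorm_le_eLpNorm_of_exponent_le (by norm_num) (Lp.aestronglyMeasurable g)
  rw [Lp.norm_def]
  rw [integral_norm_eq_lintegral_enorm (Lp.aestronglyMeasurable g)]
  apply ENNReal.toReal_mono (Lp.eLpNorm_ne_top g)
  rwa [eLpNorm_one_eq_lintegral_enorm] at h1

lemma norm_setIntegral_le (g : L2 E) (s : Set unitInterval) : ‖∫ τ in s, g τ‖ ≤ ‖g‖ := by
  calc ‖∫ τ in s, g τ‖ ≤ ∫ τ in s, ‖g τ‖ := norm_integral_le_integral_norm _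
    _ ≤ ∫ τ, ‖g τ‖ := setIntegral_le_integral g.integrable.norm (by filter_upwards with x; positivity)
    _ ≤ ‖g‖ := g.memLp_one_le

lemma continuous_setIntegral (g : L2 E) : Continuous fun t : unitInterval => ∫ τ in Ioc t 1, g τ := by
  rw [continuous_iff_continuousAt]
  intro t
  have h : (fun t : unitInterval => ∫ τ in Ioc t 1, g τ) =
      fun t => ∫ τ, (Ioc t 1).indicator (fun τ => g τ) τ := by
    ext t
    rw [integral_indicator measurableSet_Ioc]
  rw [h]
  apply continuousAt_of_dominated (bound := fun τ => ‖g τ‖)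
  · filter_upwards with s
    exact (Lp.aestronglyMeasurable g).indicator measurableSet_Ioc
  · filter_upwards with s
    filter_upwards with τ
    exact norm_indicator_le_norm_self _ _
  · exact g.integrable.norm
  · have : ∀ᵐ τ : unitInterval, τ ≠ t := by
      simp [ae_iff, measure_singleton]
    filter_upwards [this] with τ hτ
    rcases lt_or_gt_of_ne hτ with h1 | h1
    · have : ∀ᶠ s in 𝓝 t, (Ioc s 1).indicator (fun τ => g τ) τ = 0 := by
        filter_upwards [lt_mem_nhds h1] with s hs
        rw [indicator_of_notMem]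
        simp only [mem_Ioc, not_and_or, not_lt]
        left; exact hs.le
      refine ContinuousAt.congr (f := fun _ => 0) continuousAt_const ?_
      filter_upwards [this] with s hs
      rw [hs]
    · have : ∀ᶠ s in 𝓝 t, (Ioc s 1).indicator (fun τ => g τ) τ = g τ := by
        filter_upwards [gt_mem_nhds h1] with s hs
        rw [indicator_of_mem]
        exact ⟨hs, τ.2.2⟩
      refine ContinuousAt.congr (f := fun _ => g τ) continuousAt_const ?_
      filter_upwards [this] with s hs
      rw [hs]

lemma continuous_path (p : E) (g : L2 E) : Continuous (path p g) :=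
  continuous_const.sub (continuous_setIntegral g)

lemma path_one (p : E) (g : L2 E) : path p g 1 = p := by simp [path]

lemma path_add (p p' : E) (g g' : L2 E) (t) :
    path (p + p') (g + g') t = path p g t + path p' g' t := by
  have h : ∫ τ in Ioc t 1, (g + g' : L2 E) τ = (∫ τ in Ioc t 1, g τ) + ∫ τ in Ioc t 1, g' τ := by
    rw [← integral_add g.integrable.integrableOn g'.integrable.integrableOn]
    apply integral_congr_ae
    exact ae_restrict_of_ae (Lp.coeFn_add g g')
  simp only [path, h]
  abel

lemma path_smul (p : E) (c : ℝ) (g : L2 E) (t) :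
    path (c • p) (c • g) t = c • path p g t := by
  have h : ∫ τ in Ioc t 1, (c • g : L2 E) τ = c • ∫ τ in Ioc t 1, g τ := by
    rw [← integral_smul]
    apply integral_congr_ae
    exact ae_restrict_of_ae (Lp.coeFn_smul c g)
  simp only [path, h, smul_sub]

lemma norm_path_le (p : E) (g : L2 E) (t) : ‖path p g t‖ ≤ ‖p‖ + ‖g‖ :=
  (norm_sub_le _ _).trans (add_le_add le_rfl (norm_setIntegral_le _ _))

/-- The continuous path attached to an end point and a derivative. -/
def evL : E × L2 E →L[ℝ] C(unitInterval, E) :=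
  LinearMap.mkContinuous
    { toFun := fun x => ⟨path x.1 x.2, continuous_path x.1 x.2⟩
      map_add' := by
        intro x y
        ext t
        exact path_add _ _ _ _ _
      map_smul' := by
        intro c x
        ext t
        exact path_smul _ _ _ _ } 2 (by
    intro x
    rw [ContinuousMap.norm_le _ (by positivity)]
    intro t
    refine (norm_path_le _ _ _).trans ?_
    have h1 := norm_fst_le x
    have h2 := norm_snd_le x
    linarith)

@[simp] lemma evL_apply (p : E) (g : L2 E) (t) : evL (p, g) t = path p g t := rfl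

lemma setIntegral_Ioc_eq_zero [CompleteSpace E] {g : L2 E} (h : ∀ t : unitInterval, ∫ τ in Ioc t 1, g τ = 0)
    (h0 : ∫ τ, g τ = 0) : g = 0 := by
  have key : ∀ s : Set unitInterval, MeasurableSet s → ∫ τ in s, g τ = 0 := by
    intro s hs
    induction s, hs using MeasurableSpace.induction_on_inter
      (borel_eq_generateFrom_Ioi unitInterval ▸ BorelSpace.measurable_eq) isPiSystem_Ioi with
    | empty => simp
    | basic s hs =>
      obtain ⟨a, rfl⟩ := hs
      have : Ioi a = Ioc a 1 := by
        ext x; simp only [mem_Ioi, mem_Ioc]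
        exact ⟨fun hx => ⟨hx, x.2.2⟩, fun hx => hx.1⟩
      rw [this, h]
    | compl s hs ih =>
      have := integral_add_compl hs g.integrable
      rw [ih, h0, zero_add] at this
      exact this
    | iUnion f hd hf ih =>
      rw [integral_iUnion hf hd g.integrable.integrableOn]
      simp [ih]
  rw [Lp.eq_zero_iff_ae_eq_zero]
  exact g.integrable.ae_eq_zero_of_forall_setIntegral_eq_zero fun s hs _ => key s hs

lemma path_injective [CompleteSpace E] {p p' : E} {g g' : L2 E} (h : ∀ t, path p g t = path p' g' t) :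
    p = p' ∧ g = g' := by
  have hp : p = p' := by
    have := h 1
    rwa [path_one, path_one] at this
  subst hp
  refine ⟨rfl, ?_⟩
  have h1 : ∀ t : unitInterval, ∫ τ in Ioc t 1, (g - g' : L2 E) τ = 0 := by
    intro t
    have h2 : ∫ τ in Ioc t 1, (g - g' : L2 E) τ = (∫ τ in Ioc t 1, g τ) - ∫ τ in Ioc t 1, g' τ := by
      rw [← integral_sub g.integrable.integrableOn g'.integrable.integrableOn]
      apply integral_congr_ae
      exact ae_restrict_of_ae (Lp.coeFn_sub g g')
    have h3 := h t
    simp only [path] at h3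
    rw [h2]
    have := sub_right_injective h3
    rw [this, sub_self]
  have h0 : ∫ τ, (g - g' : L2 E) τ = 0 := by
    have := h1 0
    rw [← this, ← setIntegral_univ]
    apply setIntegral_congr_set
    have : ∀ᵐ τ : unitInterval, τ ≠ 0 := by
      simp [ae_iff, measure_singleton]
    filter_upwards [this] with τ hτ
    apply propext
    constructor
    · intro _
      exact ⟨lt_of_le_of_ne τ.2.1 (fun h => hτ h.symm), τ.2.2⟩
    · intro _; trivial
  exact sub_eq_zero.mp (setIntegral_Ioc_eq_zero h1 h0)

/-- Pointwise application of a continuous family of linear maps. -/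
def appL [NormedSpace ℝ E'] : C(unitInterval, E →L[ℝ] E') →L[ℝ] L2 E →L[ℝ] L2 E' :=
  (ContinuousLinearMap.holderL (volume : Measure unitInterval) ∞ 2 2
    (ContinuousLinearMap.id ℝ (E →L[ℝ] E'))).comp (ContinuousMap.toLp ∞ volume ℝ)

lemma appL_ae [NormedSpace ℝ E'] (A : C(unitInterval, E →L[ℝ] E')) (g : L2 E) :
    ∀ᵐ τ, (appL A g : L2 E') τ = A τ (g τ) := by
  have h1 := ContinuousLinearMap.coeFn_holder (r := 2) (ContinuousLinearMap.id ℝ (E →L[ℝ] E'))
    (ContinuousMap.toLp ∞ volume ℝ A) g
  have h2 := ContinuousMap.coeFn_toLp (p := ∞) (𝕜 := ℝ) (volume : Measure unitInterval) A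
  filter_upwards [h1, h2] with τ h1 h2
  have h3 : (appL A g : L2 E') τ = (ContinuousLinearMap.holder 2
    (ContinuousLinearMap.id ℝ (E →L[ℝ] E')) (ContinuousMap.toLp ∞ volume ℝ A) g : L2 E') τ := rfl
  rw [h3, h1, h2]
  rfl

/-- Derivative field of a map along a continuous path. -/
def dMap [NormedSpace ℝ E'] (F : E → E') (hF : ContDiff ℝ 1 F) :
    C(unitInterval, E) → C(unitInterval, E →L[ℝ] E') :=
  fun γ => (⟨fderiv ℝ F, hF.continuous_fderiv (by norm_num)⟩ : C(E, E →L[ℝ] E')).comp γ

lemma continuous_dMap [NormedSpace ℝ E'] (F : E → E') (hF : ContDiff ℝ 1 F) :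
    Continuous (dMap F hF) :=
  ContinuousMap.continuous_postcomp _

/-- The composition of an `H¹` path with a map of class `C¹`: its derivative. -/
def comp [NormedSpace ℝ E'] (F : E → E') (hF : ContDiff ℝ 1 F) (x : E × L2 E) : E' × L2 E' :=
  (F x.1, appL (dMap F hF (evL x)) x.2)

lemma continuous_comp [NormedSpace ℝ E'] (F : E → E') (hF : ContDiff ℝ 1 F) :
    Continuous (comp F hF) := by
  unfold comp
  refine (hF.continuous.comp continuous_fst).prodMk ?_
  have h1 : Continuous fun x : E × L2 E => (appL (dMap F hF (evL x)) : L2 E →L[ℝ] L2 E') :=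
    appL.continuous.comp ((continuous_dMap F hF).comp evL.continuous)
  exact h1.clm_apply continuous_snd

lemma comp_ae [NormedSpace ℝ E'] (F : E → E') (hF : ContDiff ℝ 1 F) (p : E) (g : L2 E) :
    ∀ᵐ τ, (comp F hF (p, g)).2 τ = fderiv ℝ F (path p g τ) (g τ) :=
  appL_ae _ _

lemma setIntegral_eq_interval (f : ℝ → E) (t : unitInterval) :
    ∫ τ in Ioc t 1, f (τ : ℝ) = ∫ τ in (t : ℝ)..1, f τ := by
  rw [intervalIntegral.integral_of_le t.2.2]
  have h1 := unitInterval.measurePreserving_coe
  have h2 : (Ioc t 1 : Set unitInterval) = Subtype.val ⁻¹' (Ioc (t : ℝ) 1) := by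
    ext x
    simp only [mem_Ioc, mem_preimage, Subtype.coe_lt_coe]
    exact ⟨fun h => ⟨h.1, h.2⟩, fun h => ⟨h.1, h.2⟩⟩
  rw [h2, h1.setIntegral_preimage_emb unitInterval.measurableEmbedding_coe,
    Measure.restrict_restrict measurableSet_Ioc]
  congr 2
  ext x
  simp only [mem_inter_iff, mem_Ioc, and_iff_left_iff_imp]
  intro hx
  exact ⟨t.2.1.trans hx.1.le, hx.2⟩

lemma path_toLp [CompleteSpace E] (p : E) (f : C(unitInterval, E)) (t : unitInterval) :
    path p (ContinuousMap.toLp 2 volume ℝ f) t =
      p - ∫ τ in (t : ℝ)..1, f (projIcc 0 1 zero_le_one τ) := by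
  rw [← setIntegral_eq_interval]
  unfold path
  congr 1
  apply integral_congr_ae
  filter_upwards [ae_restrict_of_ae (ContinuousMap.coeFn_toLp (p := 2) (𝕜 := ℝ)
    (volume : Measure unitInterval) f)] with τ hτ
  rw [hτ]
  congr 1
  exact (projIcc_val zero_le_one τ).symm

/-- Chain rule for `H¹` paths. -/
lemma path_comp [NormedSpace ℝ E'] [CompleteSpace E] [CompleteSpace E'] (F : E → E') (hF : ContDiff ℝ 1 F) (p : E) (g : L2 E) (t : unitInterval) :
    path (comp F hF (p, g)).1 (comp F hF (p, g)).2 t = F (path p g t) := by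
  have hd : DenseRange (ContinuousMap.toLp 2 volume ℝ : C(unitInterval, E) →L[ℝ] L2 E) :=
    ContinuousMap.toLp_denseRange _ _ _ (by norm_num)
  have hc1 : Continuous fun g : L2 E => path (comp F hF (p, g)).1 (comp F hF (p, g)).2 t := by
    have : Continuous fun g : L2 E => evL (comp F hF (p, g)) t :=
      (continuous_eval_const t).comp (evL.continuous.comp
        ((continuous_comp F hF).comp (Continuous.prodMk_right p)))
    exact this
  have hc2 : Continuous fun g : L2 E => F (path p g t) := by
    have : Continuous fun g : L2 E => F (evL (p, g) t) :=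
      hF.continuous.comp ((continuous_eval_const t).comp (evL.continuous.comp
        (Continuous.prodMk_right p)))
    exact this
  refine congrFun (hd.equalizer hc1 hc2 ?_) g
  ext f
  simp only [Function.comp_apply]
  set γ : ℝ → E := fun s => p - ∫ τ in s..1, f (projIcc 0 1 zero_le_one τ) with hγ
  have hfc : Continuous fun τ : ℝ => f (projIcc 0 1 zero_le_one τ) :=
    f.continuous.comp continuous_projIcc
  have hγ' : ∀ s, HasDerivAt γ (f (projIcc 0 1 zero_le_one s)) s := by
    intro s
    have h1 := intervalIntegral.integral_hasDerivAt_left (a := s) (b := 1)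
      (hfc.intervalIntegrable _ _) (hfc.stronglyMeasurableAtFilter _ _) hfc.continuousAt
    have h2 := h1.const_sub p
    rwa [neg_neg] at h2
  have hFγ : ∀ s, HasDerivAt (fun s => F (γ s)) (fderiv ℝ F (γ s) (f (projIcc 0 1 zero_le_one s))) s := by
    intro s
    exact ((hF.differentiable (by norm_num) (γ s)).hasFDerivAt).comp_hasDerivAt s (hγ' s)
  have hγc : Continuous γ := by
    rw [continuous_iff_continuousAt]
    exact fun s => (hγ' s).continuousAt
  have hint : Continuous fun s => fderiv ℝ F (γ s) (f (projIcc 0 1 zero_le_one s)) :=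
    ((hF.continuous_fderiv (by norm_num)).comp hγc).clm_apply hfc
  have h3 := intervalIntegral.integral_eq_sub_of_hasDerivAt (a := (t : ℝ)) (b := 1)
    (fun s _ => hFγ s) (hint.intervalIntegrable _ _)
  have h4 : ∫ τ in Ioc t 1, (comp F hF (p, ContinuousMap.toLp 2 volume ℝ f)).2 τ =
      ∫ τ in (t : ℝ)..1, fderiv ℝ F (γ τ) (f (projIcc 0 1 zero_le_one τ)) := by
    rw [← setIntegral_eq_interval]
    apply integral_congr_ae
    filter_upwards [ae_restrict_of_ae (comp_ae F hF p (ContinuousMap.toLp 2 volume ℝ f)),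
      ae_restrict_of_ae (ContinuousMap.coeFn_toLp (p := 2) (𝕜 := ℝ)
    (volume : Measure unitInterval) f)] with τ h5 h6
    rw [h5, h6, path_toLp, projIcc_val zero_le_one τ]
  have h7 : γ 1 = p := by simp [hγ]
  unfold path
  rw [h4, h3, h7]
  have h8 : F (p - ∫ τ in Ioc t 1, (ContinuousMap.toLp 2 volume ℝ f : L2 E) τ) = F (γ t) := by
    have := path_toLp p f t
    unfold path at this
    rw [this]
  rw [h8]
  simp [comp]


/-- Composition of an `H¹` path with a continuous linear map. -/
def lin [NormedSpace ℝ E'] (L : E →L[ℝ] E') (g : L2 E) : L2 E' := L.compLpL 2 volume g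

lemma continuous_lin [NormedSpace ℝ E'] (L : E →L[ℝ] E') : Continuous (lin L) :=
  (L.compLpL 2 volume).continuous

lemma lin_ae [NormedSpace ℝ E'] (L : E →L[ℝ] E') (g : L2 E) : ∀ᵐ τ, lin L g τ = L (g τ) :=
  L.coeFn_compLpL g

lemma path_lin [NormedSpace ℝ E'] [CompleteSpace E] [CompleteSpace E'] (L : E →L[ℝ] E') (p : E)
    (g : L2 E) (t : unitInterval) : path (L p) (lin L g) t = L (path p g t) := by
  unfold path lin
  rw [map_sub]
  congr 1
  have h1 : ∫ τ in Ioc t 1, (L.compLpL 2 volume g : L2 E') τ = ∫ τ in Ioc t 1, L (g τ) := by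
    apply integral_congr_ae
    exact ae_restrict_of_ae (L.coeFn_compLpL g)
  rw [h1, L.integral_comp_comm g.integrable.integrableOn]

/-- The length of the restriction of a path to `[t,1]`. -/
def len (g : L2 E) (t : unitInterval) : ℝ := ∫ τ in Ioc t 1, ‖g τ‖

lemma setIntegral_sub_Ioc (f : unitInterval → E) (hf : Integrable f) {s t : unitInterval}
    (hst : s ≤ t) : (∫ τ in Ioc s 1, f τ) - ∫ τ in Ioc t 1, f τ = ∫ τ in Ioc s t, f τ := by
  have h : Ioc s 1 = Ioc s t ∪ Ioc t 1 := (Ioc_union_Ioc_eq_Ioc hst t.2.2).symm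
  rw [h, setIntegral_union ?_ measurableSet_Ioc hf.integrableOn hf.integrableOn]
  · abel
  · rw [Set.disjoint_left]
    intro x hx hx'
    exact absurd hx.2 (not_le.mpr hx'.1)

lemma dist_path_le (p : E) (g : L2 E) {s t : unitInterval} (hst : s ≤ t) :
    ‖path p g s - path p g t‖ ≤ len g s - len g t := by
  unfold path len
  rw [setIntegral_sub_Ioc _ g.integrable.norm hst]
  have : (p - ∫ τ in Ioc s 1, g τ) - (p - ∫ τ in Ioc t 1, g τ) = -∫ τ in Ioc s t, g τ := by
    rw [← setIntegral_sub_Ioc _ g.integrable hst]; abel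
  rw [this, norm_neg]
  exact norm_integral_le_integral_norm _

lemma dist_path_le_abs (p : E) (g : L2 E) (s t : unitInterval) :
    ‖path p g s - path p g t‖ ≤ |len g s - len g t| := by
  rcases le_total s t with h | h
  · exact (dist_path_le p g h).trans (le_abs_self _)
  · rw [norm_sub_rev, abs_sub_comm]
    exact (dist_path_le p g h).trans (le_abs_self _)

lemma len_zero_le (g : L2 E) : len g 0 ≤ ‖g‖ := by
  refine le_trans ?_ g.memLp_one_le
  exact setIntegral_le_integral g.integrable.norm (by filter_upwards with x; positivity)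

lemma len_one (g : L2 E) : len g 1 = 0 := by simp [len]

end

end Pool.Agent.Helper10.Taut
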