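import Pool.Agent.Helper10.Taut.Circle

open MeasureTheory Set Filter Topology
open scoped ENNReal NNReal RealInnerProductSpace ContDiff

set_option linter.unusedSectionVars false

noncomputable section

namespace Pool.Agent.Helper10.Taut

section general
variable {E : Type} [NormedAddCommGroup E] [NormedSpace ℝ E]

/-- A constant derivative. -/
def constL2 (v : E) : L2 E := ContinuousMap.toLp 2 volume ℝ (ContinuousMap.const unitInterval v)

lemma constL2_ae (v : E) : ∀ᵐ τ, constL2 v τ = v :=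
  ContinuousMap.coeFn_toLp (p := 2) (𝕜 := ℝ) (volume : Measure unitInterval)
    (ContinuousMap.const unitInterval v)

lemma continuous_constL2 : Continuous (constL2 : E → L2 E) := by
  unfold constL2
  exact (ContinuousMap.toLp 2 volume ℝ).continuous.comp ContinuousMap.continuous_const'

lemma path_constL2 [CompleteSpace E] (p v : E) (t : unitInterval) :
    path p (constL2 v) t = p - (1 - (t : ℝ)) • v := by
  unfold constL2
  rw [path_toLp]
  simp

end general

/-- The points of the equator. -/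
def pt (θ : ℝ) : V3 := ell !₂[1, 0, 0] !₂[0, 1, 0] θ

lemma pt_eq (θ : ℝ) : pt θ = !₂[Real.cos θ, Real.sin θ, 0] := by
  unfold pt ell
  ext i; fin_cases i <;> simp

lemma pt_mem (θ : ℝ) : pt θ ∈ equator := by
  rw [equator_iff, pt_eq]
  have := Real.sin_sq_add_cos_sq θ
  constructor
  · simp
  · simp

lemma continuous_pt : Continuous pt := (contDiff_ell _ _).continuous

lemma exists_pt {m : V3} (hm : m ∈ equator) : ∃ θ, m = pt θ := by
  rw [equator_iff] at hm
  obtain ⟨h1, h2⟩ := hm
  have hz : ‖(⟨m 0, m 1⟩ : ℂ)‖ = 1 := by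
    rw [Complex.norm_def, Complex.normSq_mk]
    rw [show m 0 * m 0 + m 1 * m 1 = 1 by linarith [h1, sq (m 0), sq (m 1)], Real.sqrt_one]
  refine ⟨Complex.arg ⟨m 0, m 1⟩, ?_⟩
  have hne : (⟨m 0, m 1⟩ : ℂ) ≠ 0 := by
    intro h; rw [h] at hz; simp at hz
  rw [pt_eq]
  ext i; fin_cases i
  · simp [Complex.cos_arg hne, hz]
  · simp [Complex.sin_arg, hz]
  · simp [h2]

lemma inner_pt (θ φ : ℝ) : ⟪pt θ, pt φ⟫ = Real.cos (θ - φ) := by
  rw [inner3, pt_eq, pt_eq, Real.cos_sub]
  simp

lemma angle_pt {θ φ : ℝ} (h : |θ - φ| ≤ Real.pi) :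
    InnerProductGeometry.angle (pt θ) (pt φ) = |θ - φ| := by
  unfold InnerProductGeometry.angle
  rw [inner_pt, (pt_mem θ).1, (pt_mem φ).1, mul_one, div_one, ← Real.cos_abs]
  exact Real.arccos_cos (abs_nonneg _) h

/-- The derivative of the arc of the equator between two angles. -/
def arc (θ₀ θ₁ : ℝ) : L2 V3 :=
  (comp (ell !₂[1, 0, 0] !₂[0, 1, 0]) (contDiff_ell _ _) (θ₁, constL2 (θ₁ - θ₀))).2

lemma path_arc (θ₀ θ₁ : ℝ) (t : unitInterval) :
    path (pt θ₁) (arc θ₀ θ₁) t = pt (θ₁ - (1 - (t : ℝ)) * (θ₁ - θ₀)) := by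
  have h := path_comp (ell (!₂[1, 0, 0] : V3) !₂[0, 1, 0]) (contDiff_ell _ _) θ₁
    (constL2 (θ₁ - θ₀)) t
  rw [path_constL2] at h
  exact h

lemma energy_arc (θ₀ θ₁ : ℝ) : energy (arc θ₀ θ₁) = (θ₁ - θ₀) ^ 2 := by
  have h1 : energy (arc θ₀ θ₁) = ∫ _t : unitInterval, (θ₁ - θ₀) ^ 2 := by
    unfold energy
    apply integral_congr_ae
    filter_upwards [comp_ae (ell (!₂[1, 0, 0] : V3) !₂[0, 1, 0]) (contDiff_ell _ _) θ₁
      (constL2 (θ₁ - θ₀)), constL2_ae (θ₁ - θ₀)] with τ h1 h2
    have h3 : arc θ₀ θ₁ τ = fderiv ℝ (ell (!₂[1, 0, 0] : V3) !₂[0, 1, 0])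
      (path θ₁ (constL2 (θ₁ - θ₀)) τ) (constL2 (θ₁ - θ₀) τ) := h1
    rw [h3, fderiv_ell, h2, norm_smul, mul_pow, Real.norm_eq_abs, sq_abs, normsq3]
    have := Real.sin_sq_add_cos_sq (path θ₁ (constL2 (θ₁ - θ₀)) τ)
    simp [this]
  rw [h1]
  simp

/-- Joining the two components. -/
def join2 (g h : L2 V3) : L2 V6 :=
  lin (pairL.comp (ContinuousLinearMap.inl ℝ V3 V3)) g +
    lin (pairL.comp (ContinuousLinearMap.inr ℝ V3 V3)) h

lemma continuous_join2 : Continuous fun z : L2 V3 × L2 V3 => join2 z.1 z.2 :=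
  ((continuous_lin _).comp continuous_fst).add ((continuous_lin _).comp continuous_snd)

lemma join2_ae (g h : L2 V3) : ∀ᵐ τ, join2 g h τ = pairL (g τ, h τ) := by
  filter_upwards [Lp.coeFn_add (lin (pairL.comp (ContinuousLinearMap.inl ℝ V3 V3)) g)
    (lin (pairL.comp (ContinuousLinearMap.inr ℝ V3 V3)) h),
    lin_ae (pairL.comp (ContinuousLinearMap.inl ℝ V3 V3)) g,
    lin_ae (pairL.comp (ContinuousLinearMap.inr ℝ V3 V3)) h] with τ h1 h2 h3
  unfold join2
  rw [h1, Pi.add_apply, h2, h3, ContinuousLinearMap.comp_apply, ContinuousLinearMap.comp_apply,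
    ← map_add]
  simp

lemma path_join2 (p q : V3) (g h : L2 V3) (t : unitInterval) :
    path (pairL (p, q)) (join2 g h) t = pairL (path p g t, path q h t) := by
  have h1 := path_lin (pairL.comp (ContinuousLinearMap.inl ℝ V3 V3)) p g t
  have h2 := path_lin (pairL.comp (ContinuousLinearMap.inr ℝ V3 V3)) q h t
  have h3 := path_add (pairL.comp (ContinuousLinearMap.inl ℝ V3 V3) p)
    (pairL.comp (ContinuousLinearMap.inr ℝ V3 V3) q)
    (lin (pairL.comp (ContinuousLinearMap.inl ℝ V3 V3)) g)
    (lin (pairL.comp (ContinuousLinearMap.inr ℝ V3 V3)) h) t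
  rw [h1, h2] at h3
  simp only [ContinuousLinearMap.comp_apply] at h3
  rw [← map_add, ← map_add] at h3
  unfold join2
  simpa using h3

/-- First component. -/
def comp1 (g : L2 V6) : L2 V3 := lin (WithLp.fstL 2 ℝ V3 V3) g
/-- Second component. -/
def comp2 (g : L2 V6) : L2 V3 := lin (WithLp.sndL 2 ℝ V3 V3) g

lemma path_comp1 (p : V6) (g : L2 V6) (t : unitInterval) :
    path p.fst (comp1 g) t = (path p g t).fst := path_lin (WithLp.fstL 2 ℝ V3 V3) p g t

lemma path_comp2 (p : V6) (g : L2 V6) (t : unitInterval) :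
    path p.snd (comp2 g) t = (path p g t).snd := path_lin (WithLp.sndL 2 ℝ V3 V3) p g t

lemma join2_comp (g : L2 V6) : join2 (comp1 g) (comp2 g) = g := by
  apply Lp.ext
  filter_upwards [join2_ae (comp1 g) (comp2 g), lin_ae (WithLp.fstL 2 ℝ V3 V3) g,
    lin_ae (WithLp.sndL 2 ℝ V3 V3) g] with τ h1 h2 h3
  have h2' : comp1 g τ = (g τ).fst := h2
  have h3' : comp2 g τ = (g τ).snd := h3
  rw [h1, h2', h3']
  exact pairL_eq _

lemma energy_integrable (g : L2 V3) : Integrable (fun t => ‖g t‖ ^ 2) (volume : Measure unitInterval) :=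
  (Lp.memLp g).integrable_norm_pow (by norm_num)

lemma energy_join2 (g h : L2 V3) : energy (join2 g h) = energy g + energy h := by
  unfold energy
  rw [← integral_add (energy_integrable g) (energy_integrable h)]
  apply integral_congr_ae
  filter_upwards [join2_ae g h] with τ h1
  rw [h1, WithLp.prod_norm_sq_eq_of_L2]
  rfl

/-! ### The path space is path connected -/

lemma finrank_V3 : 3 ≤ Module.finrank ℝ V3 := by simp

lemma norm_npole : ‖npole‖ = 1 := by
  have h := normsq3 npole
  have h2 : ‖npole‖ ^ 2 = 1 ^ 2 := by rw [h]; simp [npole]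
  exact (sq_eq_sq₀ (norm_nonneg _) zero_le_one).mp h2

lemma inner_npole (x : V3) : ⟪x, npole⟫ = x 2 := by
  rw [inner3]; simp [npole]

lemma unst_equator {m : V3} (hm : m ∈ equator) : unst npole m = m := by
  unfold unst
  rw [hm.1]
  norm_num
  rw [smul_smul]
  norm_num

/-- The standard path from `m` to `p` on the sphere. -/
def std (p m : V3) : L2 V3 := (comp (unst npole) (contDiff_unst npole) (p, constL2 (p - m))).2

lemma continuous_std (p : V3) : Continuous (std p) := by
  unfold std
  exact continuous_snd.comp ((continuous_comp _ _).comp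
    (continuous_const.prodMk (continuous_constL2.comp (continuous_const.sub continuous_id))))

lemma path_std {p : V3} (hp : p ∈ equator) (m : V3) (t : unitInterval) :
    path p (std p m) t = unst npole (p - (1 - (t : ℝ)) • (p - m)) := by
  have h := path_comp (unst npole) (contDiff_unst npole) p (constL2 (p - m)) t
  have h1 : (comp (unst npole) (contDiff_unst npole) (p, constL2 (p - m))).1 = p :=
    unst_equator hp
  rw [h1, path_constL2] at h
  exact h

lemma norm_path_std {p m : V3} (hp : p ∈ equator) (hm : m ∈ equator) (t : unitInterval) :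
    ‖path p (std p m) t‖ = 1 := by
  rw [path_std hp]
  apply norm_unst norm_npole
  rw [inner_npole]
  simp [hp.2, hm.2]

lemma path_std_zero {p m : V3} (hp : p ∈ equator) (hm : m ∈ equator) :
    path p (std p m) 0 = m := by
  rw [path_std hp]
  simp [unst_equator hm]

lemma mem_pathSpace {p q : V3} {g h : L2 V3} :
    join2 g h ∈ pathSpace sphereProd diagCircle (pairL (p, q)) ↔
      (∀ t, ‖path p g t‖ = 1) ∧ (∀ t, ‖path q h t‖ = 1) ∧ path p g 0 = path q h 0 ∧
        path p g 0 ∈ equator := by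
  constructor
  · rintro ⟨h1, h2⟩
    rw [path_join2] at h2
    simp only [path_join2] at h1
    exact ⟨fun t => (h1 t).1, fun t => (h1 t).2, h2.1, h2.2⟩
  · rintro ⟨h1, h2, h3, h4⟩
    refine ⟨fun t => ?_, ?_⟩
    · rw [path_join2]; exact ⟨h1 t, h2 t⟩
    · rw [path_join2]; exact ⟨h3, h4⟩

lemma isPathConnected_pathSpace {p q : V3} (hp : p ∈ equator) (hq : q ∈ equator) :
    IsPathConnected (pathSpace sphereProd diagCircle (pairL (p, q))) := by
  set X := pathSpace sphereProd diagCircle (pairL (p, q)) with hX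
  have hstd : ∀ m ∈ equator, join2 (std p m) (std q m) ∈ X := by
    intro m hm
    rw [hX, mem_pathSpace]
    refine ⟨norm_path_std hp hm, norm_path_std hq hm, ?_, ?_⟩
    · rw [path_std_zero hp hm, path_std_zero hq hm]
    · rw [path_std_zero hp hm]; exact hm
  have step1 : ∀ g ∈ X, ∃ m ∈ equator, JoinedIn X g (join2 (std p m) (std q m)) := by
    intro g hg
    rw [← join2_comp g] at hg ⊢
    obtain ⟨h1, h2, h3, h4⟩ := mem_pathSpace.mp hg
    set g1 := comp1 g
    set g2 := comp2 g
    set m := path p g1 0 with hm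
    refine ⟨m, h4, ?_⟩
    obtain ⟨γ1, k1⟩ := joined_rel finrank_V3 h1 (norm_path_std hp h4)
      (by rw [path_std_zero hp h4])
    obtain ⟨γ2, k2⟩ := joined_rel finrank_V3 h2 (norm_path_std hq h4)
      (by rw [path_std_zero hq h4, h3])
    refine ⟨(γ1.prod γ2).map continuous_join2, fun t => ?_⟩
    have e : (γ1.prod γ2).map continuous_join2 t = join2 (γ1 t) (γ2 t) := rfl
    rw [e, hX, mem_pathSpace]
    refine ⟨(k1 t).1, (k2 t).1, ?_, ?_⟩
    · rw [(k1 t).2, (k2 t).2, ← h3]
    · rw [(k1 t).2]; exact h4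
  have step2 : ∀ m ∈ equator, JoinedIn X (join2 (std p m) (std q m))
      (join2 (std p (pt 0)) (std q (pt 0))) := by
    intro m hm
    obtain ⟨θ, rfl⟩ := exists_pt hm
    refine JoinedIn.ofLine (f := fun s : ℝ => join2 (std p (pt ((1 - s) * θ)))
      (std q (pt ((1 - s) * θ)))) ?_ (by simp) (by simp) ?_
    · apply Continuous.continuousOn
      have hc : Continuous fun s : ℝ => pt ((1 - s) * θ) := continuous_pt.comp (by fun_prop)
      exact continuous_join2.comp (((continuous_std p).comp hc).prodMk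
        ((continuous_std q).comp hc))
    · rintro _ ⟨s, -, rfl⟩
      exact hstd _ (pt_mem _)
  refine ⟨join2 (std p (pt 0)) (std q (pt 0)), hstd _ (pt_mem 0), fun {g} hg => ?_⟩
  obtain ⟨m, hm, h1⟩ := step1 g hg
  exact (h1.trans (step2 m hm)).symm

/-! ### Two local minima -/

/-- The minimal geodesic. -/
def geo0 : L2 V6 := join2 (arc 0 (-(Real.pi / 4))) (arc 0 (Real.pi / 4))

/-- The other geodesic. -/
def geo1 : L2 V6 := join2 (arc Real.pi (2 * Real.pi - Real.pi / 4)) (arc Real.pi (Real.pi / 4))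

/-- The end point. -/
def endPt : V6 := pairL (pt (-(Real.pi / 4)), pt (Real.pi / 4))

lemma pt_period : pt (2 * Real.pi - Real.pi / 4) = pt (-(Real.pi / 4)) := by
  rw [pt_eq, pt_eq]
  rw [show 2 * Real.pi - Real.pi / 4 = -(Real.pi / 4) + 2 * Real.pi by ring, Real.cos_add_two_pi,
    Real.sin_add_two_pi]

lemma geo0_mem : geo0 ∈ pathSpace sphereProd diagCircle endPt := by
  unfold geo0 endPt
  rw [mem_pathSpace]
  refine ⟨fun t => ?_, fun t => ?_, ?_, ?_⟩
  · rw [path_arc]; exact (pt_mem _).1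
  · rw [path_arc]; exact (pt_mem _).1
  · rw [path_arc, path_arc]; simp
  · rw [path_arc]; exact pt_mem _

lemma geo1_mem : geo1 ∈ pathSpace sphereProd diagCircle endPt := by
  unfold geo1 endPt
  rw [← pt_period, mem_pathSpace]
  refine ⟨fun t => ?_, fun t => ?_, ?_, ?_⟩
  · rw [path_arc]; exact (pt_mem _).1
  · rw [path_arc]; exact (pt_mem _).1
  · rw [path_arc, path_arc]; simp
  · rw [path_arc]; exact pt_mem _

lemma energy_geo0 : energy geo0 = 2 * (Real.pi / 4) ^ 2 := by
  unfold geo0
  rw [energy_join2, energy_arc, energy_arc]; ring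

lemma energy_geo1 : energy geo1 = 2 * (3 * Real.pi / 4) ^ 2 := by
  unfold geo1
  rw [energy_join2, energy_arc, energy_arc]; ring

lemma energy_ge {g : L2 V6} (hg : g ∈ pathSpace sphereProd diagCircle endPt) :
    (InnerProductGeometry.angle (path endPt g 0).fst (pt (-(Real.pi / 4))) +
      InnerProductGeometry.angle (path endPt g 0).fst (pt (Real.pi / 4))) ^ 2 / 2 ≤ energy g := by
  have h1 := angle_sq_le (pt (-(Real.pi / 4))) (comp1 g) (fun t => by
    rw [show pt (-(Real.pi / 4)) = endPt.fst from rfl, path_comp1]; exact (hg.1 t).1)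
  have h2 := angle_sq_le (pt (Real.pi / 4)) (comp2 g) (fun t => by
    rw [show pt (Real.pi / 4) = endPt.snd from rfl, path_comp2]; exact (hg.1 t).2)
  have e1 : path (pt (-(Real.pi / 4))) (comp1 g) 0 = (path endPt g 0).fst := path_comp1 endPt g 0
  have e2 : path (pt (Real.pi / 4)) (comp2 g) 0 = (path endPt g 0).fst := by
    rw [hg.2.1]; exact path_comp2 endPt g 0
  rw [e1] at h1
  rw [e2] at h2
  rw [← join2_comp g, energy_join2, energy_eq, energy_eq, join2_comp]
  set A := InnerProductGeometry.angle (path endPt g 0).fst (pt (-(Real.pi / 4)))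
  set B := InnerProductGeometry.angle (path endPt g 0).fst (pt (Real.pi / 4))
  nlinarith [sq_nonneg (A - B)]

lemma geo0_min {g : L2 V6} (hg : g ∈ pathSpace sphereProd diagCircle endPt) :
    energy geo0 ≤ energy g := by
  refine le_trans ?_ (energy_ge hg)
  rw [energy_geo0]
  have h1 := InnerProductGeometry.angle_le_angle_add_angle (pt (-(Real.pi / 4)))
    (path endPt g 0).fst (pt (Real.pi / 4))
  have hπ := Real.pi_pos
  rw [angle_pt (by rw [abs_of_neg (by linarith)]; linarith), InnerProductGeometry.angle_comm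
    (pt (-(Real.pi / 4))), abs_of_neg (by linarith)] at h1
  set A := InnerProductGeometry.angle (path endPt g 0).fst (pt (-(Real.pi / 4)))
  set B := InnerProductGeometry.angle (path endPt g 0).fst (pt (Real.pi / 4))
  have h2 : Real.pi / 2 ≤ A + B := by linarith
  have h3 : (Real.pi / 2) ^ 2 ≤ (A + B) ^ 2 := by gcongr
  nlinarith

lemma geo1_min {g : L2 V6} (hg : g ∈ pathSpace sphereProd diagCircle endPt)
    (hloc : (path endPt g 0).fst 0 < -(Real.sqrt 2 / 2)) : energy geo1 ≤ energy g := by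
  refine le_trans ?_ (energy_ge hg)
  rw [energy_geo1]
  set m := (path endPt g 0).fst with hm
  have hme : m ∈ equator := ⟨hg.2.2.1, hg.2.2.2⟩
  obtain ⟨h1, h2⟩ := (equator_iff m).mp hme
  have hπ := Real.pi_pos
  have hs2 : Real.sqrt 2 ^ 2 = 2 := Real.sq_sqrt (by norm_num)
  have hs0 : 0 < Real.sqrt 2 := Real.sqrt_pos.mpr (by norm_num)
  have hm0 : m 0 ^ 2 > 1 / 2 := by nlinarith
  have hm1 : m 1 ^ 2 < (Real.sqrt 2 / 2) ^ 2 := by rw [div_pow, hs2]; linarith
  have habs : |m 1| < Real.sqrt 2 / 2 := abs_lt_of_sq_lt_sq hm1 (by positivity)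
  obtain ⟨ha, hb⟩ := abs_lt.mp habs
  set θ := Real.arcsin (-(m 1)) with hθ
  have hsin : Real.sin θ = -(m 1) := Real.sin_arcsin (by nlinarith) (by nlinarith)
  have hcos : Real.cos θ = -(m 0) := by
    rw [hθ, Real.cos_arcsin, show 1 - (-(m 1)) ^ 2 = (m 0) ^ 2 by linarith, Real.sqrt_sq_eq_abs,
      abs_of_neg (by linarith)]
  have hθ1 : θ ≤ Real.pi / 4 := by
    rw [hθ, Real.arcsin_le_iff_le_sin ⟨by nlinarith, by nlinarith⟩ ⟨by linarith, by linarith⟩,
      Real.sin_pi_div_four]
    linarith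
  have hθ2 : -(Real.pi / 4) ≤ θ := by
    rw [hθ, Real.le_arcsin_iff_sin_le ⟨by linarith, by linarith⟩ ⟨by nlinarith, by nlinarith⟩,
      Real.sin_neg, Real.sin_pi_div_four]
    linarith
  have hmp : m = pt (Real.pi + θ) := by
    rw [pt_eq, add_comm, Real.cos_add_pi, Real.sin_add_pi, hsin, hcos]
    ext i; fin_cases i
    · simp
    · simp
    · simp [h2]
  have hA : InnerProductGeometry.angle m (pt (-(Real.pi / 4))) = 3 * Real.pi / 4 - θ := by
    rw [hmp, ← pt_period, angle_pt]
    · rw [abs_of_nonpos (by linarith)]; ring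
    · rw [abs_of_nonpos (by linarith)]; linarith
  have hB : InnerProductGeometry.angle m (pt (Real.pi / 4)) = 3 * Real.pi / 4 + θ := by
    rw [hmp, angle_pt]
    · rw [abs_of_nonneg (by linarith)]; ring
    · rw [abs_of_nonneg (by linarith)]; linarith
  rw [hA, hB]
  apply le_of_eq; ring

lemma geo1_min_near : ∀ᶠ g in 𝓝 geo1, g ∈ pathSpace sphereProd diagCircle endPt →
    energy geo1 ≤ energy g := by
  have hc : Continuous fun g : L2 V6 => (path endPt g 0).fst 0 := by
    have h1 : Continuous fun g : L2 V6 => evL (endPt, g) 0 :=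
      (continuous_eval_const 0).comp (evL.continuous.comp (Continuous.prodMk_right endPt))
    exact (EuclideanSpace.proj 0 : V3 →L[ℝ] ℝ).continuous.comp
      ((WithLp.fstL 2 ℝ V3 V3).continuous.comp h1)
  have h0 : (path endPt geo1 0).fst 0 < -(Real.sqrt 2 / 2) := by
    have e : (path endPt geo1 0).fst = pt Real.pi := by
      unfold geo1 endPt
      rw [← pt_period, path_join2, pairL_fst]
      dsimp only
      rw [path_arc]
      simp
    rw [e, pt_eq]
    have hs : Real.sqrt 2 < 2 := by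
      rw [Real.sqrt_lt' (by norm_num)]; norm_num
    simp
    linarith
  filter_upwards [(isOpen_lt hc continuous_const).mem_nhds h0] with g hg hX
  exact geo1_min hX hg

lemma not_isPerfect (F : Type) [Field F] : ¬ IsPerfect F sphereProd diagCircle endPt := by
  intro h
  have h1 := h 0
  have hpc : PathConnectedSpace (pathSpace sphereProd diagCircle endPt) :=
    isPathConnected_iff_pathConnectedSpace.mp (isPathConnected_pathSpace (pt_mem _) (pt_mem _))
  rw [betti_zero, encard_eq_one] at h1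
  obtain ⟨g, hg⟩ := h1
  have m0 : geo0 ∈ ({g} : Set (L2 V6)) := by
    rw [← hg]
    refine ⟨isCriticalPoint_of_min geo0_mem ?_, index_of_min ?_⟩
    · filter_upwards with g hg; exact geo0_min hg
    · filter_upwards with g hg; exact geo0_min hg
  have m1 : geo1 ∈ ({g} : Set (L2 V6)) := by
    rw [← hg]
    exact ⟨isCriticalPoint_of_min geo1_mem geo1_min_near, index_of_min geo1_min_near⟩
  have h2 : geo0 = geo1 := by
    rw [mem_singleton_iff.mp m0, mem_singleton_iff.mp m1]
  have h3 := energy_geo0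
  rw [h2, energy_geo1] at h3
  have := Real.pi_pos
  nlinarith

lemma endPt_mem : endPt ∈ sphereProd := ⟨(pt_mem _).1, (pt_mem _).1⟩

lemma not_isFocal_endPt : ¬ IsFocal sphereProd diagCircle endPt := by
  have hs : 0 < Real.sqrt 2 / 2 := by positivity
  refine not_isFocal (p := endPt) (pt_mem (-(Real.pi / 4))).2 (pt_mem (Real.pi / 4)).2 ?_ ?_
  · intro h
    have h1 := congrArg (fun x : V3 => x 1) h
    simp only [endPt, pairL_fst, pairL_snd, pt_eq] at h1
    simp [Real.sin_pi_div_four] at h1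
    linarith
  · intro h
    have h1 := congrArg (fun x : V3 => x 0) h
    simp only [endPt, pairL_fst, pairL_snd, pt_eq] at h1
    simp [Real.cos_pi_div_four] at h1
    linarith

/-- The circle is not taut in the product of spheres. -/
lemma not_isTaut : ¬ IsTaut sphereProd diagCircle := by
  rintro ⟨F, _, h⟩
  exact not_isPerfect F (h endPt endPt_mem not_isFocal_endPt)

end Pool.Agent.Helper10.Taut
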