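import Pool.Agent.Helper10.Taut.H1

open MeasureTheory Set Filter Topology
open scoped ENNReal NNReal RealInnerProductSpace

set_option linter.unusedSectionVars false

noncomputable section

namespace Pool.Agent.Helper10.Taut

variable {V : Type} [NormedAddCommGroup V] [InnerProductSpace ℝ V] [FiniteDimensional ℝ V]

/-! ### A rectifiable path misses some directions -/

lemma dimH_cone (p : V) (g : L2 V) :
    dimH {v : V | ∃ (r : ℝ) (t : unitInterval), v = r • path p g t} ≤ 2 := by
  classical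
  have hinv : ∃ τ : ℝ → unitInterval, ∀ t, len g (τ (len g t)) = len g t :=
    ⟨Function.invFun (len g), fun t => Function.invFun_eq ⟨t, rfl⟩⟩
  obtain ⟨τ, hτ⟩ := hinv
  obtain ⟨C, hC⟩ : ∃ C, ∀ t, ‖path p g t‖ ≤ C := ⟨_, fun t => norm_path_le p g t⟩
  have hC0 : 0 ≤ C := (norm_nonneg _).trans (hC 0)
  set S : Set (ℝ × ℝ) := univ ×ˢ range (len g) with hS
  set f : ℝ × ℝ → V := fun z => z.1 • path p g (τ z.2) with hf
  have himg : {v : V | ∃ (r : ℝ) (t : unitInterval), v = r • path p g t} ⊆ f '' S := by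
    rintro v ⟨r, t, rfl⟩
    refine ⟨(r, len g t), ⟨trivial, t, rfl⟩, ?_⟩
    simp only [hf]
    congr 1
    have h1 := dist_path_le_abs p g (τ (len g t)) t
    rw [hτ, sub_self, abs_zero] at h1
    exact sub_eq_zero.mp (norm_le_zero_iff.mp h1)
  refine (dimH_mono himg).trans ?_
  have h2 : dimH (f '' S) ≤ dimH S := by
    apply dimH_image_le_of_locally_lipschitzOn
    rintro ⟨r0, y0⟩ ⟨-, t0, ht0⟩
    refine ⟨⟨C + |r0| + 1, by positivity⟩, S ∩ {z | |z.1 - r0| < 1}, ?_, ?_⟩
    · apply inter_mem self_mem_nhdsWithin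
      apply mem_nhdsWithin_of_mem_nhds
      apply IsOpen.mem_nhds
      · exact isOpen_lt (by fun_prop) continuous_const
      · simp
    · apply LipschitzOnWith.of_dist_le_mul
      rintro ⟨r, y⟩ ⟨⟨-, t, rfl⟩, hr⟩ ⟨r', y'⟩ ⟨⟨-, t', rfl⟩, hr'⟩
      simp only [hf, mem_ofPred_eq] at hr hr' ⊢
      have hb : |r'| ≤ |r0| + 1 := by
        have := abs_sub_abs_le_abs_sub r' r0
        linarith
      have e1 : r • path p g (τ (len g t)) - r' • path p g (τ (len g t')) =
          (r - r') • path p g (τ (len g t)) +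
          r' • (path p g (τ (len g t)) - path p g (τ (len g t'))) := by
        rw [sub_smul, smul_sub]; abel
      have e2 : ‖path p g (τ (len g t)) - path p g (τ (len g t'))‖ ≤ |len g t - len g t'| := by
        have := dist_path_le_abs p g (τ (len g t)) (τ (len g t'))
        rwa [hτ, hτ] at this
      have d1 : |r - r'| ≤ dist (r, len g t) (r', len g t') := by
        rw [Prod.dist_eq]; exact le_max_left _ _
      have d2 : |len g t - len g t'| ≤ dist (r, len g t) (r', len g t') := by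
        rw [Prod.dist_eq]; exact le_max_right _ _
      rw [dist_eq_norm, e1]
      calc ‖(r - r') • path p g (τ (len g t)) +
          r' • (path p g (τ (len g t)) - path p g (τ (len g t')))‖
          ≤ |r - r'| * C + |r'| * |len g t - len g t'| := by
            refine (norm_add_le _ _).trans ?_
            rw [norm_smul, norm_smul, Real.norm_eq_abs, Real.norm_eq_abs]
            gcongr
            exact hC _
        _ ≤ dist (r, len g t) (r', len g t') * C +
            (|r0| + 1) * dist (r, len g t) (r', len g t') := by gcongr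
        _ = (C + |r0| + 1) * dist (r, len g t) (r', len g t') := by ring
  refine h2.trans ((dimH_mono (subset_univ S)).trans ?_)
  rw [Real.dimH_univ_eq_finrank]
  simp

/-- Two `H¹` paths in a space of dimension at least three miss a common direction. -/
lemma exists_missed (hV : 3 ≤ Module.finrank ℝ V) (p p' : V) (g g' : L2 V) :
    ∃ q : V, ‖q‖ = 1 ∧ (∀ t, path p g t ≠ q) ∧ (∀ t, path p' g' t ≠ q) := by
  set K := {v : V | ∃ (r : ℝ) (t : unitInterval), v = r • path p g t} ∪
    {v : V | ∃ (r : ℝ) (t : unitInterval), v = r • path p' g' t} with hK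
  have h1 : dimH K < Module.finrank ℝ V := by
    rw [hK, dimH_union]
    refine lt_of_le_of_lt (max_le (dimH_cone p g) (dimH_cone p' g')) ?_
    have : (2 : ℝ≥0∞) < 3 := by norm_num
    refine this.trans_le ?_
    exact_mod_cast hV
  have h2 : Dense Kᶜ := dense_compl_of_dimH_lt_finrank h1
  obtain ⟨v, hv⟩ := h2.nonempty
  have hv0 : v ≠ 0 := by
    rintro rfl
    exact hv (Or.inl ⟨0, 0, by simp⟩)
  have hn : ‖v‖ ≠ 0 := norm_ne_zero_iff.mpr hv0
  refine ⟨‖v‖⁻¹ • v, ?_, ?_, ?_⟩
  · rw [norm_smul, norm_inv, norm_norm, inv_mul_cancel₀ hn]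
  · intro t ht
    apply hv
    refine Or.inl ⟨‖v‖, t, ?_⟩
    rw [ht, smul_smul, mul_inv_cancel₀ hn, one_smul]
  · intro t ht
    apply hv
    refine Or.inr ⟨‖v‖, t, ?_⟩
    rw [ht, smul_smul, mul_inv_cancel₀ hn, one_smul]

/-! ### Stereographic projection -/

/-- The inverse of the stereographic projection from `q`. -/
def unst (q w : V) : V := (‖w‖ ^ 2 + 1)⁻¹ • ((2 : ℝ) • w + (‖w‖ ^ 2 - 1) • q)

lemma contDiff_unst (q : V) : ContDiff ℝ 1 (unst q) := by
  unfold unst
  apply ContDiff.smul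
  · apply ContDiff.inv
    · exact (contDiff_id.norm_sq ℝ).add contDiff_const
    · intro x; positivity
  · apply ContDiff.add
    · exact contDiff_const.smul contDiff_id
    · exact ((contDiff_id.norm_sq ℝ).sub contDiff_const).smul contDiff_const

lemma norm_unst {q w : V} (hq : ‖q‖ = 1) (hw : ⟪w, q⟫ = 0) : ‖unst q w‖ = 1 := by
  have h : ‖(2 : ℝ) • w + (‖w‖ ^ 2 - 1) • q‖ ^ 2 = (‖w‖ ^ 2 + 1) ^ 2 := by
    rw [norm_add_sq_real, norm_smul, norm_smul, inner_smul_left, inner_smul_right, hw, hq]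
    simp only [Real.norm_eq_abs, mul_pow, sq_abs]
    ring
  have h2 : ‖(2 : ℝ) • w + (‖w‖ ^ 2 - 1) • q‖ = ‖w‖ ^ 2 + 1 := by
    rw [← sq_eq_sq₀ (norm_nonneg _) (by positivity)]
    exact h
  unfold unst
  rw [norm_smul, h2, norm_inv, Real.norm_eq_abs, abs_of_pos (by positivity)]
  exact inv_mul_cancel₀ (by positivity)

/-- A smooth function which agrees with `y⁻¹` for `y ≥ δ`. -/
def cutInv (δ : ℝ) (y : ℝ) : ℝ := Real.smoothTransition (2 / δ * y - 1) * y⁻¹

lemma cutInv_eq {δ y : ℝ} (hδ : 0 < δ) (hy : δ ≤ y) : cutInv δ y = y⁻¹ := by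
  unfold cutInv
  rw [Real.smoothTransition.one_of_one_le, one_mul]
  have : 2 / δ * δ ≤ 2 / δ * y := by gcongr
  rw [div_mul_cancel₀ _ hδ.ne'] at this
  linarith

lemma contDiff_cutInv {δ : ℝ} (hδ : 0 < δ) : ContDiff ℝ 1 (cutInv δ) := by
  rw [contDiff_iff_contDiffAt]
  intro y
  rcases eq_or_ne y 0 with rfl | hy
  · have : cutInv δ =ᶠ[𝓝 0] fun _ => 0 := by
      filter_upwards [gt_mem_nhds (show (0 : ℝ) < δ / 2 by positivity)] with y hy
      unfold cutInv
      rw [Real.smoothTransition.zero_of_nonpos, zero_mul]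
      have : 2 / δ * y ≤ 2 / δ * (δ / 2) := by gcongr
      have h3 : 2 / δ * (δ / 2) = 1 := by field_simp
      linarith
    exact contDiffAt_const.congr_of_eventuallyEq this
  · apply ContDiffAt.mul
    · exact (Real.smoothTransition.contDiff (n := 1)).contDiffAt.comp y (by fun_prop)
    · exact contDiffAt_inv ℝ hy

/-- The stereographic projection from `q`, cut off near `q`. -/
def ste (δ : ℝ) (q x : V) : V := cutInv δ (1 - ⟪x, q⟫) • (x - ⟪x, q⟫ • q)

lemma contDiff_ste {δ : ℝ} (hδ : 0 < δ) (q : V) : ContDiff ℝ 1 (ste δ q) := by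
  unfold ste
  have h1 : ContDiff ℝ 1 fun x : V => ⟪x, q⟫ := contDiff_id.inner ℝ contDiff_const
  apply ContDiff.smul
  · exact (contDiff_cutInv hδ).comp (contDiff_const.sub h1)
  · exact contDiff_id.sub (h1.smul contDiff_const)

lemma inner_ste {δ : ℝ} {q : V} (hq : ‖q‖ = 1) (x : V) : ⟪ste δ q x, q⟫ = 0 := by
  unfold ste
  rw [inner_smul_left, inner_sub_left, inner_smul_left, real_inner_self_eq_norm_sq, hq]
  simp

lemma unst_ste {δ : ℝ} (hδ : 0 < δ) {q x : V} (hq : ‖q‖ = 1) (hx : ‖x‖ = 1)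
    (h : δ ≤ 1 - ⟪x, q⟫) : unst q (ste δ q x) = x := by
  have hc : 0 < 1 - ⟪x, q⟫ := hδ.trans_le h
  have h1 : ‖x - ⟪x, q⟫ • q‖ ^ 2 = 1 - ⟪x, q⟫ ^ 2 := by
    rw [norm_sub_sq_real, norm_smul, inner_smul_right, hx, hq, Real.norm_eq_abs]
    rw [mul_pow, sq_abs]; ring
  have h2 : ‖ste δ q x‖ ^ 2 = (1 + ⟪x, q⟫) / (1 - ⟪x, q⟫) := by
    unfold ste
    rw [norm_smul, mul_pow, h1, cutInv_eq hδ h, norm_inv, Real.norm_eq_abs, inv_pow, sq_abs]
    field_simp
    ring
  unfold unst
  rw [h2]
  unfold ste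
  rw [cutInv_eq hδ h]
  set c := ⟪x, q⟫
  have h3 : ((1 + c) / (1 - c) + 1)⁻¹ = (1 - c) / 2 := by
    field_simp; ring
  have h4 : (1 + c) / (1 - c) - 1 = 2 * c / (1 - c) := by
    field_simp; ring
  rw [h3, h4, smul_add, smul_smul, smul_smul, smul_smul]
  have h5 : (1 - c) / 2 * 2 * (1 - c)⁻¹ = 1 := by field_simp
  have h6 : (1 - c) / 2 * (2 * c / (1 - c)) = c := by field_simp
  rw [h5, h6]
  simp

lemma exists_delta {p : V} {g : L2 V} {q : V} (hq : ‖q‖ = 1) (hg : ∀ t, ‖path p g t‖ = 1)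
    (hne : ∀ t, path p g t ≠ q) : ∃ δ > 0, ∀ t, δ ≤ 1 - ⟪path p g t, q⟫ := by
  have hc : Continuous fun t => 1 - ⟪path p g t, q⟫ :=
    continuous_const.sub ((continuous_path p g).inner continuous_const)
  obtain ⟨t0, -, ht0⟩ := isCompact_univ.exists_isMinOn univ_nonempty hc.continuousOn
  refine ⟨1 - ⟪path p g t0, q⟫, ?_, fun t => ht0 (mem_univ t)⟩
  have := (inner_lt_one_iff_real_of_norm_eq_one (hg t0) hq).mpr (hne t0)
  linarith

lemma path_combo (x y : V × L2 V) (a b : ℝ) (t : unitInterval) :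
    path (a • x + b • y).1 (a • x + b • y).2 t = a • path x.1 x.2 t + b • path y.1 y.2 t := by
  have h := congrArg (fun f : C(unitInterval, V) => f t)
    (show evL (a • x + b • y) = a • evL x + b • evL y by rw [map_add, map_smul, map_smul])
  exact h

/-- Two `H¹` paths on a sphere with the same end points are joined by a continuous family of
such paths. -/
lemma joined_rel (hV : 3 ≤ Module.finrank ℝ V) {p : V} {g g' : L2 V}
    (hg : ∀ t, ‖path p g t‖ = 1) (hg' : ∀ t, ‖path p g' t‖ = 1)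
    (h0 : path p g 0 = path p g' 0) :
    JoinedIn {h : L2 V | (∀ t, ‖path p h t‖ = 1) ∧ path p h 0 = path p g 0} g g' := by
  obtain ⟨q, hq, hm, hm'⟩ := exists_missed hV p p g g'
  obtain ⟨δ1, hδ1, hd1⟩ := exists_delta hq hg hm
  obtain ⟨δ2, hδ2, hd2⟩ := exists_delta hq hg' hm'
  set δ := min δ1 δ2 with hδdef
  have hδ : 0 < δ := lt_min hδ1 hδ2
  have hd : ∀ t, δ ≤ 1 - ⟪path p g t, q⟫ := fun t => (min_le_left _ _).trans (hd1 t)
  have hd' : ∀ t, δ ≤ 1 - ⟪path p g' t, q⟫ := fun t => (min_le_right _ _).trans (hd2 t)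
  set W := comp (ste δ q) (contDiff_ste hδ q) (p, g) with hW
  set W' := comp (ste δ q) (contDiff_ste hδ q) (p, g') with hW'
  have hWp : ∀ t, path W.1 W.2 t = ste δ q (path p g t) := path_comp _ _ p g
  have hWp' : ∀ t, path W'.1 W'.2 t = ste δ q (path p g' t) := path_comp _ _ p g'
  set Φ : ℝ → V × L2 V := fun s => comp (unst q) (contDiff_unst q) ((1 - s) • W + s • W') with hΦ
  have hΦc : Continuous Φ := by
    refine (continuous_comp _ _).comp ?_
    fun_prop
  have hp : ‖p‖ = 1 := by simpa [path_one] using hg 1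
  have hΦ1 : ∀ s, (Φ s).1 = p := by
    intro s
    have e1 : ((1 - s) • W + s • W').1 = ste δ q p := by
      simp only [hW, hW', comp, Prod.fst_add, Prod.smul_fst]
      rw [← add_smul]; simp
    have e2 : (Φ s).1 = unst q ((1 - s) • W + s • W').1 := rfl
    rw [e2, e1]
    exact unst_ste hδ hq hp (by simpa [path_one] using hd 1)
  have hΦp : ∀ s t, path p (Φ s).2 t =
      unst q ((1 - s) • ste δ q (path p g t) + s • ste δ q (path p g' t)) := by
    intro s t
    have e1 := path_comp (unst q) (contDiff_unst q) ((1 - s) • W + s • W').1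
      ((1 - s) • W + s • W').2 t
    rw [path_combo, hWp, hWp'] at e1
    rw [← e1]
    have e3 := hΦ1 s
    simp only [hΦ] at e3 ⊢
    rw [e3]
  have hin : ∀ s, (Φ s).2 ∈ {h : L2 V | (∀ t, ‖path p h t‖ = 1) ∧ path p h 0 = path p g 0} := by
    intro s
    constructor
    · intro t
      rw [hΦp]
      apply norm_unst hq
      rw [inner_add_left, inner_smul_left, inner_smul_left, inner_ste hq, inner_ste hq]
      simp
    · rw [hΦp, ← h0, ← add_smul]
      simp only [sub_add_cancel, one_smul]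
      exact unst_ste hδ hq (hg 0) (hd 0)
  refine JoinedIn.ofLine (f := fun s => (Φ s).2) (continuous_snd.comp hΦc).continuousOn ?_ ?_ ?_
  · refine (path_injective (p := p) (p' := p) fun t => ?_).2
    rw [hΦp]
    simp only [sub_zero, one_smul, zero_smul, add_zero]
    exact unst_ste hδ hq (hg t) (hd t)
  · refine (path_injective (p := p) (p' := p) fun t => ?_).2
    rw [hΦp]
    simp only [sub_self, one_smul, zero_smul, zero_add]
    exact unst_ste hδ hq (hg' t) (hd' t)
  · rintro _ ⟨s, -, rfl⟩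
    exact hin s

/-! ### Angles and energy -/

lemma angle_local {ε : ℝ} (hε : 0 < ε) (hε1 : ε ≤ 1) :
    ∃ δ > 0, ∀ x y : V, ‖x‖ = 1 → ‖y‖ = 1 → ‖x - y‖ < δ →
      InnerProductGeometry.angle x y ≤ (1 + ε) * ‖x - y‖ := by
  refine ⟨Real.sqrt ε, Real.sqrt_pos.mpr hε, fun x y hx hy hxy => ?_⟩
  set θ := InnerProductGeometry.angle x y with hθ
  have hθ0 : 0 ≤ θ := InnerProductGeometry.angle_nonneg _ _
  have hθπ : θ ≤ Real.pi := InnerProductGeometry.angle_le_pi _ _
  have hcos : Real.cos θ = ⟪x, y⟫ := by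
    rw [hθ, InnerProductGeometry.cos_angle, hx, hy]; simp
  have hnorm : ‖x - y‖ = 2 * Real.sin (θ / 2) := by
    have h1 : ‖x - y‖ ^ 2 = (2 * Real.sin (θ / 2)) ^ 2 := by
      rw [norm_sub_sq_real, hx, hy, ← hcos]
      have h2 := Real.cos_two_mul (θ / 2)
      rw [show 2 * (θ / 2) = θ by ring] at h2
      have h3 := Real.sin_sq_add_cos_sq (θ / 2)
      nlinarith
    have hs : 0 ≤ Real.sin (θ / 2) := Real.sin_nonneg_of_nonneg_of_le_pi (by linarith) (by linarith)
    rw [← sq_eq_sq₀ (norm_nonneg _) (by positivity)]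
    exact h1
  rw [hnorm]
  rcases eq_or_lt_of_le hθ0 with h0 | h0
  · rw [← h0]; simp
  -- Jordan inequality
  have hj : 2 / Real.pi * (θ / 2) ≤ Real.sin (θ / 2) :=
    Real.mul_le_sin (by linarith) (by linarith)
  have hπ : 0 < Real.pi := Real.pi_pos
  have hθb : θ ≤ Real.pi / 2 * ‖x - y‖ := by
    rw [hnorm]
    have h3 : Real.pi / 2 * (2 * (2 / Real.pi * (θ / 2))) = θ := by field_simp
    calc θ = Real.pi / 2 * (2 * (2 / Real.pi * (θ / 2))) := h3.symm
      _ ≤ Real.pi / 2 * (2 * Real.sin (θ / 2)) := by gcongr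
  have hθ2 : θ ≤ 2 * Real.sqrt ε := by
    calc θ ≤ Real.pi / 2 * ‖x - y‖ := hθb
      _ ≤ 2 * Real.sqrt ε := by
        have := Real.pi_le_four
        have h5 : Real.pi / 2 ≤ 2 := by linarith
        have := hxy.le
        gcongr
  have hθsq : θ ^ 2 ≤ 4 * ε := by
    have : θ ^ 2 ≤ (2 * Real.sqrt ε) ^ 2 := by gcongr
    rwa [mul_pow, Real.sq_sqrt hε.le, show (2 : ℝ) ^ 2 = 4 by norm_num] at this
  have hsin : θ / 2 - (θ / 2) ^ 3 / 6 < Real.sin (θ / 2) :=
    Real.sin_gt_sub_cube (by linarith)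
  have h6 : θ * (1 - θ ^ 2 / 24) ≤ 2 * Real.sin (θ / 2) := by nlinarith
  have h7 : 1 ≤ (1 + ε) * (1 - θ ^ 2 / 24) := by nlinarith
  calc θ = θ * 1 := (mul_one _).symm
    _ ≤ θ * ((1 + ε) * (1 - θ ^ 2 / 24)) := by gcongr
    _ = (1 + ε) * (θ * (1 - θ ^ 2 / 24)) := by ring
    _ ≤ (1 + ε) * (2 * Real.sin (θ / 2)) := by gcongr

lemma angle_le_len (p : V) (g : L2 V) (hg : ∀ t, ‖path p g t‖ = 1) :
    InnerProductGeometry.angle (path p g 0) p ≤ len g 0 := by
  have hlen : 0 ≤ len g 0 := integral_nonneg fun _ => norm_nonneg _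
  have key : ∀ ε : ℝ, 0 < ε → ε ≤ 1 →
      InnerProductGeometry.angle (path p g 0) p ≤ (1 + ε) * len g 0 := by
    intro ε hε hε1
    obtain ⟨δ, hδ, hloc⟩ := angle_local (V := V) hε hε1
    have huc : UniformContinuous (path p g) :=
      CompactSpace.uniformContinuous_of_continuous (continuous_path p g)
    obtain ⟨η, hη, hη'⟩ := Metric.uniformContinuous_iff.mp huc δ hδ
    obtain ⟨n, hn⟩ := exists_nat_gt (1 / η)
    have hn0 : (0 : ℝ) < n := lt_trans (by positivity) hn
    have hk : ∀ k : ℕ, k ≤ n → 0 ≤ (k : ℝ) / n ∧ (k : ℝ) / n ≤ 1 := by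
      intro k hk
      refine ⟨by positivity, ?_⟩
      rw [div_le_one hn0]; exact_mod_cast hk
    have ind : ∀ (k : ℕ) (hkn : k ≤ n), InnerProductGeometry.angle (path p g 0)
        (path p g ⟨(k : ℝ) / n, hk k hkn⟩) ≤
        (1 + ε) * (len g 0 - len g ⟨(k : ℝ) / n, hk k hkn⟩) := by
      intro k
      induction k with
      | zero =>
        intro hkn
        have e : (⟨((0 : ℕ) : ℝ) / n, hk 0 hkn⟩ : unitInterval) = 0 := by
          ext; simp
        rw [e, sub_self, mul_zero, InnerProductGeometry.angle_self]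
        intro h
        have := hg 0
        rw [h] at this; simp at this
      | succ k ih =>
        intro hkn
        have ih := ih (by omega)
        set a : unitInterval := ⟨(k : ℝ) / n, hk k (by omega)⟩ with ha
        set b : unitInterval := ⟨((k + 1 : ℕ) : ℝ) / n, hk (k + 1) hkn⟩ with hb
        have hab : a ≤ b := by
          rw [← Subtype.coe_le_coe]
          simp only [ha, hb]
          gcongr; omega
        have hdist : dist a b < η := by
          rw [Subtype.dist_eq, Real.dist_eq]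
          simp only [ha, hb]
          have : (k : ℝ) / n - ((k + 1 : ℕ) : ℝ) / n = -(1 / n) := by
            push_cast; field_simp; ring
          rw [this, abs_neg, abs_of_pos (by positivity)]
          rw [div_lt_iff₀ hn0]
          rw [div_lt_iff₀ hη] at hn
          linarith
        have h1 := hη' hdist
        rw [dist_eq_norm] at h1
        have h2 := hloc _ _ (hg a) (hg b) h1
        have h3 := dist_path_le p g hab
        have h4 := InnerProductGeometry.angle_le_angle_add_angle (path p g 0) (path p g a)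
          (path p g b)
        have h5 : (1 + ε) * ‖path p g a - path p g b‖ ≤ (1 + ε) * (len g a - len g b) := by
          gcongr
        calc _ ≤ _ := h4
          _ ≤ (1 + ε) * (len g 0 - len g a) + (1 + ε) * (len g a - len g b) :=
            add_le_add ih (h2.trans h5)
          _ = _ := by ring
    have := ind n le_rfl
    have e : (⟨(n : ℝ) / n, hk n le_rfl⟩ : unitInterval) = 1 := by
      ext; simp [hn0.ne']
    rw [e, path_one, len_one, sub_zero] at this
    exact this
  by_contra hcon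
  push Not at hcon
  rcases eq_or_lt_of_le hlen with h0 | h0
  · have := key 1 one_pos le_rfl
    rw [← h0] at this hcon
    linarith
  · set A := InnerProductGeometry.angle (path p g 0) p with hA
    have h1 : 0 < A - len g 0 := by linarith
    set ε := min 1 ((A - len g 0) / (2 * len g 0)) with hε
    have hεp : 0 < ε := lt_min one_pos (by positivity)
    have := key ε hεp (min_le_left _ _)
    have h2 : ε * len g 0 ≤ (A - len g 0) / 2 := by
      calc ε * len g 0 ≤ (A - len g 0) / (2 * len g 0) * len g 0 := by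
            gcongr; exact min_le_right _ _
        _ = (A - len g 0) / 2 := by field_simp
    nlinarith

lemma angle_sq_le (p : V) (g : L2 V) (hg : ∀ t, ‖path p g t‖ = 1) :
    InnerProductGeometry.angle (path p g 0) p ^ 2 ≤ ‖g‖ ^ 2 := by
  have h1 := (angle_le_len p g hg).trans (len_zero_le g)
  have h0 : 0 ≤ InnerProductGeometry.angle (path p g 0) p := InnerProductGeometry.angle_nonneg _ _
  gcongr

end Pool.Agent.Helper10.Taut
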