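import Pool.Agent.Helper10.Taut.Facts

open MeasureTheory Set Filter Topology
open scoped ENNReal NNReal RealInnerProductSpace ContDiff

set_option linter.unusedSectionVars false

noncomputable section

namespace Pool.Agent.Helper10.Taut

/-! ### Lifting of paths in the equator -/

/-- The angular form of the equator. -/
def angForm3 : V3 →L[ℝ] (V3 →L[ℝ] ℝ) := (innerSL ℝ).comp rotJ

lemma angForm3_apply (x w : V3) : angForm3 x w = ⟪rotJ x, w⟫ := rfl

/-- The angular velocity of a path. -/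
def ang (p : V3) (g : L2 V3) : L2 ℝ :=
  appL ((⟨angForm3, angForm3.continuous⟩ : C(V3, V3 →L[ℝ] ℝ)).comp (evL (p, g))) g

lemma continuous_ang (p : V3) : Continuous (ang p) := by
  unfold ang
  have h1 : Continuous fun g : L2 V3 =>
      (appL ((⟨angForm3, angForm3.continuous⟩ : C(V3, V3 →L[ℝ] ℝ)).comp (evL (p, g))) :
        L2 V3 →L[ℝ] L2 ℝ) :=
    appL.continuous.comp ((ContinuousMap.continuous_postcomp _).comp
      (evL.continuous.comp (Continuous.prodMk_right p)))
  exact h1.clm_apply continuous_id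

lemma ang_ae (p : V3) (g : L2 V3) : ∀ᵐ τ, ang p g τ = angForm3 (path p g τ) (g τ) :=
  appL_ae _ _

lemma velocity3_ae {p : V3} {g : L2 V3} (hg : ∀ t, path p g t ∈ equator) :
    ∀ᵐ τ, g τ = angForm3 (path p g τ) (g τ) • rotJ (path p g τ) := by
  have h1 : lin (EuclideanSpace.proj 2 : V3 →L[ℝ] ℝ) g = 0 := by
    refine zero_of_path_const (p := (EuclideanSpace.proj 2 : V3 →L[ℝ] ℝ) p) (q := 0)
      fun t => ?_
    rw [path_lin]
    exact (hg t).2
  have h2 := lin_ae (EuclideanSpace.proj 2 : V3 →L[ℝ] ℝ) g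
  rw [h1] at h2
  have hF : ContDiff ℝ 1 fun x : V3 => ‖x‖ ^ 2 := contDiff_id.norm_sq ℝ
  have h3 : (comp (fun x : V3 => ‖x‖ ^ 2) hF (p, g)).2 = 0 := by
    refine zero_of_path_const (p := (comp (fun x : V3 => ‖x‖ ^ 2) hF (p, g)).1) (q := 1)
      fun t => ?_
    rw [path_comp, (hg t).1]; norm_num
  have h4 := comp_ae (fun x : V3 => ‖x‖ ^ 2) hF p g
  rw [h3] at h4
  filter_upwards [h2, h4, Lp.coeFn_zero ℝ 2 (volume : Measure unitInterval)] with τ h2 h4 h5
  rw [h5] at h4 h2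
  have h6 : HasFDerivAt (fun x : V3 => ‖x‖ ^ 2) (2 • innerSL ℝ (path p g τ)) (path p g τ) :=
    (hasStrictFDerivAt_norm_sq (path p g τ)).hasFDerivAt
  rw [h6.fderiv] at h4
  have h7 : (0 : ℝ) = 2 • ⟪path p g τ, g τ⟫ := h4
  have h8 : ⟪g τ, path p g τ⟫ = 0 := by
    rw [real_inner_comm]
    rw [two_smul] at h7
    linarith
  have h9 : (g τ) 2 = 0 := h2.symm
  have h10 := decomp (hg τ) (g τ)
  rw [h8, h9, zero_smul, zero_smul, zero_add, add_zero] at h10
  rw [angForm3_apply, real_inner_comm]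
  exact h10

/-- The inverse rotation of a point by an angle. -/
def unrot3 (z : V3 × ℝ) : V3 := Real.cos z.2 • z.1 - Real.sin z.2 • rotJ z.1

lemma contDiff_unrot3 : ContDiff ℝ 1 unrot3 := by
  unfold unrot3
  exact ((Real.contDiff_cos.comp contDiff_snd).smul contDiff_fst).sub
    ((Real.contDiff_sin.comp contDiff_snd).smul (rotJ.contDiff.comp contDiff_fst))

lemma fderiv_unrot3 (z w : V3 × ℝ) : fderiv ℝ unrot3 z w =
    Real.cos z.2 • w.1 + (-Real.sin z.2 * w.2) • z.1 -
      (Real.sin z.2 • rotJ w.1 + (Real.cos z.2 * w.2) • rotJ z.1) := by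
  have h1 : HasFDerivAt (fun z : V3 × ℝ => z.1) (ContinuousLinearMap.fst ℝ V3 ℝ) z :=
    hasFDerivAt_fst
  have h2 : HasFDerivAt (fun z : V3 × ℝ => z.2) (ContinuousLinearMap.snd ℝ V3 ℝ) z :=
    hasFDerivAt_snd
  have h3 := (h2.cos.smul h1).sub (h2.sin.smul (rotJ.hasFDerivAt.comp z h1))
  have h5 : HasFDerivAt unrot3 _ z := h3
  rw [h5.fderiv]
  rfl

lemma rotJ_rotJ {x : V3} (hx : x ∈ equator) : rotJ (rotJ x) = -x :=
  (frame hx).2.2.2.2.2.2.2.2.2

lemma unrot3_fderiv_zero {x w : V3} (hx : x ∈ equator) (φ : ℝ)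
    (hw : w = angForm3 x w • rotJ x) : fderiv ℝ unrot3 (x, φ) (w, angForm3 x w) = 0 := by
  rw [fderiv_unrot3]
  set ψ := angForm3 x w
  dsimp only
  rw [hw, map_smul, rotJ_rotJ hx]
  module

lemma ell_unrot3 {p x : V3} (hx : x ∈ equator) {φ : ℝ} (h : unrot3 (x, φ) = p) :
    ell p (rotJ p) φ = x := by
  unfold ell
  rw [← h]
  unfold unrot3
  rw [map_sub, map_smul, map_smul, rotJ_rotJ hx]
  have h5 := Real.sin_sq_add_cos_sq φ
  have h6 : Real.cos φ • (Real.cos φ • x - Real.sin φ • rotJ x) +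
    Real.sin φ • (Real.cos φ • rotJ x - Real.sin φ • -x) =
    (Real.sin φ ^ 2 + Real.cos φ ^ 2) • x := by module
  dsimp only
  rw [h6, h5, one_smul]

/-- Pairing of square integrable functions. -/
def pairL3 (g : L2 V3) (ψ : L2 ℝ) : L2 (V3 × ℝ) :=
  lin (ContinuousLinearMap.inl ℝ V3 ℝ) g + lin (ContinuousLinearMap.inr ℝ V3 ℝ) ψ

lemma pairL3_ae (g : L2 V3) (ψ : L2 ℝ) : ∀ᵐ τ, pairL3 g ψ τ = (g τ, ψ τ) := by
  filter_upwards [Lp.coeFn_add (lin (ContinuousLinearMap.inl ℝ V3 ℝ) g)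
    (lin (ContinuousLinearMap.inr ℝ V3 ℝ) ψ), lin_ae (ContinuousLinearMap.inl ℝ V3 ℝ) g,
    lin_ae (ContinuousLinearMap.inr ℝ V3 ℝ) ψ] with τ h1 h2 h3
  unfold pairL3
  rw [h1, Pi.add_apply, h2, h3]
  simp

lemma path_pairL3 (p : V3) (r : ℝ) (g : L2 V3) (ψ : L2 ℝ) (t : unitInterval) :
    path (p, r) (pairL3 g ψ) t = (path p g t, path r ψ t) := by
  have h1 := path_lin (ContinuousLinearMap.inl ℝ V3 ℝ) p g t
  have h2 := path_lin (ContinuousLinearMap.inr ℝ V3 ℝ) r ψ t
  have h3 := path_add (ContinuousLinearMap.inl ℝ V3 ℝ p) (ContinuousLinearMap.inr ℝ V3 ℝ r)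
    (lin (ContinuousLinearMap.inl ℝ V3 ℝ) g) (lin (ContinuousLinearMap.inr ℝ V3 ℝ) ψ) t
  rw [h1, h2] at h3
  simp at h3
  exact h3

lemma lift3 {p : V3} {g : L2 V3} (hg : ∀ t, path p g t ∈ equator) (t : unitInterval) :
    ell p (rotJ p) (path 0 (ang p g) t) = path p g t := by
  have hu : ∀ t, path (comp unrot3 contDiff_unrot3 ((p, 0), pairL3 g (ang p g))).1
      (comp unrot3 contDiff_unrot3 ((p, 0), pairL3 g (ang p g))).2 t =
      unrot3 (path p g t, path 0 (ang p g) t) := by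
    intro t
    rw [path_comp, path_pairL3]
  have h0 : (comp unrot3 contDiff_unrot3 ((p, 0), pairL3 g (ang p g))).2 = 0 := by
    rw [Lp.eq_zero_iff_ae_eq_zero]
    filter_upwards [comp_ae unrot3 contDiff_unrot3 (p, 0) (pairL3 g (ang p g)),
      pairL3_ae g (ang p g), ang_ae p g, velocity3_ae hg] with τ h1 h2 h3 h4
    rw [h1, h2, path_pairL3, h3]
    exact unrot3_fderiv_zero (hg τ) _ h4
  apply ell_unrot3 (hg t)
  rw [← hu t, h0, path_zero]
  simp [comp, unrot3]

lemma ell_pt (α φ : ℝ) : ell (pt α) (rotJ (pt α)) φ = pt (α + φ) := by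
  unfold ell
  rw [pt_eq, pt_eq, Real.cos_add, Real.sin_add]
  ext i; fin_cases i
  · simp; ring
  · simp; ring
  · simp

/-- The path in the equator ending at `pt α` with angular velocity `ψ`. -/
def cp (α : ℝ) (ψ : L2 ℝ) : L2 V3 :=
  (comp (ell (pt α) (rotJ (pt α))) (contDiff_ell _ _) (0, ψ)).2

lemma path_cp (α : ℝ) (ψ : L2 ℝ) (t : unitInterval) :
    path (pt α) (cp α ψ) t = pt (α + path 0 ψ t) := by
  have h := path_comp (ell (pt α) (rotJ (pt α))) (contDiff_ell _ _) 0 ψ t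
  have h1 : (comp (ell (pt α) (rotJ (pt α))) (contDiff_ell _ _) (0, ψ)).1 = pt α := by
    change ell (pt α) (rotJ (pt α)) 0 = pt α
    rw [ell_pt, add_zero]
  rw [h1, ell_pt] at h
  exact h

lemma continuous_cp (α : ℝ) : Continuous (cp α) :=
  continuous_snd.comp ((continuous_comp _ _).comp (Continuous.prodMk_right 0))

lemma cp_ang {α : ℝ} {g : L2 V3} (hg : ∀ t, path (pt α) g t ∈ equator) :
    cp α (ang (pt α) g) = g := by
  refine (path_injective (p := pt α) (p' := pt α) fun t => ?_).2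
  rw [path_cp, ← ell_pt, lift3 hg]

lemma ang_cp (α : ℝ) (ψ : L2 ℝ) : ang (pt α) (cp α ψ) = ψ := by
  apply Lp.ext
  filter_upwards [ang_ae (pt α) (cp α ψ),
    comp_ae (ell (pt α) (rotJ (pt α))) (contDiff_ell _ _) 0 ψ] with τ h1 h2
  have h3 : cp α ψ τ = fderiv ℝ (ell (pt α) (rotJ (pt α))) (path 0 ψ τ) (ψ τ) := h2
  rw [h1, path_cp, h3, fderiv_ell, angForm3_apply]
  obtain ⟨f1, f2, -, f4, f5, -, -, -, -, f10⟩ := frame (pt_mem α)
  have e : rotJ (pt (α + path 0 ψ τ)) = (-Real.sin (path 0 ψ τ)) • pt α +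
      Real.cos (path 0 ψ τ) • rotJ (pt α) := by
    rw [← ell_pt]
    unfold ell
    rw [map_add, map_smul, map_smul, f10]
    module
  rw [← e, inner_smul_right, (frame (pt_mem (α + path 0 ψ τ))).2.1, mul_one]

lemma energy_cp (α : ℝ) (ψ : L2 ℝ) : energy (cp α ψ) = ‖ψ‖ ^ 2 := by
  rw [← energy_eq]
  unfold energy
  apply integral_congr_ae
  filter_upwards [comp_ae (ell (pt α) (rotJ (pt α))) (contDiff_ell _ _) 0 ψ] with τ h2
  have h3 : cp α ψ τ = fderiv ℝ (ell (pt α) (rotJ (pt α))) (path 0 ψ τ) (ψ τ) := h2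
  rw [h3, fderiv_ell]
  obtain ⟨f1, f2, -, f4, f5, -, -, -, -, f10⟩ := frame (pt_mem α)
  have e : rotJ (pt (α + path 0 ψ τ)) = (-Real.sin (path 0 ψ τ)) • pt α +
      Real.cos (path 0 ψ τ) • rotJ (pt α) := by
    rw [← ell_pt]
    unfold ell
    rw [map_add, map_smul, map_smul, f10]
    module
  rw [← e, norm_smul, mul_pow, ← real_inner_self_eq_norm_sq (rotJ _),
    (frame (pt_mem (α + path 0 ψ τ))).2.1, mul_one]

/-! ### The path space of the torus -/

/-- The increment functional. -/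
def startL : L2 ℝ →L[ℝ] ℝ :=
  (ContinuousMap.evalCLM ℝ (0 : unitInterval)).comp (evL.comp (ContinuousLinearMap.inr ℝ ℝ (L2 ℝ)))

lemma startL_apply (ψ : L2 ℝ) : startL ψ = path 0 ψ 0 := rfl

lemma startL_const (v : ℝ) : startL (constL2 v) = -v := by
  rw [startL_apply, path_constL2]; simp

lemma abs_startL_le (ψ : L2 ℝ) : |startL ψ| ≤ ‖ψ‖ := by
  rw [startL_apply]
  have := norm_path_le 0 ψ 0
  rwa [norm_zero, zero_add, Real.norm_eq_abs] at this

lemma inner_const (v : ℝ) (ψ : L2 ℝ) : ⟪constL2 v, ψ⟫ = -v * startL ψ := by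
  have h0 : ∫ τ, ψ τ = ∫ τ in Ioc (0 : unitInterval) 1, ψ τ := by
    rw [← setIntegral_univ]
    apply setIntegral_congr_set
    have : ∀ᵐ τ : unitInterval, τ ≠ 0 := by
      simp [ae_iff, measure_singleton]
    filter_upwards [this] with τ hτ
    apply propext
    constructor
    · intro _
      exact ⟨lt_of_le_of_ne τ.2.1 (fun h => hτ h.symm), τ.2.2⟩
    · intro _; trivial
  rw [L2.inner_def]
  have h1 : ∫ τ, ⟪constL2 v τ, ψ τ⟫ = ∫ τ, v * ψ τ := by
    apply integral_congr_ae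
    filter_upwards [constL2_ae v] with τ h
    rw [h]
    simp [mul_comm]
  rw [h1, integral_const_mul, h0, startL_apply]
  unfold path
  ring

lemma pt_eq_iff {a b : ℝ} : pt a = pt b ↔ ∃ k : ℤ, a - b = k * (2 * Real.pi) := by
  constructor
  · intro h
    have h1 : Real.cos (a - b) = 1 := by
      rw [← inner_pt, h]
      exact (frame (pt_mem b)).1
    obtain ⟨k, hk⟩ := (Real.cos_eq_one_iff _).mp h1
    exact ⟨k, hk.symm⟩
  · rintro ⟨k, hk⟩
    have : a = b + k * (2 * Real.pi) := by linarith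
    rw [this, pt_eq, pt_eq, Real.cos_add_int_mul_two_pi, Real.sin_add_int_mul_two_pi]

section torus
variable (α β : ℝ)

/-- The space of paths in the torus from the circle to the point with angles `α`, `β`. -/
abbrev torusPaths : Set (L2 V6) := pathSpace flatTorus diagCircle (pairL (pt α, pt β))

lemma mem_torusPaths {g h : L2 V3} : join2 g h ∈ torusPaths α β ↔
    (∀ t, path (pt α) g t ∈ equator) ∧ (∀ t, path (pt β) h t ∈ equator) ∧
      path (pt α) g 0 = path (pt β) h 0 := by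
  constructor
  · rintro ⟨h1, h2⟩
    rw [path_join2] at h2
    simp only [path_join2] at h1
    exact ⟨fun t => (h1 t).1, fun t => (h1 t).2, h2.1⟩
  · rintro ⟨h1, h2, h3⟩
    refine ⟨fun t => ?_, ?_⟩
    · rw [path_join2]; exact ⟨h1 t, h2 t⟩
    · rw [path_join2]; exact ⟨h3, h1 0⟩

/-- The path in the torus with given angular velocities. -/
def rr (z : L2 ℝ × L2 ℝ) : L2 V6 := join2 (cp α z.1) (cp β z.2)

/-- The angular velocities of a path in the torus. -/
def ii (g : L2 V6) : L2 ℝ × L2 ℝ := (ang (pt α) (comp1 g), ang (pt β) (comp2 g))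

/-- The difference of the angles of the starting point. -/
def dd (z : L2 ℝ × L2 ℝ) : ℝ := α + startL z.1 - (β + startL z.2)

lemma continuous_rr : Continuous (rr α β) :=
  continuous_join2.comp (((continuous_cp α).comp continuous_fst).prodMk
    ((continuous_cp β).comp continuous_snd))

lemma continuous_ii : Continuous (ii α β) :=
  ((continuous_ang _).comp (continuous_lin _)).prodMk ((continuous_ang _).comp (continuous_lin _))

lemma continuous_dd : Continuous (dd α β) := by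
  unfold dd
  exact (continuous_const.add (startL.continuous.comp continuous_fst)).sub
    (continuous_const.add (startL.continuous.comp continuous_snd))

lemma rr_mem {z : L2 ℝ × L2 ℝ} : rr α β z ∈ torusPaths α β ↔
    ∃ k : ℤ, dd α β z = k * (2 * Real.pi) := by
  unfold rr
  rw [mem_torusPaths, path_cp, path_cp, ← startL_apply, ← startL_apply, pt_eq_iff]
  constructor
  · rintro ⟨-, -, h⟩; exact h
  · intro h
    refine ⟨fun t => ?_, fun t => ?_, h⟩
    · rw [path_cp]; exact pt_mem _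
    · rw [path_cp]; exact pt_mem _

lemma rr_ii {g : L2 V6} (hg : g ∈ torusPaths α β) : rr α β (ii α β g) = g := by
  have h := hg
  rw [← join2_comp g, mem_torusPaths] at h
  unfold rr ii
  dsimp only
  rw [cp_ang h.1, cp_ang h.2.1, join2_comp]

lemma comp1_join2 (g h : L2 V3) : comp1 (join2 g h) = g := by
  apply Lp.ext
  filter_upwards [lin_ae (WithLp.fstL 2 ℝ V3 V3) (join2 g h), join2_ae g h] with τ h1 h2
  have h3 : comp1 (join2 g h) τ = (join2 g h τ).fst := h1
  rw [h3, h2]; rfl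

lemma comp2_join2 (g h : L2 V3) : comp2 (join2 g h) = h := by
  apply Lp.ext
  filter_upwards [lin_ae (WithLp.sndL 2 ℝ V3 V3) (join2 g h), join2_ae g h] with τ h1 h2
  have h3 : comp2 (join2 g h) τ = (join2 g h τ).snd := h1
  rw [h3, h2]; rfl

lemma ii_rr (z : L2 ℝ × L2 ℝ) : ii α β (rr α β z) = z := by
  unfold ii rr
  rw [comp1_join2, comp2_join2, ang_cp, ang_cp]

lemma energy_rr (z : L2 ℝ × L2 ℝ) : energy (rr α β z) = ‖z.1‖ ^ 2 + ‖z.2‖ ^ 2 := by
  unfold rr
  rw [energy_join2, energy_cp, energy_cp]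

/-- The winding number of a path. -/
def kk (g : torusPaths α β) : ℤ := round (dd α β (ii α β g.1) / (2 * Real.pi))

lemma dd_eq (g : torusPaths α β) : dd α β (ii α β g.1) = kk α β g * (2 * Real.pi) := by
  have h := g.2
  rw [← rr_ii α β g.2, rr_mem] at h
  obtain ⟨k, hk⟩ := h
  unfold kk
  rw [hk, mul_div_cancel_right₀ _ (by positivity), round_intCast]

lemma continuous_kk : Continuous (kk α β) := by
  rw [Int.isClosedEmbedding_coe_real.isEmbedding.continuous_iff]
  have h : (fun g : torusPaths α β => ((kk α β g : ℤ) : ℝ)) =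
      fun g => dd α β (ii α β g.1) / (2 * Real.pi) := by
    funext g
    rw [dd_eq, mul_div_cancel_right₀ _ (by positivity)]
  have h2 : Continuous fun g : torusPaths α β => dd α β (ii α β g.1) / (2 * Real.pi) :=
    ((continuous_dd α β).comp ((continuous_ii α β).comp continuous_subtype_val)).div_const _
  rw [← h] at h2
  exact h2

/-- The required increment. -/
def lam (k : ℤ) : ℝ := k * (2 * Real.pi) - (α - β)

/-- The velocities of the geodesic with winding number `k`. -/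
def zz (k : ℤ) : L2 ℝ × L2 ℝ := (constL2 (-(lam α β k / 2)), constL2 (lam α β k / 2))

lemma dd_zz (k : ℤ) : dd α β (zz α β k) = k * (2 * Real.pi) := by
  unfold dd zz
  rw [startL_const, startL_const]
  unfold lam
  ring

lemma dd_combo (z w : L2 ℝ × L2 ℝ) (u : ℝ) :
    dd α β (z + u • (w - z)) = dd α β z + u * (dd α β w - dd α β z) := by
  unfold dd
  rw [Prod.fst_add, Prod.snd_add, Prod.smul_fst, Prod.smul_snd, Prod.fst_sub, Prod.snd_sub,
    map_add, map_add, map_smul, map_smul, map_sub, map_sub, smul_eq_mul, smul_eq_mul]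
  ring

lemma combo_mem (g : torusPaths α β) (u : ℝ) :
    rr α β (ii α β g.1 + u • (zz α β (kk α β g) - ii α β g.1)) ∈ torusPaths α β := by
  rw [rr_mem]
  refine ⟨kk α β g, ?_⟩
  rw [dd_combo, dd_zz, dd_eq]
  ring

/-- The section of the winding number. -/
def ss : C(ℤ, torusPaths α β) :=
  ⟨fun k => ⟨rr α β (zz α β k), (rr_mem α β).mpr ⟨k, dd_zz α β k⟩⟩, continuous_of_discreteTopology⟩

/-- The winding number as a continuous map. -/
def kkC : C(torusPaths α β, ℤ) := ⟨kk α β, continuous_kk α β⟩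

lemma kk_ss : (kkC α β).comp (ss α β) = ContinuousMap.id ℤ := by
  ext k
  have h := dd_eq α β (ss α β k)
  have h2 : dd α β (ii α β (ss α β k).1) = k * (2 * Real.pi) := by
    change dd α β (ii α β (rr α β (zz α β k))) = _
    rw [ii_rr, dd_zz]
  rw [h2] at h
  have h3 : (k : ℝ) = (kk α β (ss α β k) : ℝ) :=
    mul_right_cancel₀ (show 2 * Real.pi ≠ 0 by positivity) h
  exact_mod_cast h3.symm

lemma homotopic_ss : (ContinuousMap.id (torusPaths α β)).Homotopic ((ss α β).comp (kkC α β)) := by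
  have hz : Continuous fun g : torusPaths α β => zz α β (kk α β g) :=
    (continuous_of_discreteTopology (f := zz α β)).comp (continuous_kk α β)
  have hi : Continuous fun g : torusPaths α β => ii α β g.1 :=
    (continuous_ii α β).comp continuous_subtype_val
  refine ⟨{
    toFun := fun x => ⟨_, combo_mem α β x.2 x.1⟩
    continuous_toFun := ?_
    map_zero_left := ?_
    map_one_left := ?_ }⟩
  · apply Continuous.subtype_mk
    apply (continuous_rr α β).comp
    have h1 : Continuous fun x : unitInterval × torusPaths α β => ((x.1 : ℝ)) :=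
      continuous_subtype_val.comp continuous_fst
    exact (hi.comp continuous_snd).add (h1.smul ((hz.comp continuous_snd).sub
      (hi.comp continuous_snd)))
  · intro g
    apply Subtype.ext
    simp [rr_ii α β g.2]
  · intro g
    apply Subtype.ext
    simp [ss, kkC]

end torus

/-! ### Critical points on the torus -/

lemma hasDerivAt_comp_line2 {f f' : ℝ → ℝ} (hf : ∀ x, HasDerivAt f (f' x) x)
    (hL : ∀ x y, |f' x - f' y| ≤ |x - y|) (hfc : Continuous f) (hfc' : Continuous f')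
    (φ η : C(unitInterval, ℝ)) :
    HasDerivAt (fun s : ℝ => (⟨f, hfc⟩ : C(ℝ, ℝ)).comp (φ + s • η))
      (η * (⟨f', hfc'⟩ : C(ℝ, ℝ)).comp φ) 0 := by
  rw [hasDerivAt_iff_isLittleO]
  have h2 : (fun s : ℝ => s ^ 2 * ‖η‖ ^ 2) =o[𝓝 0] fun s : ℝ => s - 0 := by
    have h3 : HasDerivAt (fun s : ℝ => s ^ 2 * ‖η‖ ^ 2) (((2 : ℕ) : ℝ) * 0 ^ (2 - 1) * ‖η‖ ^ 2) 0 :=
      (hasDerivAt_pow 2 (0 : ℝ)).mul_const _
    rw [hasDerivAt_iff_isLittleO] at h3
    simpa using h3
  refine Asymptotics.IsBigO.trans_isLittleO ?_ h2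
  apply Asymptotics.IsBigO.of_bound 1
  filter_upwards with s
  rw [one_mul, ContinuousMap.norm_le _ (by positivity)]
  intro t
  rw [Real.norm_eq_abs (s ^ 2 * ‖η‖ ^ 2), abs_of_nonneg (by positivity)]
  have h4 := quad_bound hf hL (φ t) (φ t + s * η t)
  have h5 : ‖η t‖ ≤ ‖η‖ := η.norm_coe_le_norm t
  have e : ‖((⟨f, hfc⟩ : C(ℝ, ℝ)).comp (φ + s • η) - (⟨f, hfc⟩ : C(ℝ, ℝ)).comp (φ + (0 : ℝ) • η) -
      (s - 0) • (η * (⟨f', hfc'⟩ : C(ℝ, ℝ)).comp φ) : C(unitInterval, ℝ)) t‖ =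
      |f (φ t + s * η t) - f (φ t) - f' (φ t) * (φ t + s * η t - φ t)| := by
    rw [Real.norm_eq_abs]
    congr 1
    simp
    ring
  rw [e]
  refine h4.trans ?_
  have h6 : (φ t + s * η t - φ t) ^ 2 = s ^ 2 * ‖η t‖ ^ 2 := by
    rw [Real.norm_eq_abs, sq_abs]; ring
  rw [h6]
  gcongr

lemma abstract_deriv2 {X Y Z W : Type} [NormedAddCommGroup X] [NormedSpace ℝ X]
    [NormedAddCommGroup Y] [NormedSpace ℝ Y] [NormedAddCommGroup Z] [NormedSpace ℝ Z]
    [NormedAddCommGroup W] [NormedSpace ℝ W] (L M : X →L[ℝ] Y) (B : Y →L[ℝ] Z →L[ℝ] W) (z w : Z)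
    (x y : ℝ → X) (x' y' : X) (hx : HasDerivAt x x' 0) (hy : HasDerivAt y y' 0) :
    ∃ v, HasDerivAt (fun s : ℝ => B (L (x s) + M (y s)) (z + s • w)) v 0 := by
  have h1 := L.hasFDerivAt.comp_hasDerivAt (0 : ℝ) hx
  have h2 := M.hasFDerivAt.comp_hasDerivAt (0 : ℝ) hy
  have h4 := B.hasFDerivAt.comp_hasDerivAt (0 : ℝ) (h1.add h2)
  have h5 := h4.clm_apply (((hasDerivAt_id (0 : ℝ)).smul_const w).const_add z)
  exact ⟨_, h5⟩

lemma hasDerivAt_ellPath2 {E : Type} [NormedAddCommGroup E] [NormedSpace ℝ E] (p q : E)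
    (ψ η : L2 ℝ) :
    ∃ v, HasDerivAt (fun s : ℝ => (comp (ell p q) (contDiff_ell p q) (0, ψ + s • η)).2) v 0 := by
  set φ : C(unitInterval, ℝ) := evL (0, ψ) with hφ
  set ζ : C(unitInterval, ℝ) := evL (0, η) with hζ
  have h1 := hasDerivAt_comp_line2 (f := Real.cos) (f' := fun x => -Real.sin x)
    Real.hasDerivAt_cos (fun x y => by
      rw [show -Real.sin x - -Real.sin y = -(Real.sin x - Real.sin y) by ring, abs_neg]
      exact Real.abs_sin_sub_sin_le x y) Real.continuous_cos Real.continuous_sin.neg φ ζ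
  have h2 := hasDerivAt_comp_line2 (f := fun x => -Real.sin x) (f' := fun x => -Real.cos x)
    (fun x => (Real.hasDerivAt_sin x).neg) (fun x y => by
      rw [show -Real.cos x - -Real.cos y = -(Real.cos x - Real.cos y) by ring, abs_neg]
      exact Real.abs_cos_sub_cos_le x y) Real.continuous_sin.neg Real.continuous_cos.neg φ ζ
  obtain ⟨v, hv⟩ := abstract_deriv2 (X := C(unitInterval, ℝ)) (Y := C(unitInterval, ℝ →L[ℝ] E))
    (famL p) (famL q) (appL (E := ℝ) (E' := E)) ψ η _ _ _ _ h2 h1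
  refine ⟨v, hv.congr_of_eventuallyEq ?_⟩
  filter_upwards with s
  have e1 : (comp (ell p q) (contDiff_ell p q) (0, ψ + s • η)).2 =
      appL (dMap (ell p q) (contDiff_ell p q) (evL (0, ψ + s • η))) (ψ + s • η) := rfl
  have e2 : evL ((0 : ℝ), ψ + s • η) = φ + s • ζ := by
    rw [hφ, hζ, ← map_smul, ← map_add, Prod.smul_mk, smul_zero, Prod.mk_add_mk, add_zero]
  rw [e1, e2]
  have e3 : dMap (ell p q) (contDiff_ell p q) (φ + s • ζ) =
      famL p ((⟨fun x => -Real.sin x, Real.continuous_sin.neg⟩ : C(ℝ, ℝ)).comp (φ + s • ζ)) +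
      famL q ((⟨Real.cos, Real.continuous_cos⟩ : C(ℝ, ℝ)).comp (φ + s • ζ)) := by
    apply ContinuousMap.ext
    intro t
    ext1
    have e4 : dMap (ell p q) (contDiff_ell p q) (φ + s • ζ) t =
      fderiv ℝ (ell p q) ((φ + s • ζ) t) := rfl
    have e5 : ∀ A B : C(unitInterval, ℝ), (famL p A + famL q B) t 1 =
        famL p A t 1 + famL q B t 1 := fun A B => rfl
    rw [e4, fderiv_ell, e5, famL_apply, famL_apply, one_smul, one_smul, one_smul]
    rfl
  rw [e3]

lemma hasDerivAt_rr (α β : ℝ) (z w : L2 ℝ × L2 ℝ) :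
    ∃ v, HasDerivAt (fun s : ℝ => rr α β (z + s • w)) v 0 := by
  obtain ⟨v1, h1⟩ := hasDerivAt_ellPath2 (pt α) (rotJ (pt α)) z.1 w.1
  obtain ⟨v2, h2⟩ := hasDerivAt_ellPath2 (pt β) (rotJ (pt β)) z.2 w.2
  have k1 := ((pairL.comp (ContinuousLinearMap.inl ℝ V3 V3)).compLpL 2
    (volume : Measure unitInterval)).hasFDerivAt.comp_hasDerivAt (0 : ℝ) h1
  have k2 := ((pairL.comp (ContinuousLinearMap.inr ℝ V3 V3)).compLpL 2
    (volume : Measure unitInterval)).hasFDerivAt.comp_hasDerivAt (0 : ℝ) h2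
  exact ⟨_, k1.add k2⟩

section torus
variable (α β : ℝ)

lemma critical_eq {g : L2 V6} (h : IsCriticalPoint (torusPaths α β) g) :
    ∃ k : ℤ, g = rr α β (zz α β k) := by
  obtain ⟨hg, hc⟩ := h
  set G : torusPaths α β := ⟨g, hg⟩ with hG
  set k := kk α β G with hk
  set z := ii α β g with hz
  set w := zz α β k - z with hw
  obtain ⟨v, hv⟩ := hasDerivAt_rr α β z w
  have h1 := hc (fun s : ℝ => rr α β (z + s • w)) v (fun s => combo_mem α β G s)
    (by simp only [zero_smul, add_zero]; exact rr_ii α β hg) hv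
  have h2 : (fun s : ℝ => energy (rr α β (z + s • w))) =
      fun s : ℝ => ‖z.1 + s • w.1‖ ^ 2 + ‖z.2 + s • w.2‖ ^ 2 := by
    funext s
    rw [energy_rr]; rfl
  rw [h2] at h1
  have hd : ∀ a b : L2 ℝ, HasDerivAt (fun s : ℝ => ‖a + s • b‖ ^ 2) (2 * ⟪a, b⟫) 0 := by
    intro a b
    have h3 : HasDerivAt (fun s : ℝ => a + s • b) b 0 := by
      have h := ((hasDerivAt_id (0 : ℝ)).smul_const b).const_add a
      rw [one_smul] at h
      exact h
    have h4 := h3.norm_sq
    rw [zero_smul, add_zero] at h4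
    exact h4
  have h5 := h1.unique ((hd z.1 w.1).add (hd z.2 w.2))
  have h6 : ⟪(zz α β k).1, w.1⟫ + ⟪(zz α β k).2, w.2⟫ = 0 := by
    have e1 : dd α β z = k * (2 * Real.pi) := dd_eq α β G
    have e2 := dd_zz α β k
    have e3 : (zz α β k).1 = constL2 (-(lam α β k / 2)) := rfl
    have e4 : (zz α β k).2 = constL2 (lam α β k / 2) := rfl
    rw [e3, e4, inner_const, inner_const]
    have e5 : startL w.1 - startL w.2 = 0 := by
      have e6 : w.1 = (zz α β k).1 - z.1 := rfl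
      have e7 : w.2 = (zz α β k).2 - z.2 := rfl
      rw [e6, e7, map_sub, map_sub]
      unfold dd at e1 e2
      linarith
    linear_combination (lam α β k / 2) * e5
  have h7 : ‖w.1‖ ^ 2 + ‖w.2‖ ^ 2 = 0 := by
    have e1 : w.1 = (zz α β k).1 - z.1 := rfl
    have e2 : w.2 = (zz α β k).2 - z.2 := rfl
    have e3 : ⟪w.1, w.1⟫ = ⟪(zz α β k).1, w.1⟫ - ⟪z.1, w.1⟫ := by
      conv_lhs => rw [e1, inner_sub_left]
      rw [← e1]
    have e4 : ⟪w.2, w.2⟫ = ⟪(zz α β k).2, w.2⟫ - ⟪z.2, w.2⟫ := by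
      conv_lhs => rw [e2, inner_sub_left]
      rw [← e2]
    rw [← real_inner_self_eq_norm_sq, ← real_inner_self_eq_norm_sq, e3, e4]
    linarith
  have h8 : w.1 = 0 := by
    have : ‖w.1‖ ^ 2 = 0 := by nlinarith [sq_nonneg ‖w.1‖, sq_nonneg ‖w.2‖]
    exact norm_eq_zero.mp (pow_eq_zero_iff two_ne_zero |>.mp this)
  have h9 : w.2 = 0 := by
    have : ‖w.2‖ ^ 2 = 0 := by nlinarith [sq_nonneg ‖w.1‖, sq_nonneg ‖w.2‖]
    exact norm_eq_zero.mp (pow_eq_zero_iff two_ne_zero |>.mp this)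
  refine ⟨k, ?_⟩
  have h10 : w = 0 := Prod.ext h8 h9
  rw [← rr_ii α β hg]
  congr 1
  exact (sub_eq_zero.mp h10).symm

lemma energy_bound {z : L2 ℝ × L2 ℝ} {k : ℤ} (h : dd α β z = k * (2 * Real.pi)) :
    energy (rr α β (zz α β k)) ≤ ‖z.1‖ ^ 2 + ‖z.2‖ ^ 2 := by
  have e1 : energy (rr α β (zz α β k)) = lam α β k ^ 2 / 2 := by
    rw [energy_rr]
    have e3 : (zz α β k).1 = constL2 (-(lam α β k / 2)) := rfl
    have e4 : (zz α β k).2 = constL2 (lam α β k / 2) := rfl
    rw [e3, e4, ← real_inner_self_eq_norm_sq, ← real_inner_self_eq_norm_sq, inner_const,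
      inner_const, startL_const, startL_const]
    ring
  rw [e1]
  have h1 := abs_startL_le z.1
  have h2 := abs_startL_le z.2
  have h3 : startL z.1 ^ 2 ≤ ‖z.1‖ ^ 2 := by rw [← sq_abs]; gcongr
  have h4 : startL z.2 ^ 2 ≤ ‖z.2‖ ^ 2 := by rw [← sq_abs]; gcongr
  have h5 : lam α β k = startL z.1 - startL z.2 := by
    unfold lam
    unfold dd at h
    linarith
  rw [h5]
  nlinarith [sq_nonneg (startL z.1 + startL z.2)]

lemma min_near (k : ℤ) : ∀ᶠ h in 𝓝 (rr α β (zz α β k)), h ∈ torusPaths α β →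
    energy (rr α β (zz α β k)) ≤ energy h := by
  have hc : Continuous fun h : L2 V6 => dd α β (ii α β h) :=
    (continuous_dd α β).comp (continuous_ii α β)
  have h0 : dd α β (ii α β (rr α β (zz α β k))) = k * (2 * Real.pi) := by rw [ii_rr, dd_zz]
  have hπ := Real.pi_pos
  have hopen : IsOpen {h : L2 V6 | |dd α β (ii α β h) - k * (2 * Real.pi)| < Real.pi} :=
    isOpen_lt ((hc.sub continuous_const).abs) continuous_const
  have hmem : rr α β (zz α β k) ∈
      {h : L2 V6 | |dd α β (ii α β h) - k * (2 * Real.pi)| < Real.pi} := by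
    rw [mem_ofPred_eq, h0]
    simpa using hπ
  filter_upwards [hopen.mem_nhds hmem] with h hh hX
  have h1 := dd_eq α β ⟨h, hX⟩
  set k' := kk α β ⟨h, hX⟩
  dsimp only at h1
  rw [h1] at hh
  have h2 : k' = k := by
    have h3 : |(k' : ℝ) - k| * (2 * Real.pi) < Real.pi := by
      have : (k' : ℝ) * (2 * Real.pi) - k * (2 * Real.pi) = ((k' : ℝ) - k) * (2 * Real.pi) := by
        ring
      rw [this, abs_mul, abs_of_pos (show 0 < 2 * Real.pi by positivity)] at hh
      exact hh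
    have h4 : |(k' : ℝ) - k| < 1 := by nlinarith [abs_nonneg ((k' : ℝ) - k)]
    have h5 : |k' - k| < 1 := by exact_mod_cast h4
    have h6 := Int.abs_lt_one_iff.mp h5
    omega
  rw [h2] at h1
  have h7 := energy_bound α β h1
  rw [← energy_rr α β, rr_ii α β hX] at h7
  exact h7

lemma rr_zz_injective : Function.Injective fun k : ℤ => rr α β (zz α β k) := by
  intro k l hkl
  dsimp only at hkl
  have h1 := congrArg (fun g => dd α β (ii α β g)) hkl
  simp only [ii_rr, dd_zz] at h1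
  have h2 : (k : ℝ) = l := mul_right_cancel₀ (show 2 * Real.pi ≠ 0 by positivity) h1
  exact_mod_cast h2

lemma isPerfect_torus (F : Type) [Field F] :
    IsPerfect F flatTorus diagCircle (pairL (pt α, pt β)) := by
  intro n
  have hcrit : ∀ k : ℤ, IsCriticalPoint (torusPaths α β) (rr α β (zz α β k)) := fun k =>
    isCriticalPoint_of_min ((rr_mem α β).mpr ⟨k, dd_zz α β k⟩) (min_near α β k)
  have hind : ∀ k : ℤ, index (torusPaths α β) (rr α β (zz α β k)) = 0 := fun k =>
    index_of_min (min_near α β k)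
  rcases eq_or_ne n 0 with rfl | hn
  · have h1 : {g | IsCriticalPoint (torusPaths α β) g ∧ index (torusPaths α β) g = (0 : ℕ)} =
        range fun k : ℤ => rr α β (zz α β k) := by
      ext g
      constructor
      · rintro ⟨h, -⟩
        obtain ⟨k, hk⟩ := critical_eq α β h
        exact ⟨k, hk.symm⟩
      · rintro ⟨k, rfl⟩
        exact ⟨hcrit k, hind k⟩
    rw [h1, betti_zero_of_int F (kkC α β) (ss α β) (homotopic_ss α β) (kk_ss α β)]
    exact (infinite_range_of_injective (rr_zz_injective α β)).encard_eq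
  · have h1 : {g | IsCriticalPoint (torusPaths α β) g ∧ index (torusPaths α β) g = n} = ∅ := by
      ext g
      simp only [mem_ofPred_eq, mem_empty_iff_false, iff_false]
      rintro ⟨h, h'⟩
      obtain ⟨k, hk⟩ := critical_eq α β h
      rw [hk, hind k] at h'
      exact hn (by exact_mod_cast h'.symm)
    rw [h1, encard_empty,
      betti_pos_of_int F n hn (kkC α β) (ss α β) (homotopic_ss α β)]

end torus

/-- The diagonal circle is taut in the flat torus. -/
lemma isTaut_torus : IsTaut flatTorus diagCircle := by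
  refine ⟨ℚ, inferInstance, fun p hp _ => ?_⟩
  rw [flatTorus_eq] at hp
  obtain ⟨⟨α, β⟩, rfl⟩ := hp
  exact isPerfect_torus α β ℚ

end Pool.Agent.Helper10.Taut
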